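import Pool.Agent.Lib.MP_7f581e_ntL.Z7
import Pool.Agent.Lib.MP_7f581e_ntL.Z10

section

/-!
Commutator Lang torsor, part 11: irreducibility of the universal commutator torsor.
-/

set_option autoImplicit false
set_option linter.unusedSectionVars false

universe u v

namespace MP7fZ

open TensorProduct MP7fS MP7fU MP7fV MP7fR

variable {p : ℕ} [Fact p.Prime] {B : Type} [Ring B] [Finite B] [Algebra (ZMod p) B]
variable (J : AInv p B) {κ : Type} [Fintype κ] [DecidableEq κ]
  (sb : Module.Basis κ (ZMod p) (Sk J))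

/-- The skew elements of square zero which are scaled nontrivially by a good unitary element. -/
def GenV (J : AInv p B) (v : B) : Prop :=
  J.j v = -v ∧ ∃ (a : (AlgebraicClosure (ZMod p) ⊗[ZMod p] B)ˣ) (l : AlgebraicClosure (ZMod p)),
    a ∈ UR J (AlgebraicClosure (ZMod p)) ∧
    IsUnit (1 - (a : AlgebraicClosure (ZMod p) ⊗[ZMod p] B)) ∧ l ≠ 1 ∧
    (a : AlgebraicClosure (ZMod p) ⊗[ZMod p] B) *
      ((1 : AlgebraicClosure (ZMod p)) ⊗ₜ[ZMod p] v) =
      l • (((1 : AlgebraicClosure (ZMod p)) ⊗ₜ[ZMod p] v) *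
        (a : AlgebraicClosure (ZMod p) ⊗[ZMod p] B))

section main

variable {M : Type u} [Field M] [Algebra (ZMod p) M] [CharP M p]
  (b : Module.Basis κ M (VV J M)) {c' : M ⊗[ZMod p] B} (hc' : c' + jR J M c' = 1)
  {ι : Type} (ε : Bool × κ ≃ ι)

include sb in
theorem curveAt {R : Type u} [CommRing R] [Algebra (MvPolynomial ι M) R]
    [IsLocalization.Away (fδ J b ε c') R] [Algebra (ZMod p) R]
    {c₀ : B} (hc : c₀ + J.j c₀ = 1) {v : B} (hv : v * v = 0) (hgen : GenV J v)
    (j₁ : AlgebraicClosure (ZMod p) →+* M)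
    (I : Ideal R) (hI : ∀ a : (M ⊗[ZMod p] B)ˣ, a ∈ UR J M →
      IsUnit (1 - (a : M ⊗[ZMod p] B)) → ∀ ev : R →+* M,
      (∀ m, ev (algebraMap (MvPolynomial ι M) R (MvPolynomial.C m)) = m) →
      (∀ t, bu ev (xR J b ε hc' R t) = a) → I ≤ RingHom.ker ev) :
    CurveAt (cR J b ε hc' R) I hv := by
  obtain ⟨hJv, a, l, ha, ha1, hl, hav⟩ := hgen
  have ha' : bu j₁ a ∈ UR J M := um_mem ha j₁ (RingHom.id B) (fun _ => rfl)
  have ha1' : IsUnit (1 - ((bu j₁ a : (M ⊗[ZMod p] B)ˣ) : M ⊗[ZMod p] B)) := by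
    have h1 := ha1.map (tmap (p := p) j₁ (RingHom.id B))
    rw [map_sub, map_one] at h1
    exact h1
  have hl' : j₁ l ≠ 1 := fun h => hl (j₁.injective (h.trans (map_one j₁).symm))
  have hav' : ((bu j₁ a : (M ⊗[ZMod p] B)ˣ) : M ⊗[ZMod p] B) * ((1 : M) ⊗ₜ[ZMod p] v) =
      j₁ l • (((1 : M) ⊗ₜ[ZMod p] v) * ((bu j₁ a : (M ⊗[ZMod p] B)ˣ) : M ⊗[ZMod p] B)) := by
    have h2 := congrArg (tmap (p := p) j₁ (RingHom.id B)) hav
    rw [map_mul, tmap_smul, map_mul, tmap_tmul, map_one] at h2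
    exact h2
  -- the local ring
  have hprime : (Ideal.span {(Polynomial.X : Polynomial M)}).IsPrime :=
    (Ideal.span_singleton_prime Polynomial.X_ne_zero).mpr Polynomial.prime_X
  let V := Localization.AtPrime (Ideal.span {(Polynomial.X : Polynomial M)})
  let F := FractionRing (Polynomial M)
  let k := IsLocalRing.ResidueField V
  let aV : Polynomial M →+* V := algebraMap (Polynomial M) V
  let i : V →+* F := algebraMap V F
  have hi : Function.Injective i := IsFractionRing.injective V F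
  let π : V →+* k := IsLocalRing.residue V
  let _ : Algebra (ZMod p) V := (aV.comp (algebraMap (ZMod p) (Polynomial M))).toAlgebra
  let _ : Algebra (ZMod p) F := (i.comp (aV.comp
    (algebraMap (ZMod p) (Polynomial M)))).toAlgebra
  let _ : Algebra (ZMod p) k := (π.comp (aV.comp
    (algebraMap (ZMod p) (Polynomial M)))).toAlgebra
  have hF : CharP F p := charP_of_injective_ringHom (i.comp (aV.comp
    (algebraMap (ZMod p) (Polynomial M)))).injective p
  have hia : ∀ P : Polynomial M, i (aV P) = algebraMap (Polynomial M) F P := fun P =>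
    (IsScalarTower.algebraMap_apply (Polynomial M) V F P).symm
  have hx : π (aV Polynomial.X) = 0 := by
    rw [IsLocalRing.residue_eq_zero_iff, IsLocalization.AtPrime.to_map_mem_maximal_iff V
      (Ideal.span {(Polynomial.X : Polynomial M)})]
    exact Ideal.mem_span_singleton_self _
  let s : Polynomial M →+* Polynomial M := (Polynomial.algEquivAevalXAddC (1 : M) :
    Polynomial M →+* Polynomial M)
  have hs : Function.Injective s := (Polynomial.algEquivAevalXAddC (1 : M)).injective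
  let τ : F →+* F := IsFractionRing.map hs
  have hτ : ∀ P : Polynomial M, τ (i (aV P)) = i (aV (s P)) := by
    intro P
    rw [hia, hia]
    exact IsLocalization.map_eq _ P
  refine curve_aux J sb b hc' ε hc hv hJv (bu j₁ a) ha' ha1' (j₁ l) hl' hav' I
    (hI _ ha' ha1') i hi π (aV.comp Polynomial.C) (aV Polynomial.X) hx τ ?_ ?_
  · intro m
    change τ (i (aV (Polynomial.C m))) = i (aV (Polynomial.C m))
    rw [hτ]
    congr 2
    change Polynomial.algEquivAevalXAddC (1 : M) (Polynomial.C m) = _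
    simp
  · rw [hτ]
    have h1 : s Polynomial.X = Polynomial.X + 1 := by
      change Polynomial.algEquivAevalXAddC (1 : M) Polynomial.X = _
      simp
    rw [h1, map_add, map_add, map_one, map_one]

variable {n : ℕ} {Cc : Type} [CommRing Cc] [Finite Cc] [Algebra (ZMod p) Cc]
  (D : DetData J n Cc)

include sb hc' in
theorem irr_aux3 {c₀ : B} (hG : Good J c₀) (j₁ : AlgebraicClosure (ZMod p) →+* M)
    {N C : Type u} [Field N] [Algebra (MvPolynomial ι M) N]
    [IsFractionRing (MvPolynomial ι M) N] [Field C] [IsAlgClosed C] [Algebra N C]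
    [Algebra.IsAlgebraic N C] [Algebra (ZMod p) C] [CharP C p]
    {R : Type u} [CommRing R] [Algebra (MvPolynomial ι M) R]
    [IsLocalization.Away (fδ J b ε c') R] [Algebra (ZMod p) R]
    [Algebra R N] [IsScalarTower (MvPolynomial ι M) R N]
    {ι₁ : Type} (ε₁ : Unit × κ ≃ ι₁)
    {R₁ : Type u} [CommRing R₁] [Algebra (MvPolynomial ι₁ M) R₁]
    [IsLocalization.Away (fδ J b ε₁ c') R₁] [Algebra (ZMod p) R₁]
    {k : Type u} [Field k] [Algebra (ZMod p) k] [CharP k p] (i₁ : R₁ →+* k)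
    (hi₁ : Function.Injective i₁) :
    ∃ (y : Bool → (C ⊗[ZMod p] B)ˣ) (_ : ∀ t, (y t : C ⊗[ZMod p] B) =
        cg J b c' (((algebraMap N C).comp (algebraMap (MvPolynomial ι M) N)).comp
          MvPolynomial.C) (fun k => (algebraMap N C) (algebraMap (MvPolynomial ι M) N
            (MvPolynomial.X (ε (t, k))))))
      (hy1 : ∀ t, (y t : C ⊗[ZMod p] B) + jR J C (y t : C ⊗[ZMod p] B) = 1),
      ∃ g ∈ UR J C, uf C g = cmm (cay J (y false) (hy1 false)) (cay J (y true) (hy1 true)) * g ∧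
        du D C g = 1 ∧ ∀ (v : B) (hv : v * v = 0), v ≠ 0 → GenV J v →
          ∃ σ : C ≃ₐ[N] C, bu (σ : C →+* C) g = g * cu C (nB hv) := by
  have hne : fδ J b ε c' ≠ 0 := fδ_ne_zero J sb b hc' ε hG j₁
  have hle : Submonoid.powers (fδ J b ε c') ≤ nonZeroDivisors (MvPolynomial ι M) :=
    powers_le_nonZeroDivisors_of_noZeroDivisors hne
  have hRd : IsDomain R := IsLocalization.isDomain_of_le_nonZeroDivisors _ hle
  have hRi : IsIntegrallyClosed R := isIntegrallyClosed_of_isLocalization _ _ hle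
  have hfr : IsFractionRing R N := IsFractionRing.isFractionRing_of_isDomain_of_isLocalization
    (Submonoid.powers (fδ J b ε c')) R N
  let _ : Algebra R C := ((algebraMap N C).comp (algebraMap R N)).toAlgebra
  have htow : IsScalarTower R N C := IsScalarTower.of_algebraMap_eq fun _ => rfl
  have hPR : ∀ P : MvPolynomial ι M, algebraMap R C (algebraMap (MvPolynomial ι M) R P) =
      algebraMap N C (algebraMap (MvPolynomial ι M) N P) := by
    intro P
    rw [IsScalarTower.algebraMap_apply (MvPolynomial ι M) R N]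
    rfl
  -- the diagonal
  let x₁ := xR J b ε₁ hc' R₁ ()
  have hx₁1 : IsUnit (1 - (x₁ : R₁ ⊗[ZMod p] B)) := by
    rw [coe_xR, sub_sub_cancel]
    exact Units.isUnit _
  obtain ⟨dg', hdgM, hdgx⟩ := exists_ev J sb b hc' ε (R := R) hG.hc
    ((algebraMap (MvPolynomial ι₁ M) R₁).comp MvPolynomial.C) (fun _ => x₁)
    (fun _ => xR_mem J b hc' ε₁ ()) (fun _ => hx₁1)
  have hkd : RingHom.ker (i₁.comp dg') = RingHom.ker dg' := RingHom.ker_comp_of_injective _ hi₁
  have hdg : bu (i₁.comp dg') (cR J b ε hc' R) = 1 := by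
    rw [← bu_bu, bu_cR, hdgx, hdgx, cmm_self, map_one]
  have hdc : du D R (cR J b ε hc' R) = 1 := by
    rw [cR, map_cmm]
    exact cmm_comm _ _
  obtain ⟨g, hgU, hg, hgd, hgv⟩ := irr_core (N := N) (C := C) D hG (cR J b ε hc' R)
    (cR_mem J b hc' ε) hdc (i₁.comp dg') hdg (i₁.comp
      (((algebraMap (MvPolynomial ι₁ M) R₁).comp MvPolynomial.C).comp j₁))
  have hy1 : ∀ t, ((bu (algebraMap R C) (yR J b ε c' R t) : (C ⊗[ZMod p] B)ˣ) :
      C ⊗[ZMod p] B) + jR J C ((bu (algebraMap R C) (yR J b ε c' R t) : (C ⊗[ZMod p] B)ˣ) :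
      C ⊗[ZMod p] B) = 1 := by
    intro t
    rw [coe_um, jR_tmap J (algebraMap R C) (RingHom.id B) (fun _ => rfl), ← map_add,
      yR_add J b hc' ε, map_one]
  have hcay : ∀ t, cay J (bu (algebraMap R C) (yR J b ε c' R t)) (hy1 t) =
      bu (algebraMap R C) (xR J b ε hc' R t) := by
    intro t
    exact (um_cay J (algebraMap R C) (yR J b ε c' R t) (yR_add J b hc' ε t) _ (hy1 t) rfl).symm
  refine ⟨fun t => bu (algebraMap R C) (yR J b ε c' R t), ?_, hy1, g, hgU, ?_, hgd, ?_⟩
  · intro t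
    rw [coe_um, coe_yR, tmap_cg]
    have h1 : (algebraMap R C).comp ((algebraMap (MvPolynomial ι M) R).comp MvPolynomial.C) =
        ((algebraMap N C).comp (algebraMap (MvPolynomial ι M) N)).comp MvPolynomial.C :=
      RingHom.ext fun m => hPR _
    rw [h1]
    congr 1
    funext k
    exact hPR _
  · rw [hg, hcay, hcay, ← map_cmm]
    rfl
  · intro v hv hv0 hgen
    apply hgv v hv hv0
    rw [hkd]
    refine curveAt J sb b hc' ε hG.hc hv hgen j₁ _ ?_
    intro a ha ha1 ev hevM hevx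
    obtain ⟨ev₁, hev1, hev2⟩ := exists_ev J sb b hc' ε₁ (R := R₁) hG.hc (RingHom.id M)
      (fun _ => a) (fun _ => ha) (fun _ => ha1)
    have h1 : ev = ev₁.comp dg' := by
      apply ev_unique J sb b hc' ε
      · intro m
        rw [hevM]
        change m = ev₁ (dg' _)
        rw [hdgM]
        exact (hev1 m).symm
      · intro t
        rw [hevx, ← bu_bu, hdgx, hev2]
    intro r hr
    rw [h1]
    change ev₁ (dg' r) = 0
    rw [(hr : dg' r = 0), map_zero]

include sb hc' in
/-- **Irreducibility of the universal commutator torsor.** -/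
theorem irr {c₀ : B} (hG : Good J c₀) (j₁ : AlgebraicClosure (ZMod p) →+* M)
    {N C : Type u} [Field N] [Algebra (MvPolynomial ι M) N]
    [IsFractionRing (MvPolynomial ι M) N] [Field C] [IsAlgClosed C] [Algebra N C]
    [Algebra.IsAlgebraic N C] [Algebra (ZMod p) C] [CharP C p] :
    ∃ (y : Bool → (C ⊗[ZMod p] B)ˣ) (_ : ∀ t, (y t : C ⊗[ZMod p] B) =
        cg J b c' (((algebraMap N C).comp (algebraMap (MvPolynomial ι M) N)).comp
          MvPolynomial.C) (fun k => (algebraMap N C) (algebraMap (MvPolynomial ι M) N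
            (MvPolynomial.X (ε (t, k))))))
      (hy1 : ∀ t, (y t : C ⊗[ZMod p] B) + jR J C (y t : C ⊗[ZMod p] B) = 1),
      ∃ g ∈ UR J C, uf C g = cmm (cay J (y false) (hy1 false)) (cay J (y true) (hy1 true)) * g ∧
        du D C g = 1 ∧ ∀ (v : B) (hv : v * v = 0), v ≠ 0 → GenV J v →
          ∃ σ : C ≃ₐ[N] C, bu (σ : C →+* C) g = g * cu C (nB hv) := by
  have hne : fδ J b ε c' ≠ 0 := fδ_ne_zero J sb b hc' ε hG j₁
  let ε₁ : Unit × κ ≃ Unit × κ := Equiv.refl _
  have hne₁ : fδ J b ε₁ c' ≠ 0 := fδ_ne_zero J sb b hc' ε₁ hG j₁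
  let R := Localization.Away (fδ J b ε c')
  let R₁ := Localization.Away (fδ J b ε₁ c')
  have hR₁ : IsDomain R₁ := IsLocalization.isDomain_of_le_nonZeroDivisors _
    (powers_le_nonZeroDivisors_of_noZeroDivisors hne₁)
  let k := FractionRing R₁
  let zP : ZMod p →+* MvPolynomial ι M := algebraMap (ZMod p) (MvPolynomial ι M)
  let zP₁ : ZMod p →+* MvPolynomial (Unit × κ) M :=
    algebraMap (ZMod p) (MvPolynomial (Unit × κ) M)
  let _ : Algebra (ZMod p) R := ((algebraMap (MvPolynomial ι M) R).comp zP).toAlgebra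
  let _ : Algebra (ZMod p) R₁ :=
    ((algebraMap (MvPolynomial (Unit × κ) M) R₁).comp zP₁).toAlgebra
  let _ : Algebra (ZMod p) k := ((algebraMap R₁ k).comp
    ((algebraMap (MvPolynomial (Unit × κ) M) R₁).comp zP₁)).toAlgebra
  have hk : CharP k p := charP_of_injective_ringHom ((algebraMap R₁ k).comp
    ((algebraMap (MvPolynomial (Unit × κ) M) R₁).comp zP₁)).injective p
  have hunit : IsUnit (algebraMap (MvPolynomial ι M) N (fδ J b ε c')) := by
    rw [isUnit_iff_ne_zero]
    intro h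
    exact hne (IsFractionRing.injective (MvPolynomial ι M) N (h.trans (map_zero _).symm))
  let _ : Algebra R N := (IsLocalization.Away.lift (fδ J b ε c') hunit : R →+* N).toAlgebra
  have htow : IsScalarTower (MvPolynomial ι M) R N := IsScalarTower.of_algebraMap_eq fun P =>
    (IsLocalization.Away.lift_eq (fδ J b ε c') hunit P).symm
  exact irr_aux3 J sb b hc' ε D hG j₁ (N := N) (C := C) (R := R) ε₁ (R₁ := R₁) (k := k)
    (algebraMap R₁ k) (IsFractionRing.injective R₁ k)

end main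

end MP7fZ

end

section

/-!
A criterion for the scaling condition.
-/

set_option autoImplicit false
set_option linter.unusedSectionVars false

universe u

namespace MP7fM

open TensorProduct MP7fZ MP7fV MP7fU MP7fS

section

variable {p : ℕ} [Fact p.Prime] {B : Type} [Ring B] [Finite B] [Algebra (ZMod p) B]
  {ι : Type} [Fintype ι] [DecidableEq ι]

/-- The ring homomorphism attached to a complete family of orthogonal idempotents. -/
noncomputable def phiG (Ω : Type) [Field Ω] [Algebra (ZMod p) Ω] (g : ι → B)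
    (h1 : ∀ i j, g i * g j = if i = j then g i else 0) (h2 : ∑ i, g i = 1) :
    (ι → Ω) →+* Ω ⊗[ZMod p] B where
  toFun f := ∑ i, f i ⊗ₜ[ZMod p] g i
  map_one' := by
    change ∑ i, (1 : Ω) ⊗ₜ[ZMod p] g i = 1
    rw [← tmul_sum, h2, Algebra.TensorProduct.one_def]
  map_zero' := by
    change ∑ i, (0 : Ω) ⊗ₜ[ZMod p] g i = 0
    exact Finset.sum_eq_zero fun i _ => zero_tmul _ _
  map_add' f f' := by
    rw [← Finset.sum_add_distrib]
    exact Finset.sum_congr rfl fun i _ => add_tmul _ _ _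
  map_mul' f f' := by
    rw [Finset.sum_mul_sum]
    refine Finset.sum_congr rfl fun i _ => ?_
    rw [Finset.sum_eq_single i]
    · rw [Algebra.TensorProduct.tmul_mul_tmul, h1, if_pos rfl]
      rfl
    · intro j _ hj
      rw [Algebra.TensorProduct.tmul_mul_tmul, h1, if_neg (Ne.symm hj), tmul_zero]
    · intro h
      exact absurd (Finset.mem_univ i) h

theorem phiG_apply (Ω : Type) [Field Ω] [Algebra (ZMod p) Ω] (g : ι → B)
    (h1 : ∀ i j, g i * g j = if i = j then g i else 0) (h2 : ∑ i, g i = 1) (f : ι → Ω) :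
    phiG (p := p) Ω g h1 h2 f = ∑ i, f i ⊗ₜ[ZMod p] g i := rfl

/-- A criterion for the scaling condition, by a complete family of orthogonal idempotents. -/
theorem genV_of_idem {J : AInv p B} (g : ι → B)
    (h1 : ∀ i j, g i * g j = if i = j then g i else 0) (h2 : ∑ i, g i = 1) (τ : ι → ι)
    (hτ : ∀ i, τ (τ i) = i) (hJ : ∀ i, J.j (g i) = g (τ i)) {v : B} (hv : J.j v = -v)
    (f : ι → AlgebraicClosure (ZMod p)) (l : AlgebraicClosure (ZMod p)) (hl : l ≠ 1)
    (hf0 : ∀ i, f i ≠ 0) (hf1 : ∀ i, f i ≠ 1) (hfτ : ∀ i, f (τ i) = (f i)⁻¹)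
    (hfv : ∀ i j, g i * v * g j = 0 ∨ f i = l * f j) : GenV J v := by
  refine ⟨hv, ?_⟩
  have e1 : f * f⁻¹ = 1 := funext fun i => mul_inv_cancel₀ (hf0 i)
  have e2 : f⁻¹ * f = 1 := funext fun i => inv_mul_cancel₀ (hf0 i)
  refine ⟨⟨phiG (p := p) (AlgebraicClosure (ZMod p)) g h1 h2 f, phiG (p := p) (AlgebraicClosure (ZMod p)) g h1 h2 f⁻¹,
    by rw [← map_mul, e1, map_one], by rw [← map_mul, e2, map_one]⟩, l, ?_, ?_, hl, ?_⟩
  · rw [mem_UR]
    change jR J (AlgebraicClosure (ZMod p)) (phiG (p := p) (AlgebraicClosure (ZMod p)) g h1 h2 f) * phiG (p := p) (AlgebraicClosure (ZMod p)) g h1 h2 f = 1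
    have h3 : jR J (AlgebraicClosure (ZMod p)) (phiG (p := p) (AlgebraicClosure (ZMod p)) g h1 h2 f) = phiG (p := p) (AlgebraicClosure (ZMod p)) g h1 h2 f⁻¹ := by
      rw [phiG_apply, phiG_apply, map_sum]
      simp only [jR_tmul, hJ]
      refine Finset.sum_nbij' τ τ (fun _ _ => Finset.mem_univ _) (fun _ _ => Finset.mem_univ _)
        (fun i _ => hτ i) (fun i _ => hτ i) ?_
      intro i _
      rw [Pi.inv_apply, hfτ, inv_inv]
    rw [h3, ← map_mul, e2, map_one]
  · change IsUnit (1 - phiG (p := p) (AlgebraicClosure (ZMod p)) g h1 h2 f)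
    have h3 : (1 : AlgebraicClosure (ZMod p) ⊗[ZMod p] B) = phiG (p := p) (AlgebraicClosure (ZMod p)) g h1 h2 1 := (map_one _).symm
    rw [h3, ← map_sub]
    refine IsUnit.map _ ?_
    rw [Pi.isUnit_iff]
    intro i
    exact isUnit_iff_ne_zero.mpr (sub_ne_zero.mpr (Ne.symm (hf1 i)))
  · change phiG (p := p) (AlgebraicClosure (ZMod p)) g h1 h2 f * ((1 : (AlgebraicClosure (ZMod p))) ⊗ₜ[ZMod p] v) =
      l • (((1 : (AlgebraicClosure (ZMod p))) ⊗ₜ[ZMod p] v) * phiG (p := p) (AlgebraicClosure (ZMod p)) g h1 h2 f)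
    have h3 : ∀ i, g i * v = ∑ j, g i * v * g j := fun i => by
      rw [← Finset.mul_sum, h2, mul_one]
    have h4 : ∀ j, v * g j = ∑ i, g i * v * g j := fun j => by
      rw [← Finset.sum_mul, ← Finset.sum_mul, h2, one_mul]
    rw [phiG_apply, Finset.sum_mul, Finset.mul_sum, Finset.smul_sum]
    simp only [Algebra.TensorProduct.tmul_mul_tmul, mul_one, one_mul, smul_tmul', smul_eq_mul]
    have h5 : ∑ i, f i ⊗ₜ[ZMod p] (g i * v) = ∑ i, ∑ j, f i ⊗ₜ[ZMod p] (g i * v * g j) :=
      Finset.sum_congr rfl fun i _ => by rw [← tmul_sum, ← h3]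
    have h6 : ∑ j, (l * f j) ⊗ₜ[ZMod p] (v * g j) =
        ∑ j, ∑ i, (l * f j) ⊗ₜ[ZMod p] (g i * v * g j) :=
      Finset.sum_congr rfl fun j _ => by rw [← tmul_sum, ← h4]
    rw [h5, h6, Finset.sum_comm]
    refine Finset.sum_congr rfl fun j _ => Finset.sum_congr rfl fun i _ => ?_
    rcases hfv i j with h | h
    · rw [h, tmul_zero, tmul_zero]
    · rw [h]

/-- Scalars in general position. -/
theorem exists_scalars (p : ℕ) [Fact p.Prime] : ∃ μ ν : AlgebraicClosure (ZMod p),
    μ ≠ 0 ∧ μ ≠ 1 ∧ ν ≠ 0 ∧ ν ≠ 1 ∧ μ ≠ ν := by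
  classical
  obtain ⟨μ, hμ⟩ := Infinite.exists_notMem_finset ({0, 1} : Finset (AlgebraicClosure (ZMod p)))
  obtain ⟨ν, hν⟩ := Infinite.exists_notMem_finset ({0, 1, μ} : Finset (AlgebraicClosure (ZMod p)))
  simp only [Finset.mem_insert, Finset.mem_singleton, not_or] at hμ hν
  exact ⟨μ, ν, hμ.1, hμ.2, hν.1, hν.2.1, Ne.symm hν.2.2⟩

end

end MP7fM

end
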