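import Pool.Agent.Lib.MP_7f581e_ntL.Z12
import Pool.Agent.Lib.MP_7f581e_ntM.GenV
import Pool.Agent.Lib.MP_7f581e_ntG.SplitSLnB
import Pool.Agent.Lib.MP_7f581e_ntG.SolvePSL

/-!
Generic Lang torsors for powers of `SL(n, F)`, with all ring automorphisms.
-/

set_option autoImplicit false
set_option linter.unusedSectionVars false

universe u

namespace MP7fM

open TensorProduct Matrix Matrix.SpecialLinearGroup MP7fZ MP7fV MP7fU MP7fS MP7fG MP7fY MP7fE

section gen

variable {p m : ℕ} [Fact p.Prime] {F : Type} [Field F] [Finite F] [Algebra (ZMod p) F]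
  {κ : Type} [Finite κ]

variable (F κ) in
/-- Four orthogonal idempotents. -/
def gE (i : Fin (m + 1)) (c : Bool × Bool) : FM (m + 1) F (κ × Bool) := fun y =>
  if y.2 = c.1 then (if c.2 then single i i 1 else 1 - single i i 1) else 0

theorem gE_mul (i : Fin (m + 1)) (c d : Bool × Bool) :
    gE F κ i c * gE F κ i d = if c = d then gE F κ i c else 0 := by
  obtain ⟨c1, c2⟩ := c
  obtain ⟨d1, d2⟩ := d
  funext y
  rw [Pi.mul_apply]
  obtain ⟨k, b⟩ := y
  have e1 : (single i i (1 : F)) * (single i i 1) = single i i 1 := by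
    rw [single_mul_single_same, mul_one]
  cases b <;> cases c1 <;> cases c2 <;> cases d1 <;> cases d2 <;>
    simp [gE, mul_sub, sub_mul, e1]

theorem gE_sum (i : Fin (m + 1)) : ∑ c, gE F κ i c = 1 := by
  funext y
  obtain ⟨k, b⟩ := y
  rw [Fintype.sum_prod_type, Fintype.sum_bool, Fintype.sum_bool, Fintype.sum_bool]
  cases b <;> simp [gE]

theorem gE_J (i : Fin (m + 1)) (c : Bool × Bool) :
    (exInv p (m + 1) F κ).j (gE F κ i c) = gE F κ i (!c.1, c.2) := by
  obtain ⟨c1, c2⟩ := c
  funext y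
  rw [exInv_j]
  obtain ⟨k, b⟩ := y
  cases b <;> cases c1 <;> cases c2 <;> simp [gE]

open Classical in
/-- The nilpotent elements. -/
noncomputable def vE (k : κ) (i j : Fin (m + 1)) (t : F) : FM (m + 1) F (κ × Bool) := fun y =>
  if y.1 = k then (if y.2 then -single j i t else single i j t) else 0

theorem vE_sq (k : κ) {i j : Fin (m + 1)} (h : i ≠ j) (t : F) : vE k i j t * vE k i j t = 0 := by
  funext y
  obtain ⟨k', b⟩ := y
  rw [Pi.mul_apply]
  by_cases hk : k' = k
  · cases b
    · simp [vE, hk, single_mul_single_of_ne _ _ _ _ h.symm]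
    · simp [vE, hk, single_mul_single_of_ne _ _ _ _ h]
  · simp [vE, hk]

theorem vE_J (k : κ) (i j : Fin (m + 1)) (t : F) :
    (exInv p (m + 1) F κ).j (vE k i j t) = -vE k i j t := by
  funext y
  obtain ⟨k', b⟩ := y
  rw [exInv_j]
  by_cases hk : k' = k
  · cases b <;> simp [vE, hk]
  · simp [vE, hk]

theorem genV_vE (k : κ) {i j : Fin (m + 1)} (h : i ≠ j) (t : F) :
    GenV (exInv p (m + 1) F κ) (vE k i j t) := by
  obtain ⟨μ, ν, hμ0, hμ1, hν0, hν1, hμν⟩ := exists_scalars p
  refine genV_of_idem (gE F κ i) (gE_mul i) (gE_sum i) (fun c => (!c.1, c.2)) (fun c => by simp)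
    (gE_J i) (vE_J k i j t)
    (fun c => if c.1 then (if c.2 then μ⁻¹ else ν⁻¹) else (if c.2 then μ else ν)) (μ * ν⁻¹)
    ?_ ?_ ?_ ?_ ?_
  · intro h1
    rw [mul_inv_eq_one₀ hν0] at h1
    exact hμν h1
  · rintro ⟨c1, c2⟩
    cases c1 <;> cases c2 <;> simp [hμ0, hν0]
  · rintro ⟨c1, c2⟩
    cases c1 <;> cases c2 <;> simp [hμ1, hν1]
  · rintro ⟨c1, c2⟩
    cases c1 <;> cases c2 <;> simp
  · rintro ⟨c1, c2⟩ ⟨d1, d2⟩
    have e1 : (single i i (1 : F)) * single i j t = single i j t := by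
      rw [single_mul_single_same, one_mul]
    have e2 : (single j i t) * single i i (1 : F) = single j i t := by
      rw [single_mul_single_same, mul_one]
    have e3 : (single i j t) * single i i (1 : F) = 0 := single_mul_single_of_ne _ _ _ _ h.symm _
    have e4 : (single i i (1 : F)) * single j i t = 0 := single_mul_single_of_ne _ _ _ _ h _
    by_cases hc : c1 = d1 ∧ ((c1 = false ∧ c2 = true ∧ d2 = false) ∨
        (c1 = true ∧ c2 = false ∧ d2 = true))
    · right
      obtain ⟨rfl, ⟨rfl, rfl, rfl⟩ | ⟨rfl, rfl, rfl⟩⟩ := hc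
      · simp [hν0]
      · simp only [if_true, Bool.false_eq_true, if_false]
        rw [mul_comm μ, mul_assoc, mul_inv_cancel₀ hμ0, mul_one]
    · left
      funext y
      obtain ⟨k', b⟩ := y
      rw [Pi.mul_apply, Pi.mul_apply]
      by_cases hk : k' = k
      · cases b <;> cases c1 <;> cases c2 <;> cases d1 <;> cases d2 <;>
          simp [gE, vE, hk, mul_sub, sub_mul, e1, e2, e3, e4] at hc ⊢
      · simp [vE, hk]

/-- The twisted inclusion as a homomorphism to the units. -/
def wU : (κ → SpecialLinearGroup (Fin (m + 1)) F) →* (FM (m + 1) F (κ × Bool))ˣ where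
  toFun x := ⟨wInc x, wInc x⁻¹, by rw [wInc_mul, mul_inv_cancel, wInc_one],
    by rw [wInc_mul, inv_mul_cancel, wInc_one]⟩
  map_one' := Units.ext wInc_one
  map_mul' x y := Units.ext (wInc_mul x y).symm

theorem wU_coe (x : κ → SpecialLinearGroup (Fin (m + 1)) F) : (wU x).1 = wInc x := rfl

theorem wU_single [DecidableEq κ] (k : κ) {i j : Fin (m + 1)} (h : i ≠ j) (t : F) :
    wU (Pi.mulSingle k (SpecialLinearGroup.transvection h t)) = nB (vE_sq k h t) := by
  apply Units.ext
  funext y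
  obtain ⟨k', b⟩ := y
  change (iT b (Pi.mulSingle (M := fun _ => SpecialLinearGroup (Fin (m + 1)) F) k
    (SpecialLinearGroup.transvection h t) k')).1 = 1 + vE k i j t (k', b)
  by_cases hk : k' = k
  · subst hk
    rw [Pi.mulSingle_eq_same]
    cases b
    · change (SpecialLinearGroup.transvection h t).1 = _
      simp [vE, SpecialLinearGroup.transvection_coe]
    · change (((SpecialLinearGroup.transvection h t)⁻¹).1).transpose = _
      rw [SpecialLinearGroup.transvection_inv]
      simp [vE, SpecialLinearGroup.transvection_coe, ← single_neg]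
  · rw [Pi.mulSingle_eq_of_ne hk, map_one]
    simp [vE, hk]

theorem wU_mem (hm : 1 ≤ m) {H : Subgroup (FM (m + 1) F (κ × Bool))ˣ}
    (hH : ∀ (v : FM (m + 1) F (κ × Bool)) (hv : v * v = 0), GenV (exInv p (m + 1) F κ) v →
      nB hv ∈ H) (x : κ → SpecialLinearGroup (Fin (m + 1)) F) : wU x ∈ H := by
  classical
  have : Nontrivial (Fin (m + 1)) := Fin.nontrivial_iff_two_le.mpr (by omega)
  have h1 : x ∈ H.comap wU := by
    refine Subgroup.pi_mem_of_mulSingle_mem x fun k => ?_
    refine transvection_induction (fun A => Pi.mulSingle k A ∈ H.comap wU) ?_ ?_ (x k)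
    · intro i j hij t
      rw [Subgroup.mem_comap, wU_single k hij t]
      exact hH _ _ (genV_vE k hij t)
    · intro A B hA hB
      rw [Pi.mulSingle_mul]
      exact mul_mem hA hB
  exact h1

theorem coe_eq_wU (u : SU (exDD p m F κ)) :
    ((u : (exInv p (m + 1) F κ).U) : (FM (m + 1) F (κ × Bool))ˣ) = wU (slV u) :=
  Units.ext (suVal_eq u)

theorem gen_exDD (hm : 1 ≤ m) (H : Subgroup (FM (m + 1) F (κ × Bool))ˣ)
    (hH : ∀ (v : FM (m + 1) F (κ × Bool)) (hv : v * v = 0), GenV (exInv p (m + 1) F κ) v →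
      nB hv ∈ H) (u : (exInv p (m + 1) F κ).U) (hu : u ∈ SU (exDD p m F κ)) :
    (u : (FM (m + 1) F (κ × Bool))ˣ) ∈ H := by
  have h1 := coe_eq_wU (⟨u, hu⟩ : SU (exDD p m F κ))
  change (u : (FM (m + 1) F (κ × Bool))ˣ) = _ at h1
  rw [h1]
  exact wU_mem hm hH _

end gen

section cw

variable {p n : ℕ} [Fact p.Prime] {F : Type} [Field F] [Finite F] [Algebra (ZMod p) F]
  {Y : Type} [Finite Y] {τ : Y → Y} {s : Y → (F →+* F)} {hτ : ∀ y, τ (τ y) = y}
  {hs : ∀ y x, s y (s (τ y) x) = x}

/-- Weak compatibility of an endomorphism of the ring of families. -/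
theorem cw_ddY (g : FM (n + 1) F Y →+* FM (n + 1) F Y) (π : Y ≃ Y) (σ : Y → (F →+* F))
    (P Q : Y → Matrix (Fin (n + 1)) (Fin (n + 1)) F) (hPQ : ∀ y, P y * Q y = 1)
    (hg : ∀ z y, g z (π y) = P y * (z y).map (σ y) * Q y) :
    ∃ σ' : (Y → F) →+* (Y → F), CW (ddY (p := p) τ s hτ hs) g σ' := by
  refine ⟨{ toFun := fun f y => σ (π.symm y) (f (π.symm y))
            map_one' := funext fun y => map_one _
            map_zero' := funext fun y => map_zero _
            map_add' := fun f g => funext fun y => map_add _ _ _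
            map_mul' := fun f g => funext fun y => map_mul _ _ _ },
    Matrix.of fun i j y => P (π.symm y) i j, Matrix.of fun i j y => Q (π.symm y) i j, ?_, ?_⟩
  · ext i j y
    rw [Matrix.mul_apply, Finset.sum_apply]
    have h1 : (P (π.symm y) * Q (π.symm y)) i j = _ := congrFun (congrFun (hPQ (π.symm y)) i) j
    rw [Matrix.mul_apply] at h1
    refine h1.trans ?_
    rw [Matrix.one_apply, Matrix.one_apply]
    by_cases h : i = j
    · rw [if_pos h, if_pos h]
      rfl
    · rw [if_neg h, if_neg h]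
      rfl
  · intro b
    ext i j y
    have h1 := congrFun (congrFun (hg b (π.symm y)) i) j
    rw [Equiv.apply_symm_apply] at h1
    refine h1.trans ?_
    rw [Matrix.mul_apply, Matrix.mul_apply, Finset.sum_apply]
    refine Finset.sum_congr rfl fun k _ => ?_
    rw [Matrix.mul_apply, Pi.mul_apply, Matrix.mul_apply, Finset.sum_apply]
    rfl

end cw

section inst

variable {p m : ℕ} [Fact p.Prime] {F : Type} [Field F] [Finite F] [Algebra (ZMod p) F]
  {κ : Type} [Finite κ]

theorem cw_of_slForm {R : (κ × Bool → Matrix (Fin (m + 1)) (Fin (m + 1)) F) ≃+*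
      (κ × Bool → Matrix (Fin (m + 1)) (Fin (m + 1)) F)} (h : SlForm R) :
    ∃ σ' : (κ × Bool → F) →+* (κ × Bool → F), CW (exDD p m F κ)
      (R : FM (m + 1) F (κ × Bool) →+* FM (m + 1) F (κ × Bool)) σ' := by
  obtain ⟨π, P, Q, σ, hPQ, h⟩ := h.perm
  exact cw_ddY _ π σ P Q hPQ h

theorem exInv_of_slForm {R : (κ × Bool → Matrix (Fin (m + 1)) (Fin (m + 1)) F) ≃+*
      (κ × Bool → Matrix (Fin (m + 1)) (Fin (m + 1)) F)} (h : SlForm R)
    (z : FM (m + 1) F (κ × Bool)) :
    R ((exInv p (m + 1) F κ).j z) = (exInv p (m + 1) F κ).j (R z) :=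
  h.exch z

variable (p m F κ) in
theorem good_exInv : ∃ c : FM (m + 1) F (κ × Bool), Good (exInv p (m + 1) F κ) c := by
  classical
  set D := exDD p m F κ with hD
  let c₁ : κ × Bool → F := fun y => if y.2 = true then 1 else 0
  have h1 : c₁ * c₁ = c₁ := by
    funext y
    rw [Pi.mul_apply]
    change (if y.2 = true then (1 : F) else 0) * (if y.2 = true then 1 else 0) = _
    split_ifs with h
    · rw [mul_one]
      exact (if_pos h).symm
    · rw [mul_zero]
      exact (if_neg h).symm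
  have h2 : D.s c₁ = 1 - c₁ := by
    funext y
    change (if (!y.2) = true then (1 : F) else 0) = 1 - (if y.2 = true then 1 else 0)
    rcases y with ⟨k, b⟩
    cases b
    · simp
    · simp
  have hc : D.ι c₁ + (exInv p (m + 1) F κ).j (D.ι c₁) = 1 := by
    rw [D.Jι, h2, map_sub, map_one, add_sub_cancel]
  have he : ((1 : AlgebraicClosure (ZMod p)) ⊗ₜ[ZMod p] c₁) * (1 ⊗ₜ c₁) = 1 ⊗ₜ c₁ := by
    rw [Algebra.TensorProduct.tmul_mul_tmul, one_mul, h1]
  have hs : D.sR (AlgebraicClosure (ZMod p)) (1 ⊗ₜ c₁) = 1 - 1 ⊗ₜ c₁ := by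
    rw [DetData.sR, tmap_tmul, map_one, h2, tmul_sub, Algebra.TensorProduct.one_def]
  exact ⟨_, good_of_idemC D hc _ he hs⟩

end inst

end MP7fM
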