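import Pool.Agent.Lib.MP_7f581e_ntM.Cmpl
import Pool.Agent.Lib.MP_7f581e_ntG.SplitSLnB

/-!
Embedding problems with kernel a power of `PSL(n, F)` for which `Aut (PSL(n, F))` splits over
`PSL(n, F)`: reduction to the generic Lang torsor.
-/

set_option autoImplicit false
set_option linter.unusedSectionVars false

universe u

namespace MP7fM

open Matrix MP7fE MP7fR MP7fW MP7fY MP7fG

/-- The condition under which `Aut (PSL(n, q))`, `q = p ^ m`, `N = q - 1`, splits over
`PSL(n, q)`. -/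
def SplitCond (n N m : ℕ) : Prop :=
  Nat.gcd (Nat.gcd (Nat.gcd n N) (N / Nat.gcd n N)) m = 1

/-- **The complement of `PSL(n, F)` in its automorphism group.** -/
theorem exists_cpl {F : Type*} [Field F] [Finite F] {p : ℕ} [Fact p.Prime] [CharP F p] {m : ℕ}
    (hcard : Nat.card F = p ^ m) {n : ℕ} (h3 : 3 ≤ n) (hd : SplitCond n (Nat.card Fˣ) m) :
    ∃ (A : Subgroup (RingAut (Bool → Matrix (Fin n) (Fin n) F))) (_ : A ≤ A1 n F)
      (hex : ∀ (x : A) (h : SpecialLinearGroup (Fin n) F),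
        ∃ h', inc1 n F h' = A.subtype x (inc1 n F h)),
      Cpl (cQ (inc1 n F) inc1_inj A.subtype hex) := by
  have hN : 0 < Nat.card Fˣ := Nat.card_pos
  obtain ⟨n1, n0, rfl, h1, h0, hc, hr, hl, hm, hdc⟩ := exists_split (by omega) hN hd
  have : NeZero n1 := ⟨h1.ne'⟩
  have : NeZero n0 := ⟨h0.ne'⟩
  obtain ⟨ω, hω⟩ : IsCyclic Fˣ := inferInstance
  obtain ⟨k, hk1, hk2⟩ := Nat.chineseRemainder hm.symm 1 0
  have hc0 : n1 ∣ k + m * n1 := by
    have h4 : n1 ∣ k := (Nat.modEq_zero_iff_dvd).mp hk2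
    exact h4.add (Dvd.intro_left m rfl)
  have hmpos : 0 < m := hm_pos hcard n1 hr
  obtain ⟨j, hj⟩ : ∃ j, k + m * n1 = 1 + m * j := by
    have h5 : 1 ≤ k + m * n1 := by
      have := Nat.mul_pos hmpos h1
      omega
    have h6 : 1 ≡ k + m * n1 [MOD m] := by
      have h7 : k + m * n1 ≡ k [MOD m] := by
        unfold Nat.ModEq
        rw [Nat.add_mul_mod_self_left]
      exact (h7.trans hk1).symm
    obtain ⟨j, hj⟩ := (Nat.modEq_iff_dvd' h5).mp h6
    exact ⟨j, by omega⟩
  exact ⟨AX hcard finProdFinEquiv ω hr hc0, AX_le hcard finProdFinEquiv ω hr hc0,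
    hexX hcard finProdFinEquiv ω hr hc0,
    cpl_AX hcard finProdFinEquiv ω hr hc0 hω hl hc hdc hj h3⟩

section solve

variable {F : Type} [Field F] [Finite F] {p : ℕ} [Fact p.Prime] [CharP F p] {m : ℕ}
  (hcard : Nat.card F = p ^ m) {n : ℕ} (h3 : 3 ≤ n) (hd : SplitCond n (Nat.card Fˣ) m)

include hcard h3 hd in
/-- **Embedding problems with kernel a power of `PSL(n, F)`**: reduction to the generic Lang
torsor. -/
theorem exists_psl_of_lang {κ : Type} [Finite κ] {E : Type} [Group E] [Finite E]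
    (N : Subgroup E) [N.Normal] (θ : N ≃* (κ → ProjectiveSpecialLinearGroup (Fin n) F)) :
    ∃ (Q : Type) (_ : Group Q) (_ : Finite Q)
      (ρ : Q →* ((κ × Bool → Matrix (Fin n) (Fin n) F) ≃+*
        (κ × Bool → Matrix (Fin n) (Fin n) F))),
      (∀ q, SlForm (ρ q)) ∧ ∀ {K L : Type u} [Field K] [Field L] [Algebra K L],
        LangSL1 K L ρ → SolvesOver K L (QuotientGroup.mk' N) := by
  obtain ⟨A, hA, hex, hc⟩ := exists_cpl hcard h3 hd
  have := simple_PSLn (F := F) h3
  have hz := center_psl (F := F) h3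
  refine ⟨E0 N θ (cQ (inc1 n F) inc1_inj A.subtype hex), inferInstance, inferInstance,
    (cuA n F κ).comp (rhoW N θ hc A.subtype), ?_, ?_⟩
  · intro q
    refine slForm_cuA ⟨pE N θ _ q, fun k => ⟨(xE N θ _ q k).1, hA (xE N θ _ q k).2⟩, ?_⟩
    intro b k
    exact rhoW_apply N θ hc A.subtype q b k
  · intro K L _ _ _ hL
    obtain ⟨V, _, l, act, hl, hact, hs⟩ := hL
    refine solvesOver_of_class (inc1 n F) inc1_inj A.subtype hex hc hz N θ l hl act ?_ hs
    intro q v
    funext k b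
    exact congrFun (hact q v) (k, b)

include hcard h3 hd in
theorem solvesOver_psl_of_lang {κ : Type} [Finite κ] {E : Type} [Group E] [Finite E]
    (N : Subgroup E) [N.Normal] (θ : N ≃* (κ → ProjectiveSpecialLinearGroup (Fin n) F))
    {K L : Type u} [Field K] [Field L] [Algebra K L]
    (hL : ∀ (Q : Type) [Group Q] [Finite Q], LangSL n F κ K L Q) :
    SolvesOver K L (QuotientGroup.mk' N) := by
  obtain ⟨Q, _, _, ρ, hρ, h⟩ := exists_psl_of_lang hcard h3 hd N θ
  exact h (hL Q ρ hρ)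

end solve

end MP7fM
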