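import Pool.Agent.Lib.MP_7f581e_ntL.Z16
import Pool.Agent.Lib.MP_7f581e_ntM.SLInst
import Pool.Agent.Lib.MP_7f581e_ntM.Solve

/-!
Embedding problems with kernel a power of `SL(n, F)` or of `PSL(n, F)`, `n ≥ 3`.
-/

set_option autoImplicit false
set_option linter.unusedSectionVars false

universe u

namespace MP7fM

open Matrix Matrix.SpecialLinearGroup MP7fZ MP7fV MP7fU MP7fS MP7fG MP7fY MP7fE

section

variable (p : ℕ) [Fact p.Prime] {F : Type} [Field F] [Finite F] [CharP F p]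
  {κ : Type} [Finite κ] {K : Type u} [Field K] [CharP K p]

include p

/-- **Generic Lang torsors for powers of `SL(n, F)`, with all ring automorphisms.** -/
theorem langSL1_all {n : ℕ} (h2 : 2 ≤ n) {Γ : Type} [Group Γ] [Finite Γ]
    (ρ : Γ →* ((κ × Bool → Matrix (Fin n) (Fin n) F) ≃+* (κ × Bool → Matrix (Fin n) (Fin n) F)))
    (h : ∀ g, SlForm (ρ g)) :
    ∃ r : ℕ, LangSL1 K (FractionRing (MvPolynomial (Fin r) K)) ρ := by
  let _ : Algebra (ZMod p) F := ZMod.algebra F p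
  obtain ⟨m, rfl⟩ : ∃ m, n = m + 1 := ⟨n - 1, by omega⟩
  obtain ⟨c, hG⟩ := good_exInv p m F κ
  have hρ : ∀ g b, ρ g ((exInv p (m + 1) F κ).j b) = (exInv p (m + 1) F κ).j (ρ g b) :=
    fun g b => exInv_of_slForm (h g) b
  have hD : ∀ g, ∃ σ : (κ × Bool → F) →+* (κ × Bool → F), CW (exDD p m F κ)
      (ρ g : FM (m + 1) F (κ × Bool) →+* FM (m + 1) F (κ × Bool)) σ :=
    fun g => cw_of_slForm (h g)
  obtain ⟨r, hr⟩ := lang_comm (K := K) (exDD p m F κ) ρ hρ hD hG (gen_exDD (by omega))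
  refine ⟨r, SU (exDD p m F κ), inferInstance, slV, suactW _ ρ hρ hD, slV_surj, ?_, hr⟩
  intro q v
  rw [← suVal_eq, ← suVal_eq]
  rfl

/-- Split embedding problems with kernel a power of `SL(n, F)`, `n ≥ 3`, over rational function
fields. -/
theorem exists_solvesOver_sln {n : ℕ} (h3 : 3 ≤ n) {E Q : Type} [Group E] [Group Q] [Finite Q]
    (f : E →* Q) (s : Q →* E) (hfs : ∀ q, f (s q) = q)
    (θ : f.ker ≃* (κ → SpecialLinearGroup (Fin n) F)) :
    ∃ r : ℕ, SolvesOver K (FractionRing (MvPolynomial (Fin r) K)) f := by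
  obtain ⟨ρ, h1, h2⟩ := exists_sln_of_lang h3 f s hfs θ
  obtain ⟨r, hr⟩ := langSL1_all p (K := K) (by omega) ρ h1
  exact ⟨r, h2 hr⟩

/-- Split embedding problems with kernel a power of `PSL(n, F)`, `n ≥ 3`, over rational function
fields. -/
theorem exists_solvesOver_psln {n : ℕ} (h3 : 3 ≤ n) {E Q : Type} [Group E] [Group Q] [Finite Q]
    (f : E →* Q) (s : Q →* E) (hfs : ∀ q, f (s q) = q)
    (θ : f.ker ≃* (κ → ProjectiveSpecialLinearGroup (Fin n) F)) :
    ∃ r : ℕ, SolvesOver K (FractionRing (MvPolynomial (Fin r) K)) f := by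
  obtain ⟨ρ, h1, h2⟩ := exists_psln_of_lang h3 f s hfs θ
  obtain ⟨r, hr⟩ := langSL1_all p (K := K) (by omega) ρ h1
  exact ⟨r, h2 hr⟩

/-- Embedding problems with kernel a power of `PSL(n, q)`, `n ≥ 3`, `q = p ^ m`, such that
`Aut (PSL(n, q))` splits over `PSL(n, q)`, over rational function fields. -/
theorem exists_solvesOver_psl_kernel {m : ℕ} (hcard : Nat.card F = p ^ m) {n : ℕ} (h3 : 3 ≤ n)
    (hd : SplitCond n (Nat.card Fˣ) m) {E : Type} [Group E] [Finite E]
    (N : Subgroup E) [N.Normal] (θ : N ≃* (κ → ProjectiveSpecialLinearGroup (Fin n) F)) :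
    ∃ r : ℕ, SolvesOver K (FractionRing (MvPolynomial (Fin r) K)) (QuotientGroup.mk' N) := by
  obtain ⟨Q, _, _, ρ, h1, h2⟩ := exists_psl_of_lang hcard h3 hd N θ
  obtain ⟨r, hr⟩ := langSL1_all p (K := K) (by omega) ρ h1
  exact ⟨r, h2 hr⟩

/-- **Split embedding problems with kernel a power of `SL(n, F)`, `n ≥ 3`, over Hilbertian
fields.** -/
theorem solves_of_split_sln {n : ℕ} (h3 : 3 ≤ n) {E Q : Type} [Group E] [Finite E] [Group Q]
    [Finite Q] (f : E →* Q) (s : Q →* E) (hfs : ∀ q, f (s q) = q)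
    (θ : f.ker ≃* (κ → SpecialLinearGroup (Fin n) F)) (hK : MP7fR.IsHilbertian K) :
    Solves K f := by
  obtain ⟨r, hr⟩ := exists_solvesOver_sln p (K := K) h3 f s hfs θ
  exact solves_of_mv hK _ _ hr

/-- **Split embedding problems with kernel a power of `PSL(n, F)`, `n ≥ 3`, over Hilbertian
fields.** -/
theorem solves_of_split_psln {n : ℕ} (h3 : 3 ≤ n) {E Q : Type} [Group E] [Finite E] [Group Q]
    [Finite Q] (f : E →* Q) (s : Q →* E) (hfs : ∀ q, f (s q) = q)
    (θ : f.ker ≃* (κ → ProjectiveSpecialLinearGroup (Fin n) F)) (hK : MP7fR.IsHilbertian K) :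
    Solves K f := by
  obtain ⟨r, hr⟩ := exists_solvesOver_psln p (K := K) h3 f s hfs θ
  exact solves_of_mv hK _ _ hr

/-- **Embedding problems with kernel a power of `PSL(n, q)`, `n ≥ 3`, `q = p ^ m`, such that
`Aut (PSL(n, q))` splits over `PSL(n, q)`, over Hilbertian fields.** -/
theorem solves_of_psl_split_cond {m : ℕ} (hcard : Nat.card F = p ^ m) {n : ℕ} (h3 : 3 ≤ n)
    (hd : SplitCond n (Nat.card Fˣ) m) {E : Type} [Group E] [Finite E]
    (N : Subgroup E) [N.Normal] (θ : N ≃* (κ → ProjectiveSpecialLinearGroup (Fin n) F))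
    (hK : MP7fR.IsHilbertian K) : Solves K (QuotientGroup.mk' N) := by
  obtain ⟨r, hr⟩ := exists_solvesOver_psl_kernel p (K := K) hcard h3 hd N θ
  exact solves_of_mv hK _ _ hr

/-- **Embedding problems with kernel a power of `PSL(n, q)`, `n ≥ 3`, `q = p ^ m`, such that
`gcd (d, (q - 1) / d, m) = 1`, `d = gcd (n, q - 1)`, over Hilbertian fields.** -/
theorem solves_psl_exact {m : ℕ} (hcard : Nat.card F = p ^ m) {n : ℕ} (h3 : 3 ≤ n)
    (hd : Nat.gcd (Nat.gcd (n.gcd (p ^ m - 1)) ((p ^ m - 1) / n.gcd (p ^ m - 1))) m = 1)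
    {E : Type} [Group E] [Finite E]
    (N : Subgroup E) [N.Normal] (θ : N ≃* (κ → ProjectiveSpecialLinearGroup (Fin n) F))
    (hK : MP7fR.IsHilbertian K) : Solves K (QuotientGroup.mk' N) := by
  have h1 : Nat.card Fˣ = p ^ m - 1 := by
    rw [Nat.card_units, hcard]
  refine solves_of_psl_split_cond p hcard h3 ?_ N θ hK
  rw [SplitCond, h1]
  exact hd

end

end MP7fM
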