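import Pool.Agent.Lib.MP_7f581e_ntM.UCmpl
import Pool.Agent.Lib.MP_7f581e_ntM.Solve

/-!
Embedding problems with kernel a power of `PSU(N, F)` for which `Aut (PSU(N, F))` splits over
`PSU(N, F)`: reduction to the generic Lang torsor.
-/

set_option autoImplicit false
set_option linter.unusedSectionVars false

universe u

namespace MP7fM

open Matrix MP7fE MP7fU MP7fR MP7fV MP7fW MP7fY MP7fG

/-- **The complement of `PSU(N, F)` in its automorphism group.** -/
theorem exists_cplU {F : Type*} [Field F] [Finite F] {p : ℕ} [hp : Fact p.Prime] [CharP F p]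
    {m : ℕ} (hm : 0 < m) (hcard : Nat.card F = p ^ (2 * m)) {s : F →+* F}
    (hs : ∀ (σ : F ≃+* F) x, σ (s x) = s (σ x)) (hQ : Nat.card (MU s) = p ^ m + 1) {N : ℕ}
    (hN : 0 < N) (hd : SplitCond N (Nat.card (MU s)) m)
    (hA : AutP s (1 : Matrix (Fin N) (Fin N) F)) (hR : RigP s (1 : Matrix (Fin N) (Fin N) F)) :
    ∃ (A : Subgroup (RingAut (Matrix (Fin N) (Fin N) F))) (_ : A ≤ AW hs)
      (hex : ∀ (x : A) (h : SG s (1 : Matrix (Fin N) (Fin N) F)),
        ∃ h', incW s N h' = A.subtype x (incW s N h)),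
      Cpl (cQ (incW s N) incW_inj A.subtype hex) := by
  have hQ0 : 0 < Nat.card (MU s) := Nat.card_pos
  obtain ⟨n1, n0, rfl, h1, h0, hc, hr, hl, hcm, hdc⟩ := exists_split hN hQ0 hd
  have : NeZero n1 := ⟨h1.ne'⟩
  have : NeZero n0 := ⟨h0.ne'⟩
  obtain ⟨⟨ω, hωM⟩, hω⟩ : IsCyclic (MU s) := inferInstance
  obtain ⟨k, hk0, hkp, hk⟩ := exists_k hp.out.pos hm hQ hr hcm
  have hωQ : ω ^ (Nat.card (MU s)) = 1 := by
    have h2 : (⟨ω, hωM⟩ : MU s) ^ (Nat.card (MU s)) = 1 := pow_card_eq_one'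
    exact congrArg Subtype.val h2
  exact ⟨AXU hcard finProdFinEquiv ω hs hωQ hkp hk0 hk hm,
    AXU_le hcard finProdFinEquiv ω hs hωM hωQ hkp hk0 hk hm,
    hexXU hcard finProdFinEquiv ω hs hωM hωQ hkp hk0 hk hm,
    cpl_AXU hcard finProdFinEquiv ω hs hωM hωQ hkp hk0 hk hm hr hω hl hc hdc hN hA hR⟩

section solve

variable {p m N : ℕ} [Fact p.Prime] {F : Type} [Field F] [CharP F p] [Finite F]

/-- **Embedding problems with kernel a power of `PSU(N, F)`**: reduction to the generic Lang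
torsor. -/
theorem exists_psu_lang (hm : 0 < m) (hcard : Nat.card F = p ^ (2 * m)) (h3 : 3 ≤ N)
    (hq : N = 3 → 2 < p ^ m) (hd : SplitCond N (p ^ m + 1) m)
    [IsSimpleGroup (PSG (sF p m F) (1 : Matrix (Fin N) (Fin N) F))]
    {κ : Type} [Finite κ] {E : Type} [Group E] [Finite E] (N0 : Subgroup E) [N0.Normal]
    (θ : N0 ≃* (κ → PSG (sF p m F) (1 : Matrix (Fin N) (Fin N) F))) :
    ∃ (Q : Type) (_ : Group Q) (_ : Finite Q)
      (ρ : Q →* ((κ → Matrix (Fin N) (Fin N) F) ≃+* (κ → Matrix (Fin N) (Fin N) F))),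
      (∀ q, SuForm (sF p m F) (ρ q)) ∧ ∀ {K L : Type u} [Field K] [Field L] [Algebra K L],
        LangSU1 (sF p m F) K L ρ → SolvesOver K L (QuotientGroup.mk' N0) := by
  have hA := MP7fH.autP_all (N := N) hm hcard h3 hq
  have hR := MP7fH.rigP_one (N := N) (F := F) hm hcard h3
  obtain ⟨a, b, hab⟩ := MP7fH.noncomm_one (N := N) (F := F) hm hcard h3
  have hz := center_eq_bot hab
  have hQ := card_MU (p := p) (m := m) hm hcard
  obtain ⟨A, hAW, hex, hc⟩ := exists_cplU hm hcard (s := sF p m F) sF_comm hQ (N := N) (by omega)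
    (by rw [hQ]; exact hd) hA hR
  refine ⟨E0 N0 θ (cQ (incW (sF p m F) N) incW_inj A.subtype hex), inferInstance, inferInstance,
    rhoW N0 θ hc A.subtype, ?_, ?_⟩
  · intro q
    refine suForm_of sF_comm ⟨pE N0 θ _ q, fun k => ⟨(xE N0 θ _ q k).1, hAW (xE N0 θ _ q k).2⟩, ?_⟩
    intro b k
    exact rhoW_apply N0 θ hc A.subtype q b k
  · intro K L _ _ _ hL
    obtain ⟨V, _, l, act, hl, hact, hs'⟩ := hL
    exact solvesOver_of_class (incW (sF p m F) N) incW_inj A.subtype hex hc hz N0 θ l hl act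
      hact hs'

end solve

end MP7fM
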