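import Pool.Agent.Lib.MP_7f581e_ntG.Mu

/-!
Arithmetic for the complement: decompositions in finite cyclic groups.
-/

set_option autoImplicit false
set_option linter.unusedSectionVars false

namespace MP7fM

open MP7fG

/-- The part of a number composed of the primes which divide `g`. -/
theorem split_part (g n : ℕ) (hn : 0 < n) : ∃ n1 n0, n = n1 * n0 ∧ 0 < n1 ∧ 0 < n0 ∧
    n0.Coprime g ∧ ∀ l, l.Prime → l ∣ n1 → l ∣ g := by
  induction n using Nat.strong_induction_on with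
  | _ n ih =>
    by_cases h : n.Coprime g
    · refine ⟨1, n, (one_mul n).symm, one_pos, hn, h, ?_⟩
      intro l hl hl1
      exact absurd (Nat.dvd_one.mp hl1) hl.one_lt.ne'
    · obtain ⟨l, hl, hln, hlg⟩ := Nat.Prime.not_coprime_iff_dvd.mp h
      obtain ⟨k, rfl⟩ := hln
      have hk : 0 < k := Nat.pos_of_mul_pos_left hn
      have hlt : k < l * k := by
        have := hl.two_le
        nlinarith
      obtain ⟨k1, k0, rfl, h1, h2, h3, h4⟩ := ih k hlt hk
      refine ⟨l * k1, k0, (mul_assoc _ _ _).symm, Nat.mul_pos hl.pos h1, h2, h3, ?_⟩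
      intro l' hl' hd
      rcases (Nat.Prime.dvd_mul hl').mp hd with hd | hd
      · rw [(Nat.prime_dvd_prime_iff_eq hl' hl).mp hd]
        exact hlg
      · exact h4 l' hl' hd

theorem exists_split {n N m : ℕ} (hn : 0 < n) (hN : 0 < N)
    (h : Nat.gcd (Nat.gcd (Nat.gcd n N) (N / Nat.gcd n N)) m = 1) :
    ∃ n1 n0, n = n1 * n0 ∧ 0 < n1 ∧ 0 < n0 ∧ n1.Coprime n0 ∧ n1 ∣ N ∧
      (∀ l, l.Prime → l ∣ n1 → l ∣ N / n1) ∧ n1.Coprime m ∧ DiagCond n0 N := by
  set d := Nat.gcd n N with hd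
  set g := Nat.gcd d (N / d) with hg
  obtain ⟨n1, n0, hnn, hn1, hn0, h0g, h1g⟩ := split_part g n hn
  have hdN : d ∣ N := Nat.gcd_dvd_right n N
  have hd0 : 0 < d := Nat.pos_of_dvd_of_pos hdN hN
  have hNd : d * (N / d) = N := Nat.mul_div_cancel' hdN
  have hfd : ∀ l, d.factorization l = min (n.factorization l) (N.factorization l) := by
    intro l
    rw [hd, Nat.factorization_gcd hn.ne' hN.ne']
    rfl
  have hfN : ∀ l, N.factorization l = d.factorization l + (N / d).factorization l := by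
    intro l
    conv_lhs => rw [← hNd]
    rw [Nat.factorization_mul hd0.ne' (by
      intro h0
      rw [h0, mul_zero] at hNd
      omega)]
    rfl
  have hfn : ∀ l, n.factorization l = n1.factorization l + n0.factorization l := by
    intro l
    rw [hnn, Nat.factorization_mul hn1.ne' hn0.ne']
    rfl
  have hNd0 : N / d ≠ 0 := by
    intro h0
    rw [h0, mul_zero] at hNd
    omega
  have hlt : ∀ l, l.Prime → l ∣ n1 → n1.factorization l < N.factorization l := by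
    intro l hl hl1
    have hlg := h1g l hl hl1
    have h2 : 1 ≤ (N / d).factorization l := (hl.dvd_iff_one_le_factorization hNd0).mp
      (hlg.trans (Nat.gcd_dvd_right _ _))
    have h3 := hfd l
    have h4 := hfN l
    have h5 := hfn l
    omega
  have hle : ∀ l, n1.factorization l ≤ N.factorization l := by
    intro l
    by_cases hl : l.Prime
    · by_cases hl1 : l ∣ n1
      · exact (hlt l hl hl1).le
      · rw [Nat.factorization_eq_zero_of_not_dvd hl1]
        exact Nat.zero_le _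
    · rw [Nat.factorization_eq_zero_of_not_prime _ hl]
      exact Nat.zero_le _
  have hn1N : n1 ∣ N := (Nat.factorization_le_iff_dvd hn1.ne' hN.ne').mp hle
  have hcop : n1.Coprime n0 := by
    by_contra hcon
    obtain ⟨l, hl, hl1, hl0⟩ := Nat.Prime.not_coprime_iff_dvd.mp hcon
    have := Nat.dvd_gcd hl0 (h1g l hl hl1)
    rw [h0g] at this
    exact hl.one_lt.ne' (Nat.dvd_one.mp this)
  refine ⟨n1, n0, hnn, hn1, hn0, hcop, hn1N, ?_, ?_, ?_⟩
  · intro l hl hl1
    have h2 : N / n1 ≠ 0 := by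
      have h3 : n1 * (N / n1) = N := Nat.mul_div_cancel' hn1N
      intro h0
      rw [h0, mul_zero] at h3
      omega
    rw [hl.dvd_iff_one_le_factorization h2, Nat.factorization_div hn1N]
    have h3 := hlt l hl hl1
    change 1 ≤ N.factorization l - n1.factorization l
    omega
  · by_contra hcon
    obtain ⟨l, hl, hl1, hlm⟩ := Nat.Prime.not_coprime_iff_dvd.mp hcon
    have := Nat.dvd_gcd (h1g l hl hl1) hlm
    rw [h] at this
    exact hl.one_lt.ne' (Nat.dvd_one.mp this)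
  · by_contra hcon
    obtain ⟨l, hl, hl1, hl2⟩ := Nat.Prime.not_coprime_iff_dvd.mp hcon
    have hl0 : l ∣ n0 := hl1.trans (Nat.gcd_dvd_left _ _)
    have hlN : l ∣ N := hl1.trans (Nat.gcd_dvd_right _ _)
    have hln : l ∣ n := hl0.trans ⟨n1, by rw [hnn, mul_comm]⟩
    have hld : l ∣ d := Nat.dvd_gcd hln hlN
    have hlg : ¬ l ∣ g := by
      intro h3
      have := Nat.dvd_gcd hl0 h3
      rw [h0g] at this
      exact hl.one_lt.ne' (Nat.dvd_one.mp this)
    have h4 : ¬ l ∣ N / d := fun h5 => hlg (Nat.dvd_gcd hld h5)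
    have h5 : (N / d).factorization l = 0 := Nat.factorization_eq_zero_of_not_dvd h4
    have h6 : ¬ l ∣ n1 := by
      intro h7
      have := Nat.dvd_gcd h7 hl0
      rw [hcop] at this
      exact hl.one_lt.ne' (Nat.dvd_one.mp this)
    have h7 : n1.factorization l = 0 := Nat.factorization_eq_zero_of_not_dvd h6
    have h8 : (Nat.gcd n0 N).factorization l = min (n0.factorization l) (N.factorization l) := by
      rw [Nat.factorization_gcd hn0.ne' hN.ne']
      rfl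
    have h9 : N / Nat.gcd n0 N ≠ 0 := by
      have h10 : Nat.gcd n0 N * (N / Nat.gcd n0 N) = N :=
        Nat.mul_div_cancel' (Nat.gcd_dvd_right n0 N)
      intro h0
      rw [h0, mul_zero] at h10
      omega
    have h10 : 1 ≤ (N / Nat.gcd n0 N).factorization l :=
      (hl.dvd_iff_one_le_factorization h9).mp hl2
    rw [Nat.factorization_div (Nat.gcd_dvd_right n0 N)] at h10
    have h11 : 1 ≤ N.factorization l - (Nat.gcd n0 N).factorization l := h10
    have h12 := hfd l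
    have h13 := hfN l
    have h14 := hfn l
    omega

section cyclic

variable {G : Type*} [CommGroup G] [Finite G] {ω δ : G}
  (hω : ∀ x : G, x ∈ Subgroup.zpowers ω) {n1 n0 : ℕ}
  (h1 : ∀ l, l.Prime → l ∣ n1 → l ∣ Nat.card G / n1) (h2 : n1 ∣ Nat.card G)
  (hc : n1.Coprime n0) (hd : DiagCond n0 (Nat.card G)) (hδ : δ ^ n1 = ω ^ n1)

include hω in
theorem orderOf_gen : orderOf ω = Nat.card G := orderOf_eq_card_of_forall_mem_zpowers hω

include hω h2 in
theorem log_dvd {j : ℤ} {y : G} (h : ω ^ j = y ^ n1) : (n1 : ℤ) ∣ j := by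
  obtain ⟨t, rfl⟩ := hω y
  have h3 : ω ^ (j - t * n1) = 1 := by
    rw [_root_.zpow_sub, h, zpow_mul, zpow_natCast]
    exact mul_inv_cancel _
  rw [← orderOf_dvd_iff_zpow_eq_one, orderOf_gen hω] at h3
  have h4 : (n1 : ℤ) ∣ j - t * n1 := (Int.natCast_dvd_natCast.mpr h2).trans h3
  have h5 : (n1 : ℤ) ∣ t * n1 := Dvd.intro_left t rfl
  have := dvd_add h4 h5
  rwa [sub_add_cancel] at this

include hω h1 h2 hδ in
theorem exists_s : ∃ s : ℤ, δ = ω ^ s ∧ IsCoprime s (n1 : ℤ) := by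
  obtain ⟨s, hs⟩ := hω δ
  have hs' : ω ^ s = δ := hs
  refine ⟨s, hs'.symm, ?_⟩
  have hN : 0 < Nat.card G := Nat.card_pos
  have h3 : ω ^ ((s - 1) * n1) = 1 := by
    rw [sub_mul, one_mul, _root_.zpow_sub, _root_.zpow_mul, hs', zpow_natCast, hδ, zpow_natCast]
    exact mul_inv_cancel _
  rw [← orderOf_dvd_iff_zpow_eq_one, orderOf_gen hω] at h3
  have hn1 : 0 < n1 := Nat.pos_of_dvd_of_pos h2 hN
  have h4 : ((Nat.card G / n1 : ℕ) : ℤ) ∣ s - 1 := by
    obtain ⟨e, he⟩ := h2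
    rw [he, Nat.mul_div_cancel_left e hn1]
    rw [he, Nat.cast_mul, mul_comm (n1 : ℤ)] at h3
    exact Int.dvd_of_mul_dvd_mul_right (by exact_mod_cast hn1.ne') h3
  rw [Int.isCoprime_iff_gcd_eq_one]
  by_contra hcon
  obtain ⟨l, hl, hl1⟩ := Nat.exists_prime_and_dvd hcon
  have h5 : (l : ℤ) ∣ s := Int.natCast_dvd.mpr (hl1.trans (Nat.gcd_dvd_left _ _))
  have h6 : l ∣ n1 := by
    have := hl1.trans (Nat.gcd_dvd_right _ _)
    simpa using this
  have h7 : (l : ℤ) ∣ s - 1 := (Int.natCast_dvd_natCast.mpr (h1 l hl h6)).trans h4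
  have h8 : (l : ℤ) ∣ 1 := by
    have := dvd_sub h5 h7
    rwa [sub_sub_cancel] at this
  have h9 : l ∣ 1 := by exact_mod_cast h8
  exact hl.one_lt.ne' (Nat.dvd_one.mp h9)

include hω h1 h2 hc hd hδ in
theorem arith_unique {a : ℤ} {ζ c : G} (hζ : ζ ^ (Nat.gcd n0 (Nat.card G)) = 1)
    (h : (δ ^ n0) ^ a * ζ ^ n1 = c ^ (n1 * n0)) : (n1 : ℤ) ∣ a ∧ ζ = 1 := by
  obtain ⟨s, hs, hs1⟩ := exists_s hω h1 h2 hδ
  have hN : 0 < Nat.card G := Nat.card_pos
  have ha : (n1 : ℤ) ∣ a := by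
    have h3 : ω ^ (s * n0 * a) = (c ^ n0 * ζ⁻¹) ^ n1 := by
      rw [mul_pow, inv_pow, eq_mul_inv_iff_mul_eq, ← pow_mul, mul_comm n0, ← h, hs,
        _root_.zpow_mul, _root_.zpow_mul, zpow_natCast]
    have h4 := log_dvd hω h2 h3
    have h5 : IsCoprime (n1 : ℤ) (s * n0) :=
      (hs1.symm).mul_right (Nat.isCoprime_iff_coprime.mpr hc)
    exact h5.dvd_of_dvd_mul_left h4
  refine ⟨ha, ?_⟩
  obtain ⟨a', rfl⟩ := ha
  set c' := c * ω ^ (-a') with hc'
  have h3 : ζ ^ n1 = c' ^ (n1 * n0) := by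
    have h4 : (δ ^ n0) ^ ((n1 : ℤ) * a') = (ω ^ a') ^ (n1 * n0) := by
      rw [_root_.zpow_mul, zpow_natCast, ← pow_mul, mul_comm n0 n1, pow_mul, hδ, ← pow_mul,
        ← zpow_natCast ω, ← zpow_natCast (ω ^ a'), ← _root_.zpow_mul, ← _root_.zpow_mul,
        mul_comm]
    rw [h4] at h
    rw [hc', mul_pow, ← h, _root_.zpow_neg, inv_pow]
    rw [mul_comm, ← mul_assoc, inv_mul_cancel, one_mul]
  set d0 := Nat.gcd n0 (Nat.card G) with hd0
  obtain ⟨e0, he0⟩ : d0 ∣ n0 := Nat.gcd_dvd_left _ _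
  obtain ⟨t, ht⟩ := hω (ζ * (c' ^ n0)⁻¹)
  have ht' : ω ^ t = ζ * (c' ^ n0)⁻¹ := ht
  have h4 : ω ^ (t * n1) = 1 := by
    rw [_root_.zpow_mul, ht', zpow_natCast, mul_pow, inv_pow, ← pow_mul, mul_comm n0, h3,
      mul_inv_cancel]
  rw [← orderOf_dvd_iff_zpow_eq_one, orderOf_gen hω] at h4
  have hn1 : 0 < n1 := Nat.pos_of_dvd_of_pos h2 hN
  have h5 : (d0 : ℤ) ∣ t := by
    have hcd : d0.Coprime n1 := (hc.symm).coprime_dvd_left (Nat.gcd_dvd_left _ _)
    have h6 : d0 ∣ Nat.card G / n1 := by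
      have h7 : d0 ∣ n1 * (Nat.card G / n1) := by
        rw [Nat.mul_div_cancel' h2]
        exact Nat.gcd_dvd_right _ _
      exact hcd.dvd_of_dvd_mul_left h7
    have h7 : ((Nat.card G / n1 : ℕ) : ℤ) ∣ t := by
      have h8 : ((Nat.card G / n1 : ℕ) : ℤ) * n1 = Nat.card G := by
        exact_mod_cast Nat.div_mul_cancel h2
      rw [← h8] at h4
      exact Int.dvd_of_mul_dvd_mul_right (by exact_mod_cast hn1.ne') h4
    exact (Int.natCast_dvd_natCast.mpr h6).trans h7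
  obtain ⟨t', rfl⟩ := h5
  have hd' : DiagCond d0 (Nat.card G) := by
    have h8 : Nat.gcd d0 (Nat.card G) = d0 := Nat.gcd_eq_left (Nat.gcd_dvd_right _ _)
    unfold DiagCond
    rw [h8]
    exact hd
  have h8 : Nat.gcd d0 (Nat.card G) = d0 := Nat.gcd_eq_left (Nat.gcd_dvd_right _ _)
  refine mu_disj hd' (a := ζ) (b := ω ^ t' * c' ^ e0) (by rw [h8]; exact hζ) ?_
  rw [mul_pow, ← pow_mul, mul_comm e0, ← he0, ← zpow_natCast (ω ^ t'), ← _root_.zpow_mul,
    mul_comm t', ht', inv_mul_cancel_right]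

include hω h1 h2 hc hd hδ in
theorem arith_exists (y : G) : ∃ (a : ℤ) (ζ b : G), ζ ^ (Nat.gcd n0 (Nat.card G)) = 1 ∧
    y = (δ ^ n0) ^ a * ζ ^ n1 * b ^ (n1 * n0) := by
  obtain ⟨s, hs, hs1⟩ := exists_s hω h1 h2 hδ
  obtain ⟨j, rfl⟩ := hω y
  have h5 : IsCoprime (s * n0) (n1 : ℤ) :=
    hs1.mul_left (Nat.isCoprime_iff_coprime.mpr hc.symm)
  obtain ⟨u, v, huv⟩ := h5
  obtain ⟨ζ, b, hζ, hb⟩ := mu_dec hd (ω ^ (v * j))
  refine ⟨u * j, ζ, b, hζ, ?_⟩
  have h6 : ζ ^ n1 * b ^ (n1 * n0) = (ω ^ (v * j)) ^ n1 := by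
    rw [hb, mul_pow, mul_comm n1 n0, pow_mul]
  rw [mul_assoc, h6, hs, ← zpow_natCast (ω ^ s), ← zpow_natCast (ω ^ (v * j)),
    ← _root_.zpow_mul, ← _root_.zpow_mul, ← _root_.zpow_mul, ← _root_.zpow_add]
  congr 1
  calc j = (u * (s * n0) + v * n1) * j := by rw [huv, one_mul]
    _ = _ := by ring

end cyclic

end MP7fM
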