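import Mathlib

/-!
Powers of the Frobenius automorphism of a finite field, and a subgroup generated by commuting
elements which normalize an abelian subgroup.
-/

set_option autoImplicit false
set_option linter.unusedSectionVars false

namespace MP7fM

section frob

variable (F : Type*) [Field F] [Finite F] (p : ℕ) [Fact p.Prime] [CharP F p]

/-- The Frobenius automorphism. -/
noncomputable def fr : RingAut F := frobeniusEquiv F p

variable {F p}

theorem fr_pow (k : ℕ) (x : F) : (fr F p ^ k) x = x ^ (p ^ k) := by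
  induction k with
  | zero => rw [pow_zero, pow_zero, pow_one]; rfl
  | succ k ih =>
    rw [pow_succ', RingAut.mul_apply, ih]
    change frobeniusEquiv F p _ = _
    rw [frobeniusEquiv_apply, frobenius_def, ← pow_mul, pow_succ]

variable {m : ℕ} (hcard : Nat.card F = p ^ m)

include hcard in
theorem fr_pow_m : fr F p ^ m = 1 := by
  ext x
  rw [fr_pow, ← hcard]
  have := Fintype.ofFinite F
  rw [Nat.card_eq_fintype_card, FiniteField.pow_card]
  rfl

include hcard in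
theorem fr_dvd {k : ℕ} (h : fr F p ^ k = 1) : m ∣ k := by
  let _ : Algebra (ZMod p) F := ZMod.algebra F p
  have h1 := FiniteField.orderOf_frobeniusAlgEquivOfAlgebraic (ZMod p) F
  have h2 : Module.finrank (ZMod p) F = m := by
    have h3 := Module.natCard_eq_pow_finrank (K := ZMod p) (V := F)
    rw [hcard, Nat.card_zmod] at h3
    exact (Nat.pow_right_injective (Fact.out : p.Prime).two_le h3).symm
  rw [h2] at h1
  rw [← h1, orderOf_dvd_iff_pow_eq_one]
  ext x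
  rw [AlgEquiv.coe_pow, FiniteField.coe_frobeniusAlgEquivOfAlgebraic_iterate, ZMod.card]
  have h3 := congrArg (fun τ : RingAut F => τ x) h
  simp only [fr_pow] at h3
  exact h3

theorem exists_fr (τ : F ≃+* F) : ∃ k : ℕ, τ = (fr F p ^ k : RingAut F) := by
  let _ : Algebra (ZMod p) F := ZMod.algebra F p
  let τ' : F ≃ₐ[ZMod p] F := AlgEquiv.ofRingEquiv (f := τ) (fun x => by
    have h1 : (τ : F →+* F).comp (algebraMap (ZMod p) F) = algebraMap (ZMod p) F :=
      RingHom.ext_zmod _ _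
    exact congrArg (fun g : ZMod p →+* F => g x) h1)
  obtain ⟨k, hk⟩ := (FiniteField.bijective_frobeniusAlgEquivOfAlgebraic_pow (ZMod p) F).2 τ'
  refine ⟨k.1, ?_⟩
  ext x
  rw [fr_pow]
  have h1 : τ x = τ' x := rfl
  rw [h1, ← hk]
  change (FiniteField.frobeniusAlgEquivOfAlgebraic (ZMod p) F ^ k.1) x = _
  rw [AlgEquiv.coe_pow, FiniteField.coe_frobeniusAlgEquivOfAlgebraic_iterate, ZMod.card]

end frob

section num

/-- Powers of `q`. -/
theorem pow_q {q N r : ℕ} (hq : q = N + 1) (hr : r ∣ N) (k : ℕ) :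
    ∃ w, q ^ k = 1 + N * (k + r * w) := by
  obtain ⟨N', rfl⟩ := hr
  induction k with
  | zero => exact ⟨0, by simp⟩
  | succ k ih =>
    obtain ⟨w, hw⟩ := ih
    refine ⟨w + N' * (k + r * w), ?_⟩
    rw [pow_succ, hw, hq]
    ring

theorem pow_q' {q N r k : ℕ} (hq : q = N + 1) (hr : r ∣ N) (hk : r ∣ k) :
    ∃ w, q ^ k = 1 + r * (N * w) := by
  obtain ⟨k', rfl⟩ := hk
  obtain ⟨w, hw⟩ := pow_q hq hr (r * k')
  refine ⟨k' + w, ?_⟩
  rw [hw]
  ring

end num

section group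

variable {G : Type*} [Group G] {D : Subgroup G} {u v : G} {m m' : ℕ}

theorem norm_pow (hu' : ∀ d ∈ D, ∃ d' ∈ D, u * d = d' * u) (k : ℕ) :
    ∀ d ∈ D, ∃ d' ∈ D, u ^ k * d = d' * u ^ k := by
  induction k with
  | zero => exact fun d hd => ⟨d, hd, by rw [pow_zero, one_mul, mul_one]⟩
  | succ k ih =>
    intro d hd
    obtain ⟨d1, hd1, h1⟩ := ih d hd
    obtain ⟨d2, hd2, h2⟩ := hu' d1 hd1
    refine ⟨d2, hd2, ?_⟩
    rw [pow_succ', mul_assoc, h1, ← mul_assoc, h2, mul_assoc]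

/-- The subgroup generated by `D`, `u`, `v`. -/
def wrS (hu : u ^ m = 1) (hv : v ^ m' = 1) (hm : 0 < m) (hm' : 0 < m') (huv : u * v = v * u)
    (hu' : ∀ d ∈ D, ∃ d' ∈ D, u * d = d' * u) (hv' : ∀ d ∈ D, ∃ d' ∈ D, v * d = d' * v) :
    Subgroup G where
  carrier := {x | ∃ d ∈ D, ∃ k l : ℕ, x = d * u ^ k * v ^ l}
  one_mem' := ⟨1, one_mem _, 0, 0, by rw [pow_zero, pow_zero, mul_one, mul_one]⟩
  mul_mem' := by
    rintro _ _ ⟨d, hd, k, l, rfl⟩ ⟨d', hd', k', l', rfl⟩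
    obtain ⟨d1, hd1, h1⟩ := norm_pow hv' l d' hd'
    obtain ⟨d2, hd2, h2⟩ := norm_pow hu' k d1 hd1
    refine ⟨d * d2, mul_mem hd hd2, k + k', l + l', ?_⟩
    have huv' : u ^ k' * v ^ l = v ^ l * u ^ k' := (Commute.pow_pow huv k' l).eq
    calc d * u ^ k * v ^ l * (d' * u ^ k' * v ^ l') =
          d * u ^ k * (v ^ l * d') * u ^ k' * v ^ l' := by group
      _ = d * (u ^ k * d1) * (v ^ l * u ^ k') * v ^ l' := by rw [h1]; group
      _ = d * d2 * u ^ k * (u ^ k' * v ^ l) * v ^ l' := by rw [h2, huv']; group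
      _ = d * d2 * (u ^ k * u ^ k') * (v ^ l * v ^ l') := by group
      _ = _ := by rw [← pow_add, ← pow_add]
  inv_mem' := by
    rintro _ ⟨d, hd, k, l, rfl⟩
    obtain ⟨d1, hd1, h1⟩ := norm_pow hu' ((m - 1) * k) d⁻¹ (inv_mem hd)
    obtain ⟨d2, hd2, h2⟩ := norm_pow hv' ((m' - 1) * l) d1 hd1
    refine ⟨d2, hd2, (m - 1) * k, (m' - 1) * l, ?_⟩
    have e1 : (u ^ k)⁻¹ = u ^ ((m - 1) * k) := by
      rw [inv_eq_iff_mul_eq_one, ← pow_add]
      have h3 : k + (m - 1) * k = m * k := by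
        obtain ⟨a, rfl⟩ : ∃ a, m = a + 1 := ⟨m - 1, by omega⟩
        rw [Nat.add_sub_cancel]
        ring
      rw [h3, pow_mul, hu, one_pow]
    have e2 : (v ^ l)⁻¹ = v ^ ((m' - 1) * l) := by
      rw [inv_eq_iff_mul_eq_one, ← pow_add]
      have h3 : l + (m' - 1) * l = m' * l := by
        obtain ⟨a, rfl⟩ : ∃ a, m' = a + 1 := ⟨m' - 1, by omega⟩
        rw [Nat.add_sub_cancel]
        ring
      rw [h3, pow_mul, hv, one_pow]
    have huv' : u ^ ((m - 1) * k) * v ^ ((m' - 1) * l) = v ^ ((m' - 1) * l) * u ^ ((m - 1) * k) :=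
      (Commute.pow_pow huv _ _).eq
    calc (d * u ^ k * v ^ l)⁻¹ = (v ^ l)⁻¹ * ((u ^ k)⁻¹ * d⁻¹) := by group
      _ = v ^ ((m' - 1) * l) * (u ^ ((m - 1) * k) * d⁻¹) := by rw [e1, e2]
      _ = (v ^ ((m' - 1) * l) * d1) * u ^ ((m - 1) * k) := by rw [h1, mul_assoc]
      _ = d2 * (v ^ ((m' - 1) * l) * u ^ ((m - 1) * k)) := by rw [h2, mul_assoc]
      _ = _ := by rw [← huv', mul_assoc]

end group

end MP7fM
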