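import Mathlib

/-!
Monomial matrices: the ring `F[X] / (X ^ r - ω)`, multiplication by `X`, the semilinear maps
`X ↦ X ^ Q`, and the symmetric form: coefficient of `1` in the product.
-/

set_option autoImplicit false
set_option linter.unusedSectionVars false

namespace MP7fM

open Matrix

variable {F : Type*} [Field F] (r : ℕ) [NeZero r] (ω : F)

/-- The index. -/
def ix (i : ℕ) : Fin r := ⟨i % r, Nat.mod_lt i (NeZero.pos r)⟩

/-- The element `X ^ i`. -/
def mon (i : ℕ) : Fin r → F := Pi.single (ix r i) (ω ^ (i / r))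

variable {r}

theorem ix_coe (i : Fin r) : ix r i.1 = i := Fin.ext (Nat.mod_eq_of_lt i.2)

theorem ix_add_mul (i t : ℕ) : ix r (i + r * t) = ix r i :=
  Fin.ext (Nat.add_mul_mod_self_left i r t)

variable {ω}

theorem mon_coe (i : Fin r) : mon r ω i.1 = Pi.single i 1 := by
  unfold mon
  rw [ix_coe, Nat.div_eq_of_lt i.2, pow_zero]

theorem mon_add_mul (i t : ℕ) : mon r ω (i + r * t) = ω ^ t • mon r ω i := by
  unfold mon
  rw [ix_add_mul, Nat.add_mul_div_left i t (NeZero.pos r), ← Pi.single_smul, smul_eq_mul,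
    add_comm, pow_add]

theorem mon_eq (i : ℕ) : mon r ω i = ω ^ (i / r) • (Pi.single (ix r i) (1 : F) : Fin r → F) := by
  unfold mon
  rw [← Pi.single_smul, smul_eq_mul, mul_one]

/-- The matrix with given columns. -/
def colM (f : Fin r → Fin r → F) : Matrix (Fin r) (Fin r) F := fun a i => f i a

theorem colM_mulVec_single (f : Fin r → Fin r → F) (i : Fin r) :
    colM f *ᵥ Pi.single i 1 = f i := by
  rw [mulVec_single_one]
  rfl

variable (r ω) in
/-- The matrix of `X ^ i ↦ X ^ (Q * i)`. -/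
def powM (Q : ℕ) : Matrix (Fin r) (Fin r) F := colM fun i => mon r ω (Q * i.1)

variable (r ω) in
/-- Multiplication by `X`. -/
def mulX : Matrix (Fin r) (Fin r) F := colM fun i => mon r ω (i.1 + 1)

theorem mulX_mon (i : ℕ) : mulX r ω *ᵥ mon r ω i = mon r ω (i + 1) := by
  rw [mon_eq, mulVec_smul, mulX, colM_mulVec_single, ← mon_add_mul]
  congr 1
  change i % r + 1 + r * (i / r) = i + 1
  have := Nat.mod_add_div i r
  omega

theorem mulX_pow_mon (t i : ℕ) : mulX r ω ^ t *ᵥ mon r ω i = mon r ω (i + t) := by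
  induction t with
  | zero => rw [pow_zero, one_mulVec, add_zero]
  | succ t ih => rw [pow_succ', ← mulVec_mulVec, ih, mulX_mon, add_assoc]

theorem map_mon {σ : F →+* F} (i : ℕ) :
    σ ∘ mon r ω i = σ (ω ^ (i / r)) • (Pi.single (ix r i) (1 : F) : Fin r → F) := by
  funext a
  rw [Function.comp_apply, mon_eq, Pi.smul_apply, Pi.smul_apply, smul_eq_mul, smul_eq_mul,
    map_mul, Pi.single_apply]
  split_ifs
  · rw [map_one]
  · rw [map_zero]

theorem powM_mon {σ : F →+* F} {Q : ℕ} (hσ : σ ω = ω ^ Q) (i : ℕ) :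
    powM r ω Q *ᵥ (σ ∘ mon r ω i) = mon r ω (Q * i) := by
  rw [map_mon, mulVec_smul, powM, colM_mulVec_single, map_pow, hσ, ← pow_mul, ← mon_add_mul]
  congr 1
  change Q * (i % r) + r * (Q * (i / r)) = Q * i
  conv_rhs => rw [← Nat.mod_add_div i r]
  ring

theorem map_mulVecR (σ : F →+* F) (M : Matrix (Fin r) (Fin r) F) (x : Fin r → F) :
    M.map σ *ᵥ (σ ∘ x) = σ ∘ (M *ᵥ x) := by
  funext i
  rw [Function.comp_apply, Matrix.mulVec, Matrix.mulVec, dotProduct, dotProduct, map_sum]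
  exact Finset.sum_congr rfl fun j _ => (map_mul σ _ _).symm

theorem comp_single (σ : F →+* F) (i : Fin r) :
    σ ∘ (Pi.single i (1 : F) : Fin r → F) = Pi.single i 1 := by
  funext b
  rw [Function.comp_apply, Pi.single_apply]
  split_ifs
  · exact map_one σ
  · exact map_zero σ

/-- Composition of the semilinear maps. -/
theorem powM_mul {σ : F →+* F} {Q : ℕ} (hσ : σ ω = ω ^ Q) (Q' : ℕ) :
    powM r ω Q * (powM r ω Q').map σ = powM r ω (Q * Q') := by
  apply Matrix.ext_of_mulVec_single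
  intro i
  rw [← mulVec_mulVec, ← comp_single σ i, map_mulVecR, ← mon_coe (ω := ω) i]
  have h1 : powM r ω Q' *ᵥ mon r ω i.1 = mon r ω (Q' * i.1) := by
    rw [mon_coe, powM, colM_mulVec_single]
  have h2 : powM r ω (Q * Q') *ᵥ (σ ∘ mon r ω i.1) = mon r ω (Q * Q' * i.1) := by
    rw [mon_coe, comp_single, powM, colM_mulVec_single]
  rw [h1, h2, powM_mon hσ, mul_assoc]

/-- Commutation with multiplication by `X`. -/
theorem powM_mulX {σ : F →+* F} {Q : ℕ} (hσ : σ ω = ω ^ Q) :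
    powM r ω Q * (mulX r ω).map σ = mulX r ω ^ Q * powM r ω Q := by
  apply Matrix.ext_of_mulVec_single
  intro i
  rw [← mulVec_mulVec, ← mulVec_mulVec, ← comp_single σ i, map_mulVecR, ← mon_coe (ω := ω) i,
    mulX_mon, powM_mon hσ, powM_mon hσ, mulX_pow_mon]
  congr 1

theorem powM_eq_one {Q t : ℕ} (hQ : Q = 1 + r * t) (ht : ω ^ t = 1) : powM r ω Q = 1 := by
  apply Matrix.ext_of_mulVec_single
  intro i
  rw [powM, colM_mulVec_single, one_mulVec, ← mon_coe (ω := ω), hQ]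
  have h1 : (1 + r * t) * i.1 = i.1 + r * (t * i.1) := by ring
  rw [h1, mon_add_mul, pow_mul, ht, one_pow, one_smul]

theorem mulX_pow_r : mulX r ω ^ r = ω • (1 : Matrix (Fin r) (Fin r) F) := by
  apply Matrix.ext_of_mulVec_single
  intro i
  rw [← mon_coe (ω := ω) i, mulX_pow_mon, smul_mulVec, one_mulVec]
  have h1 := mon_add_mul (r := r) (ω := ω) i.1 1
  rwa [mul_one, pow_one] at h1

/-- The value at `0`. -/
theorem mon_zero (k : ℕ) : mon r ω k 0 = if r ∣ k then ω ^ (k / r) else 0 := by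
  unfold mon
  rw [Pi.single_apply]
  have h1 : (0 = ix r k) ↔ r ∣ k := by
    rw [Fin.ext_iff]
    change ((0 : Fin r) : ℕ) = k % r ↔ _
    rw [Fin.val_zero, Nat.dvd_iff_mod_eq_zero, eq_comm]
  simp only [h1]

theorem map_mon_zero {σ : F →+* F} {Q : ℕ} (hσ : σ ω = ω ^ Q) (hQ : Q.Coprime r) (k : ℕ) :
    mon r ω (Q * k) 0 = σ (mon r ω k 0) := by
  rw [mon_zero, mon_zero]
  have h1 : r ∣ Q * k ↔ r ∣ k := Nat.Coprime.dvd_mul_left hQ.symm
  simp only [h1]
  split_ifs with h
  · rw [map_pow, hσ, ← pow_mul, Nat.mul_div_assoc _ h]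
  · rw [map_zero]

variable (r ω) in
/-- The Gram matrix. -/
def gramM : Matrix (Fin r) (Fin r) F := fun i j => mon r ω (i.1 + j.1) 0

theorem gramM_symm : (gramM r ω)ᵀ = gramM r ω := by
  ext i j
  change mon r ω (j.1 + i.1) 0 = mon r ω (i.1 + j.1) 0
  rw [add_comm]

theorem gramM_mon (i j : ℕ) :
    mon r ω i ⬝ᵥ (gramM r ω *ᵥ mon r ω j) = mon r ω (i + j) 0 := by
  have h1 : (Pi.single (ix r i) (1 : F) : Fin r → F) ⬝ᵥ
      (gramM r ω *ᵥ (Pi.single (ix r j) (1 : F) : Fin r → F)) =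
        mon r ω (i % r + j % r) 0 := by
    rw [mulVec_single_one, single_one_dotProduct]
    rfl
  rw [mon_eq i, mon_eq j, mulVec_smul, smul_dotProduct, dotProduct_smul, h1, smul_eq_mul,
    smul_eq_mul, ← mul_assoc, ← pow_add]
  have h2 : i + j = (i % r + j % r) + r * (i / r + j / r) := by
    have h3 := Nat.mod_add_div i r
    have h4 := Nat.mod_add_div j r
    rw [mul_add]
    omega
  rw [h2, mon_add_mul]
  rfl

theorem ext_form {M N : Matrix (Fin r) (Fin r) F}
    (h : ∀ i j : Fin r, (Pi.single i (1 : F) : Fin r → F) ⬝ᵥ (M *ᵥ Pi.single j 1) =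
      (Pi.single i (1 : F) : Fin r → F) ⬝ᵥ (N *ᵥ Pi.single j 1)) : M = N := by
  ext i j
  have h1 := h i j
  rw [mulVec_single_one, mulVec_single_one, single_one_dotProduct, single_one_dotProduct] at h1
  exact h1

theorem form_mul (A M B : Matrix (Fin r) (Fin r) F) (x y : Fin r → F) :
    x ⬝ᵥ ((Aᵀ * M * B) *ᵥ y) = (A *ᵥ x) ⬝ᵥ (M *ᵥ (B *ᵥ y)) := by
  rw [Matrix.mul_assoc, ← mulVec_mulVec, ← mulVec_mulVec, dotProduct_mulVec, vecMul_transpose]

/-- Multiplication by `X` is self-adjoint. -/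
theorem gramM_mulX : (mulX r ω)ᵀ * gramM r ω = gramM r ω * mulX r ω := by
  apply ext_form
  intro i j
  have h1 := form_mul (mulX r ω) (gramM r ω) 1 (Pi.single i 1) (Pi.single j 1)
  have h2 := form_mul 1 (gramM r ω) (mulX r ω) (Pi.single i 1) (Pi.single j 1)
  rw [Matrix.mul_one, one_mulVec] at h1
  rw [transpose_one, Matrix.one_mul, one_mulVec] at h2
  rw [h1, h2, ← mon_coe (ω := ω) i, ← mon_coe (ω := ω) j, mulX_mon, mulX_mon, gramM_mon,
    gramM_mon]
  congr 1
  ring_nf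

/-- The semilinear maps preserve the form. -/
theorem gramM_powM {σ : F →+* F} {Q : ℕ} (hσ : σ ω = ω ^ Q) (hQ : Q.Coprime r) :
    (powM r ω Q)ᵀ * gramM r ω * powM r ω Q = (gramM r ω).map σ := by
  apply ext_form
  intro i j
  rw [form_mul, powM, colM_mulVec_single, colM_mulVec_single, gramM_mon, mulVec_single_one,
    single_one_dotProduct, ← mul_add, map_mon_zero hσ hQ]
  rfl

/-- The Gram matrix is invertible. -/
theorem gramM_inv (hω : ω ≠ 0) : gramM r ω * gramM r ω⁻¹ = 1 := by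
  ext i k
  rw [Matrix.mul_apply]
  have hr := NeZero.pos r
  let j0 : Fin r := ix r (r - i.1)
  have hj0 : (i.1 + j0.1) % r = 0 := by
    change (i.1 + (r - i.1) % r) % r = 0
    rw [Nat.add_mod_mod, Nat.add_sub_cancel' i.2.le, Nat.mod_self]
  have huniq : ∀ a b c : Fin r, (a.1 + b.1) % r = 0 → (a.1 + c.1) % r = 0 → b = c := by
    intro a b c h1 h2
    have h3 : (a.1 + b.1) ≡ (a.1 + c.1) [MOD r] := h1.trans h2.symm
    have h4 : b.1 ≡ c.1 [MOD r] := Nat.ModEq.add_left_cancel' _ h3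
    exact Fin.ext (Nat.ModEq.eq_of_lt_of_lt h4 b.2 c.2)
  rw [Finset.sum_eq_single j0]
  · change mon r ω (i.1 + j0.1) 0 * mon r ω⁻¹ (j0.1 + k.1) 0 = _
    rw [mon_zero, mon_zero, if_pos (Nat.dvd_of_mod_eq_zero hj0)]
    by_cases hik : i = k
    · subst hik
      rw [add_comm j0.1, if_pos (Nat.dvd_of_mod_eq_zero hj0), inv_pow,
        mul_inv_cancel₀ (pow_ne_zero _ hω), one_apply_eq]
    · rw [one_apply_ne hik, if_neg, mul_zero]
      intro h1
      apply hik
      refine huniq j0 i k ?_ (Nat.mod_eq_zero_of_dvd h1)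
      rw [add_comm]
      exact hj0
  · intro j _ hj
    change mon r ω (i.1 + j.1) 0 * _ = 0
    rw [mon_zero, if_neg, zero_mul]
    intro h1
    exact hj (huniq i j j0 (Nat.mod_eq_zero_of_dvd h1) hj0)
  · intro h
    exact absurd (Finset.mem_univ _) h

end MP7fM
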