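import Pool.Agent.Lib.MP_7f581e_ntM.Inj
import Pool.Agent.Lib.MP_7f581e_ntM.Mon
import Pool.Agent.Lib.MP_7f581e_ntM.Frob

/-!
The elements which generate the complement, and their relations.
-/

set_option autoImplicit false
set_option linter.unusedSectionVars false

namespace MP7fM

open Matrix MP7fW MP7fY MP7fG

section basic

variable {F : Type*} [Field F] (r : ℕ) [NeZero r] (ω : Fˣ)

theorem det_mulX_ne : (mulX r (ω : F)).det ≠ 0 := by
  intro h0
  have h1 := congrArg Matrix.det (mulX_pow_r (r := r) (ω := (ω : F)))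
  rw [det_pow, h0, zero_pow (NeZero.ne r), det_smul, det_one, mul_one] at h1
  exact pow_ne_zero _ ω.ne_zero h1.symm

/-- Multiplication by `X`. -/
noncomputable def mulG : GL (Fin r) F :=
  GeneralLinearGroup.mkOfDetNeZero (mulX r (ω : F)) (det_mulX_ne r ω)

theorem mulG_coe : (mulG r ω).1 = mulX r (ω : F) := rfl

/-- The Gram matrix. -/
def gramG : GL (Fin r) F where
  val := gramM r (ω : F)
  inv := gramM r (ω : F)⁻¹
  val_inv := gramM_inv ω.ne_zero
  inv_val := by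
    have h := gramM_inv (r := r) (ω := (ω : F)⁻¹) (inv_ne_zero ω.ne_zero)
    rwa [inv_inv] at h

theorem gramG_coe : (gramG r ω).1 = gramM r (ω : F) := rfl

variable {r ω}

theorem gI_gramG_inv : gI ((gramG r ω)⁻¹) = gramG r ω := by
  apply Units.ext
  change ((((gramG r ω)⁻¹)⁻¹).1)ᵀ = (gramG r ω).1
  rw [inv_inv]
  exact gramM_symm

theorem gI_gramG : gI (gramG r ω) = (gramG r ω)⁻¹ := by
  rw [← gI_gramG_inv, gI_gI, gI_gramG_inv]

theorem gI_inv_coe {n : ℕ} (g : GL (Fin n) F) : ((gI g)⁻¹).1 = (g.1)ᵀ := rfl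

theorem gram_mul : (gramG r ω)⁻¹ * gI (mulG r ω) = (mulG r ω)⁻¹ * (gramG r ω)⁻¹ := by
  have h1 : (gI (mulG r ω))⁻¹ * gramG r ω = gramG r ω * mulG r ω := Units.ext gramM_mulX
  have h2 := congrArg (fun x => x⁻¹) h1
  simp only [_root_.mul_inv_rev, inv_inv] at h2
  exact h2

theorem mulG_pow : ((mulG r ω) ^ r).1 = (ω : F) • (1 : Matrix (Fin r) (Fin r) F) := by
  rw [Units.val_pow_eq_pow_val]
  exact mulX_pow_r

variable (r ω) in
/-- The determinant of the multiplication by `X`. -/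
noncomputable def mulD : Fˣ := Units.mk0 (mulX r (ω : F)).det (det_mulX_ne r ω)

theorem mulG_det : (mulG r ω).1.det = (mulD r ω : F) := rfl

theorem mulD_pow : (mulD r ω) ^ r = ω ^ r := by
  apply Units.ext
  rw [Units.val_pow_eq_pow_val, mulD, Units.val_mk0, Units.val_pow_eq_pow_val, ← det_pow,
    mulX_pow_r, det_smul, det_one, mul_one, Fintype.card_fin]

end basic

section frobenius

variable {F : Type*} [Field F] [Finite F] {p : ℕ} [hp : Fact p.Prime] [CharP F p] {m : ℕ}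
  (hcard : Nat.card F = p ^ m) (r : ℕ) [NeZero r] (ω : Fˣ) (hr : r ∣ Nat.card Fˣ)

/-- The semilinear Frobenius condition. -/
theorem fr_ring (x : F) : ((fr F p : F ≃+* F) : F →+* F) x = x ^ p := by
  have h := fr_pow (p := p) 1 x
  rw [pow_one, pow_one] at h
  exact h

theorem card_eq_units : Nat.card F = Nat.card Fˣ + 1 := by
  have := Fintype.ofFinite F
  exact Nat.card_eq_card_units_add_one F

include hcard hr in
/-- The matrix of `X ↦ X ^ (q ^ k)` for `r ∣ k`. -/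
theorem powM_q {k : ℕ} (hk : r ∣ k) : powM r (ω : F) (p ^ (m * k)) = 1 := by
  rw [pow_mul, ← hcard]
  obtain ⟨w, hw⟩ := pow_q' (card_eq_units (F := F)) hr hk
  refine powM_eq_one hw ?_
  rw [pow_mul, ← Units.val_pow_eq_pow_val, pow_card_eq_one', Units.val_one, one_pow]

include hcard hr in
theorem hm_pos : 0 < m := by
  rcases Nat.eq_zero_or_pos m with h | h
  · exfalso
    have h1 : 1 < Nat.card F := Finite.one_lt_card
    rw [hcard, h, pow_zero] at h1
    exact absurd h1 (lt_irrefl _)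
  · exact h

include hcard hr in
theorem det_powM_ne : (powM r (ω : F) p).det ≠ 0 := by
  intro h0
  have h1 := powM_mul (r := r) (ω := (ω : F)) (σ := ((fr F p : F ≃+* F) : F →+* F)) (Q := p)
    (fr_ring _) (p ^ (m * r - 1))
  have h2 : p * p ^ (m * r - 1) = p ^ (m * r) := by
    rw [← pow_succ']
    congr 1
    have : 0 < m * r := Nat.mul_pos (hm_pos hcard r hr) (NeZero.pos r)
    omega
  rw [h2, powM_q hcard r ω hr (dvd_refl r)] at h1
  have h3 := congrArg Matrix.det h1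
  rw [det_mul, h0, zero_mul, det_one] at h3
  exact zero_ne_one h3

/-- The matrix of `X ↦ X ^ p`. -/
noncomputable def powG : GL (Fin r) F :=
  GeneralLinearGroup.mkOfDetNeZero (powM r (ω : F) p) (det_powM_ne hcard r ω hr)

theorem powG_coe : (powG hcard r ω hr).1 = powM r (ω : F) p := rfl

theorem pow_mul_G : powG hcard r ω hr * glMap (fr F p) (mulG r ω) =
    mulG r ω ^ p * powG hcard r ω hr := by
  apply Units.ext
  change powM r (ω : F) p * (mulX r (ω : F)).map ((fr F p : F ≃+* F) : F →+* F) =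
    ((mulG r ω) ^ p).1 * powM r (ω : F) p
  rw [powM_mulX (fr_ring _), Units.val_pow_eq_pow_val]
  rfl

include hr in
theorem p_coprime : p.Coprime r := by
  have h1 : p ∣ Nat.card F := by
    have := Fintype.ofFinite F
    rw [Nat.card_eq_fintype_card]
    exact (CharP.cast_eq_zero_iff F p _).mp (by simp)
  have h2 : p.Coprime (Nat.card Fˣ) := by
    have h3 := card_eq_units (F := F)
    rw [h3] at h1
    rw [hp.out.coprime_iff_not_dvd]
    intro h4
    have := (Nat.dvd_add_right h4).mp h1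
    exact hp.out.one_lt.ne' (Nat.dvd_one.mp this)
  exact h2.coprime_dvd_right hr

theorem gram_pow_G : (gramG r ω)⁻¹ * gI (powG hcard r ω hr) =
    powG hcard r ω hr * glMap (fr F p) (gramG r ω)⁻¹ := by
  have h1 : (gI (powG hcard r ω hr))⁻¹ * gramG r ω * powG hcard r ω hr =
      glMap (fr F p) (gramG r ω) := by
    apply Units.ext
    exact gramM_powM (σ := ((fr F p : F ≃+* F) : F →+* F)) (fr_ring _) (p_coprime r hr)
  rw [map_inv, ← h1]
  group

end frobenius

section big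

variable {F : Type*} [Field F] [Finite F] {p : ℕ} [hp : Fact p.Prime] [CharP F p] {m : ℕ}
  (hcard : Nat.card F = p ^ m) {r s n : ℕ} [NeZero r] [NeZero s] (e : Fin r × Fin s ≃ Fin n)
  (ω : Fˣ) (hr : r ∣ Nat.card Fˣ)

/-- The semilinear element. -/
noncomputable def PhiR : RingAut (Bool → Matrix (Fin n) (Fin n) F) :=
  aR (gK e (powG hcard r ω hr)) (fr F p) false

/-- The graph element. -/
noncomputable def gamR : RingAut (Bool → Matrix (Fin n) (Fin n) F) :=
  aR (gK e (gramG r ω)⁻¹) (RingEquiv.refl F) true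

theorem glMap_refl {k : ℕ} (g : GL (Fin k) F) : glMap (RingEquiv.refl F) g = g := Units.ext rfl

theorem gamR_sq : gamR e ω ^ 2 = 1 := by
  rw [sq, gamR, aR_mul, glMap_refl, gT_true, gK_gI, ← map_mul, gI_gramG_inv, inv_mul_cancel,
    map_one]
  exact aR_one

theorem gam_Phi : PhiR hcard e ω hr * gamR e ω = gamR e ω * PhiR hcard e ω hr := by
  rw [gamR, PhiR, aR_mul, aR_mul, glMap_refl, gT_true, gK_gI, gT_false, gK_map, ← map_mul,
    ← map_mul, gram_pow_G]
  rfl

theorem Phi_pow (k : ℕ) : ∃ P : GL (Fin r) F, P.1 = powM r (ω : F) (p ^ k) ∧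
    PhiR hcard e ω hr ^ k = aR (gK e P) (fr F p ^ k : RingAut F) false := by
  induction k with
  | zero =>
    refine ⟨1, ?_, ?_⟩
    · rw [pow_zero]
      exact (powM_eq_one (t := 0) (by rw [mul_zero, add_zero]) (pow_zero _)).symm
    · rw [pow_zero, pow_zero, map_one]
      exact aR_one.symm
  | succ k ih =>
    obtain ⟨P, hP, h⟩ := ih
    refine ⟨powG hcard r ω hr * glMap (fr F p) P, ?_, ?_⟩
    · change powM r (ω : F) p * (P.1).map ((fr F p : F ≃+* F) : F →+* F) = _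
      rw [hP, powM_mul (fr_ring _), pow_succ']
    · rw [pow_succ', h, PhiR, aR_mul, gT_false, gK_map, ← map_mul, pow_succ']
      rfl

/-- The power of the semilinear element is trivial. -/
theorem Phi_pow_eq_one {k : ℕ} (hk : r ∣ k) : PhiR hcard e ω hr ^ (m * k) = 1 := by
  obtain ⟨P, hP, h⟩ := Phi_pow hcard e ω hr (m * k)
  have hP1 : P = 1 := Units.ext (by rw [hP, powM_q hcard r ω hr hk]; rfl)
  rw [h, hP1, map_one, pow_mul, fr_pow_m hcard, one_pow]
  exact aR_one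

/-- The group of diagonal automorphisms. -/
noncomputable def TG : Subgroup (GL (Fin n) F) where
  carrier := {g | ∃ (a : ℤ) (ζ : Fˣ), ζ ^ (Nat.gcd s (Nat.card Fˣ)) = 1 ∧
    g = gK e (mulG r ω) ^ a * gL e (dgl s F ζ)}
  one_mem' := ⟨0, 1, one_pow _, by rw [_root_.zpow_zero, map_one, map_one, mul_one]⟩
  mul_mem' := by
    rintro _ _ ⟨a, ζ, hζ, rfl⟩ ⟨b, ξ, hξ, rfl⟩
    refine ⟨a + b, ζ * ξ, by rw [mul_pow, hζ, hξ, one_mul], ?_⟩
    rw [map_mul, map_mul, _root_.zpow_add, mul_assoc, mul_assoc]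
    congr 1
    rw [← mul_assoc, ← mul_assoc]
    congr 1
    exact ((show Commute (gK e (mulG r ω)) (gL e (dgl s F ζ)) from gK_gL e _ _).zpow_left b).symm
  inv_mem' := by
    rintro _ ⟨a, ζ, hζ, rfl⟩
    refine ⟨-a, ζ⁻¹, by rw [inv_pow, hζ, inv_one], ?_⟩
    rw [_root_.mul_inv_rev, map_inv, map_inv, _root_.zpow_neg]
    exact (((show Commute (gK e (mulG r ω)) (gL e (dgl s F ζ)) from
      gK_gL e _ _).zpow_left a).inv_inv).symm

theorem mem_TG {g : GL (Fin n) F} : g ∈ TG e ω ↔ ∃ (a : ℤ) (ζ : Fˣ),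
    ζ ^ (Nat.gcd s (Nat.card Fˣ)) = 1 ∧ g = gK e (mulG r ω) ^ a * gL e (dgl s F ζ) := Iff.rfl

theorem gI_dgl (ζ : Fˣ) : gI (dgl s F ζ) = dgl s F ζ⁻¹ := by
  apply Units.ext
  change (((dgl s F ζ)⁻¹).1)ᵀ = _
  rw [dgl_inv_transpose, map_inv]

theorem glMap_dgl (σ : F ≃+* F) (ζ : Fˣ) :
    glMap σ (dgl s F ζ) = dgl s F (Units.map (σ : F →* F) ζ) := by
  apply Units.ext
  rw [glMap_coe]
  exact dgl_map σ ζ

/-- The semilinear element normalizes. -/
theorem Phi_norm : ∀ d ∈ (TG e ω).map (Xh n F), ∃ d' ∈ (TG e ω).map (Xh n F),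
    PhiR hcard e ω hr * d = d' * PhiR hcard e ω hr := by
  rintro _ ⟨_, ⟨a, ζ, hζ, rfl⟩, rfl⟩
  refine ⟨_, ⟨_, ⟨(p : ℤ) * a, Units.map ((fr F p : F ≃+* F) : F →* F) ζ, ?_, rfl⟩, rfl⟩, ?_⟩
  · rw [← map_pow, hζ, map_one]
  · rw [PhiR, aR_mul_Xh, Xh_mul_aR, gT_false]
    congr 1
    rw [map_mul, map_zpow, gK_map, gL_map, glMap_dgl, ← mul_assoc]
    have h1 : SemiconjBy (gK e (powG hcard r ω hr)) (gK e (glMap (fr F p) (mulG r ω)))
        (gK e (mulG r ω) ^ p) := by
      change _ * _ = _ * _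
      rw [← map_mul, pow_mul_G, map_mul, map_pow]
    have h2 := (h1.zpow_right a).eq
    rw [h2, ← zpow_natCast, ← _root_.zpow_mul, mul_assoc, mul_assoc, gK_gL]

/-- The graph element normalizes. -/
theorem gam_norm : ∀ d ∈ (TG e ω).map (Xh n F), ∃ d' ∈ (TG e ω).map (Xh n F),
    gamR e ω * d = d' * gamR e ω := by
  rintro _ ⟨_, ⟨a, ζ, hζ, rfl⟩, rfl⟩
  refine ⟨_, ⟨_, ⟨-a, ζ⁻¹, ?_, rfl⟩, rfl⟩, ?_⟩
  · rw [inv_pow, hζ, inv_one]
  · rw [gamR, aR_mul_Xh, Xh_mul_aR, gT_true, glMap_refl]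
    congr 1
    rw [gI_mul, gL_gI, gI_dgl]
    have h0 : gI (gK e (mulG r ω) ^ a) = gK e (gI (mulG r ω)) ^ a := by
      rw [← gK_gI]
      exact map_zpow (gIh n F) _ _
    rw [h0, ← mul_assoc]
    have h1 : SemiconjBy (gK e (gramG r ω)⁻¹) (gK e (gI (mulG r ω))) ((gK e (mulG r ω))⁻¹) := by
      change _ * _ = _ * _
      rw [← map_mul, gram_mul, map_mul, map_inv]
    have h2 := (h1.zpow_right a).eq
    rw [h2, _root_.inv_zpow, ← _root_.zpow_neg, mul_assoc, mul_assoc, gK_gL]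

end big

end MP7fM
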