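import Pool.Agent.Lib.MP_7f581e_ntL.Y6
import Pool.Agent.Lib.MP_7f581e_ntM.Arith
import Pool.Agent.Lib.MP_7f581e_ntM.Elts

/-!
The complement of `PSL(n, F)` in its automorphism group.
-/

set_option autoImplicit false
set_option linter.unusedSectionVars false

namespace MP7fM

open Matrix MP7fW MP7fY MP7fG

variable {F : Type*} [Field F] [Finite F] {p : ℕ} [hp : Fact p.Prime] [CharP F p] {m : ℕ}
  (hcard : Nat.card F = p ^ m) {r s n : ℕ} [NeZero r] [NeZero s] (e : Fin r × Fin s ≃ Fin n)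
  (ω : Fˣ) (hr : r ∣ Nat.card Fˣ) {c : ℕ} (hc0 : r ∣ c)

/-- The complement. -/
noncomputable def AX : Subgroup (RingAut (Bool → Matrix (Fin n) (Fin n) F)) :=
  wrS (D := (TG e ω).map (Xh n F)) (u := PhiR hcard e ω hr ^ c) (v := gamR e ω) (m := m)
    (m' := 2) (by rw [← pow_mul, mul_comm]; exact Phi_pow_eq_one hcard e ω hr hc0)
    (gamR_sq e ω) (hm_pos hcard r hr) two_pos
    ((show Commute (PhiR hcard e ω hr) (gamR e ω) from gam_Phi hcard e ω hr).pow_left c).eq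
    (norm_pow (Phi_norm hcard e ω hr) c) (gam_norm e ω)

theorem mem_AX {x : RingAut (Bool → Matrix (Fin n) (Fin n) F)} :
    x ∈ AX hcard e ω hr hc0 ↔ ∃ d ∈ (TG e ω).map (Xh n F), ∃ k l : ℕ,
      x = d * (PhiR hcard e ω hr ^ c) ^ k * gamR e ω ^ l := Iff.rfl

theorem AX_le : AX hcard e ω hr hc0 ≤ A1 n F := by
  rintro _ ⟨_, ⟨t, -, rfl⟩, k, l, rfl⟩
  have h1 : Xh n F t ∈ A1 n F := ⟨t, _, _, rfl⟩
  have h2 : PhiR hcard e ω hr ∈ A1 n F := ⟨_, _, _, rfl⟩
  have h3 : gamR e ω ∈ A1 n F := ⟨_, _, _, rfl⟩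
  exact mul_mem (mul_mem h1 (pow_mem (pow_mem h2 _) _)) (pow_mem h3 _)

theorem hexX (x : AX hcard e ω hr hc0) (h : SpecialLinearGroup (Fin n) F) :
    ∃ h', inc1 n F h' = (AX hcard e ω hr hc0).subtype x (inc1 n F h) :=
  hex1 ⟨x.1, AX_le hcard e ω hr hc0 x.2⟩ h

/-- The action on `PSL(n,F)`. -/
noncomputable abbrev cX : AX hcard e ω hr hc0 →* MulAut (ProjectiveSpecialLinearGroup (Fin n) F) :=
  cQ (inc1 n F) inc1_inj (AX hcard e ω hr hc0).subtype (hexX hcard e ω hr hc0)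

theorem cX_eq (x : AX hcard e ω hr hc0) (t : ProjectiveSpecialLinearGroup (Fin n) F) :
    cX hcard e ω hr hc0 x t = c1 n F ⟨x.1, AX_le hcard e ω hr hc0 x.2⟩ t := by
  obtain ⟨h, rfl⟩ := mkP_surj t
  obtain ⟨h', hh'⟩ := hexX hcard e ω hr hc0 x h
  have h1 : cX hcard e ω hr hc0 x (mkP n F h) = mkP n F h' := cQ_mk' _ _ _ _ _ hh'
  have h2 : c1 n F ⟨x.1, AX_le hcard e ω hr hc0 x.2⟩ (mkP n F h) = mkP n F h' :=
    cQ_mk' _ _ _ _ _ hh'
  rw [h1, h2]

theorem c1_inner (h : SpecialLinearGroup (Fin n) F)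
    (hX : Xh n F (SpecialLinearGroup.toGL h) ∈ A1 n F)
    (t : ProjectiveSpecialLinearGroup (Fin n) F) :
    c1 n F ⟨Xh n F (SpecialLinearGroup.toGL h), hX⟩ t =
      mkP n F h * t * (mkP n F h)⁻¹ := by
  obtain ⟨A, rfl⟩ := mkP_surj t
  have h1 := c1_mk (SpecialLinearGroup.toGL h) (RingEquiv.refl F) false A
  have h2 : SpecialLinearGroup.map ((RingEquiv.refl F : F ≃+* F) : F →+* F) (iT false A) = A := by
    apply Subtype.ext
    rfl
  rw [h2, conjSL_toGL, map_mul, map_mul, map_inv] at h1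
  exact h1

include hcard in
theorem fr_eq {j k : ℕ} (hc1 : c = 1 + m * j) :
    (fr F p ^ (c * k) : RingAut F) = fr F p ^ k := by
  rw [hc1]
  have h1 : (1 + m * j) * k = k + m * (j * k) := by ring
  rw [h1, pow_add, pow_mul, fr_pow_m hcard, one_pow, mul_one]

theorem Xh_gK_pow : Xh n F (gK e (mulG r ω) ^ r) = 1 := by
  rw [← map_pow, Xh_apply]
  have h1 : (gK e (mulG r ω ^ r)).1 = (ω : F) • (1 : GL (Fin n) F).1 := by
    rw [gK_coe, mulG_pow, kK_smul, map_one]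
    rfl
  rw [aR_congr ω.ne_zero h1]
  exact aR_one

include e in
theorem n_eq : n = r * s := by
  have h := Fintype.card_congr e
  rw [Fintype.card_prod, Fintype.card_fin, Fintype.card_fin, Fintype.card_fin] at h
  exact h.symm

theorem det_TG (a : ℤ) (ζ : Fˣ) :
    (gK e (mulG r ω) ^ a * gL e (dgl s F ζ)).1.det = (((mulD r ω ^ s) ^ a * ζ ^ r : Fˣ) : F) := by
  have h1 : ∀ g : GL (Fin n) F, g.1.det = (GeneralLinearGroup.det g : F) := fun g => rfl
  have h2 : GeneralLinearGroup.det (gK e (mulG r ω)) = mulD r ω ^ s := by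
    apply Units.ext
    rw [← h1, gK_coe, det_kK, mulG_det, Units.val_pow_eq_pow_val]
  have h3 : GeneralLinearGroup.det (gL e (dgl s F ζ)) = ζ ^ r := by
    apply Units.ext
    rw [← h1, gL_coe, det_kL, dgl_det, Units.val_pow_eq_pow_val]
  rw [h1, map_mul, map_zpow, h2, h3]

variable (hω : ∀ x : Fˣ, x ∈ Subgroup.zpowers ω)
  (hl : ∀ l, l.Prime → l ∣ r → l ∣ Nat.card Fˣ / r) (hrs : r.Coprime s)
  (hd : DiagCond s (Nat.card Fˣ)) {j : ℕ} (hc1 : c = 1 + m * j) (h3 : 3 ≤ n)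

include hω hl hrs hd hc1 h3 in
/-- **The complement property.** -/
theorem cpl_AX : Cpl (cX hcard e ω hr hc0) := by
  have hNZ : NeZero n := ⟨by omega⟩
  have hn := n_eq e
  refine ⟨?_, ?_⟩
  · intro x s' hs
    obtain ⟨h, rfl⟩ := mkP_surj s'
    have hXm : Xh n F (SpecialLinearGroup.toGL h) ∈ A1 n F := ⟨_, _, _, rfl⟩
    have h1 : (⟨x.1, AX_le hcard e ω hr hc0 x.2⟩ : A1 n F) =
        ⟨Xh n F (SpecialLinearGroup.toGL h), hXm⟩ := by
      apply cQ_injective (fix1 (F := F) h3)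
      intro t
      have h2 := hs t
      rw [cX_eq] at h2
      exact h2.trans (c1_inner h hXm t).symm
    have h2 : x.1 = aR (SpecialLinearGroup.toGL h) (RingEquiv.refl F) false :=
      congrArg Subtype.val h1
    obtain ⟨_, ⟨t, ht, rfl⟩, k, l, hx⟩ := (mem_AX hcard e ω hr hc0).mp x.2
    obtain ⟨P, -, hP⟩ := Phi_pow hcard e ω hr (c * k)
    rw [← pow_mul, hP] at hx
    obtain ⟨l', rfl | rfl⟩ := Nat.even_or_odd' l
    · rw [pow_mul (gamR e ω), gamR_sq, one_pow, mul_one, Xh_mul_aR] at hx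
      obtain ⟨-, hσ, -⟩ := aR_inj (hx.symm.trans h2)
      have hσ' : fr F p ^ (c * k) = 1 := hσ
      have hmk : m ∣ k := by
        have h4 := fr_dvd hcard hσ'
        have h5 : m.Coprime c := by
          rw [hc1]
          simp
        exact h5.dvd_of_dvd_mul_left h4
      obtain ⟨k', rfl⟩ := hmk
      have h4 : PhiR hcard e ω hr ^ (c * (m * k')) = 1 := by
        have h5 : c * (m * k') = (m * c) * k' := by ring
        rw [h5, pow_mul, Phi_pow_eq_one hcard e ω hr hc0, one_pow]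
      rw [← Xh_mul_aR, ← hP, h4, mul_one] at hx
      obtain ⟨-, -, κ, hκ⟩ := aR_inj (hx.symm.trans h2)
      obtain ⟨a, ζ, hζ, rfl⟩ := ht
      have h6 := congrArg Matrix.det hκ
      rw [det_TG, det_smul, Fintype.card_fin] at h6
      have h7 : (SpecialLinearGroup.toGL h).1.det = 1 := h.2
      rw [h7, mul_one] at h6
      have hκ0 : κ ≠ 0 := by
        rintro rfl
        rw [zero_pow (by omega)] at h6
        exact Units.ne_zero _ h6
      have h8 : (mulD r ω ^ s) ^ a * ζ ^ r = (Units.mk0 κ hκ0) ^ (r * s) := by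
        apply Units.ext
        rw [h6, Units.val_pow_eq_pow_val, Units.val_mk0, ← hn]
      obtain ⟨⟨a', rfl⟩, rfl⟩ := arith_unique hω hl hr hrs hd mulD_pow hζ h8
      apply Subtype.ext
      rw [hx, map_mul, map_one, map_one, map_one, mul_one, _root_.zpow_mul, map_zpow, zpow_natCast,
        Xh_gK_pow, _root_.one_zpow]
      rfl
    · exfalso
      rw [pow_succ (gamR e ω), pow_mul (gamR e ω), gamR_sq, one_pow, one_mul, Xh_mul_aR, gamR,
        aR_mul] at hx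
      obtain ⟨hε, -, -⟩ := aR_inj (hx.symm.trans h2)
      exact Bool.noConfusion hε
  · intro φ
    obtain ⟨⟨_, g, τ, ε, rfl⟩, hy⟩ := sur1 h3 φ
    obtain ⟨k, rfl⟩ := exists_fr (p := p) τ
    obtain ⟨P, -, hP⟩ := Phi_pow hcard e ω hr (c * k)
    rw [fr_eq hcard hc1] at hP
    have hw : ∃ (g1 : GL (Fin n) F) (l : ℕ),
        (PhiR hcard e ω hr ^ c) ^ k * gamR e ω ^ l = aR g1 (fr F p ^ k : RingAut F) ε := by
      rw [← pow_mul, hP]
      cases ε
      · exact ⟨gK e P, 0, by rw [pow_zero, mul_one]⟩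
      · refine ⟨gK e P * glMap (fr F p ^ k : RingAut F) (gT false (gK e (gramG r ω)⁻¹)), 1, ?_⟩
        rw [pow_one, gamR, aR_mul]
        rfl
    obtain ⟨g1, l, hg1⟩ := hw
    obtain ⟨a, ζ, b, hζ, hb⟩ := arith_exists hω hl hr hrs hd (mulD_pow (r := r) (ω := ω))
      (GeneralLinearGroup.det (g * g1⁻¹))
    set t := gK e (mulG r ω) ^ a * gL e (dgl s F ζ) with ht
    have htT : t ∈ TG e ω := ⟨a, ζ, hζ, rfl⟩
    have hdet : GeneralLinearGroup.det (g * g1⁻¹ * t⁻¹) = b ^ n := by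
      have h1 : GeneralLinearGroup.det t = (mulD r ω ^ s) ^ a * ζ ^ r :=
        Units.ext (det_TG e ω a ζ)
      rw [map_mul, map_inv, h1, hb, hn, mul_right_comm, mul_inv_cancel, one_mul]
    have hdet' : (g * g1⁻¹ * t⁻¹).1.det = (b : F) ^ n := by
      rw [← Units.val_pow_eq_pow_val, ← hdet]
      rfl
    let h : SpecialLinearGroup (Fin n) F := ⟨((b : F)⁻¹) • (g * g1⁻¹ * t⁻¹).1, by
      rw [det_smul, Fintype.card_fin, hdet', inv_pow, inv_mul_cancel₀ (pow_ne_zero _ b.ne_zero)]⟩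
    have hX : Xh n F (g * g1⁻¹ * t⁻¹) = Xh n F (SpecialLinearGroup.toGL h) := by
      apply aR_congr b.ne_zero
      change _ = (b : F) • ((b : F)⁻¹ • (g * g1⁻¹ * t⁻¹).1)
      rw [smul_smul, mul_inv_cancel₀ b.ne_zero, one_smul]
    have hXm : Xh n F (SpecialLinearGroup.toGL h) ∈ A1 n F := ⟨_, _, _, rfl⟩
    let x : AX hcard e ω hr hc0 := ⟨Xh n F t * ((PhiR hcard e ω hr ^ c) ^ k * gamR e ω ^ l),
      ⟨_, ⟨t, htT, rfl⟩, k, l, by rw [mul_assoc]⟩⟩
    have hyx : aR g (fr F p ^ k : RingAut F) ε = Xh n F (SpecialLinearGroup.toGL h) * x.1 := by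
      change _ = _ * (Xh n F t * _)
      rw [hg1, ← hX, ← mul_assoc, ← map_mul, inv_mul_cancel_right, Xh_mul_aR,
        inv_mul_cancel_right]
    refine ⟨mkP n F h, x, ?_⟩
    intro t'
    rw [hy, cX_eq, ← c1_inner h hXm, ← MulAut.mul_apply, ← map_mul]
    congr 2
    exact Subtype.ext hyx

end MP7fM
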