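import Pool.Agent.Lib.MP_7f581e_ntM.GenV
import Pool.Agent.Lib.MP_7f581e_ntL.Z12
import Pool.Agent.Lib.MP_7f581e_ntL.Z11
import Pool.Agent.Lib.MP_7f581e_ntL.Z5
import Pool.Agent.Lib.MP_7f581e_ntL.Z2
import Pool.Agent.Lib.MP_7f581e_ntL.V12
import Pool.Agent.Lib.MP_7f581e_ntL.V11
import Pool.Agent.Lib.MP_7f581e_ntL.V9
import Pool.Agent.Lib.MP_7f581e_ntL.V6
import Pool.Agent.Lib.MP_7f581e_ntL.U14
import Pool.Agent.Lib.MP_7f581e_ntL.U4
import Pool.Agent.Lib.MP_7f581e_ntR.Reg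
import Pool.Agent.Lib.MP_7f581e_ntL.U2
import Pool.Agent.Lib.MP_7f581e_ntL.U1
import Pool.Agent.Lib.MP_7f581e_ntS.LangB
import Pool.Agent.Lib.MP_7f581e_ntS.LangA
import Pool.Agent.Lib.MP_7f581e_ntS.Tens

/-!
A criterion for the scaling condition, by an idempotent over the algebraic closure which is moved
by the involution.
-/

set_option autoImplicit false
set_option linter.unusedSectionVars false

universe u

namespace MP7fM

open TensorProduct MP7fZ MP7fV MP7fU MP7fS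

section alg

variable {k A : Type*} [Field k] [Ring A] [Algebra k A]

/-- The element with two components. -/
def pr (e X Y : A) : A := e * X + (1 - e) * Y

theorem pr_mul {e : A} (he : e * e = e) (hc : ∀ z, e * z = z * e) (X Y X' Y' : A) :
    pr e X Y * pr e X' Y' = pr e (X * X') (Y * Y') := by
  have hf : (1 - e) * (1 - e) = 1 - e := by
    rw [sub_mul, mul_sub, mul_sub, mul_one, mul_one, he, sub_self, sub_zero, one_mul]
  have hfe : (1 - e) * e = 0 := by rw [sub_mul, one_mul, he, sub_self]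
  have hef : e * (1 - e) = 0 := by rw [mul_sub, mul_one, he, sub_self]
  have hcf : ∀ z, (1 - e) * z = z * (1 - e) := fun z => by
    rw [sub_mul, mul_sub, one_mul, mul_one, hc]
  have h1 : e * X * (e * X') = e * (X * X') := by
    rw [hc X, mul_assoc, ← mul_assoc e e, he, ← mul_assoc, ← hc X, mul_assoc]
  have h2 : e * X * ((1 - e) * Y') = 0 := by
    rw [hc X, mul_assoc, ← mul_assoc e (1 - e), hef, zero_mul, mul_zero]
  have h3 : (1 - e) * Y * (e * X') = 0 := by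
    rw [hcf Y, mul_assoc, ← mul_assoc (1 - e) e, hfe, zero_mul, mul_zero]
  have h4 : (1 - e) * Y * ((1 - e) * Y') = (1 - e) * (Y * Y') := by
    rw [hcf Y, mul_assoc, ← mul_assoc (1 - e) (1 - e), hf, ← mul_assoc, ← hcf Y, mul_assoc]
  rw [pr, pr, pr, add_mul, mul_add, mul_add, h1, h2, h3, h4, add_zero, zero_add]

theorem pr_self (e X : A) : pr e X X = X := by
  rw [pr, sub_mul, one_mul, add_sub_cancel]

theorem pr_sub (e X Y X' Y' : A) : pr e X Y - pr e X' Y' = pr e (X - X') (Y - Y') := by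
  rw [pr, pr, pr, mul_sub, mul_sub]
  abel

/-- The element with two eigenvalues. -/
def ei (x : A) (μ ν : k) : A := μ • x + ν • (1 - x)

theorem ei_mul {x : A} (hx : x * x = x) (μ ν μ' ν' : k) :
    ei x μ ν * ei x μ' ν' = ei x (μ * μ') (ν * ν') := by
  have h1 : x * (1 - x) = 0 := by rw [mul_sub, mul_one, hx, sub_self]
  have h2 : (1 - x) * x = 0 := by rw [sub_mul, one_mul, hx, sub_self]
  have h3 : (1 - x) * (1 - x) = 1 - x := by
    rw [sub_mul, one_mul, h1, sub_zero]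
  rw [ei, ei, ei, add_mul, mul_add, mul_add, smul_mul_smul_comm, smul_mul_smul_comm,
    smul_mul_smul_comm, smul_mul_smul_comm, hx, h1, h2, h3, smul_zero, smul_zero, add_zero,
    zero_add]

theorem ei_one (x : A) : ei x (1 : k) 1 = 1 := by
  rw [ei, one_smul, one_smul, add_sub_cancel]

theorem ei_sub (x : A) (μ ν : k) : 1 - ei x μ ν = ei x (1 - μ) (1 - ν) := by
  rw [ei, ei, sub_smul, sub_smul, one_smul, one_smul]
  abel

theorem ei_inv {x : A} (hx : x * x = x) {μ ν : k} (hμ : μ ≠ 0) (hν : ν ≠ 0) :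
    ei x μ ν * ei x μ⁻¹ ν⁻¹ = 1 := by
  rw [ei_mul hx, mul_inv_cancel₀ hμ, mul_inv_cancel₀ hν, ei_one]

theorem ei_inv' {x : A} (hx : x * x = x) {μ ν : k} (hμ : μ ≠ 0) (hν : ν ≠ 0) :
    ei x μ⁻¹ ν⁻¹ * ei x μ ν = 1 := by
  rw [ei_mul hx, inv_mul_cancel₀ hμ, inv_mul_cancel₀ hν, ei_one]

end alg

section

variable {p : ℕ} [Fact p.Prime] {B : Type} [Ring B] [Finite B] [Algebra (ZMod p) B]
  {J : AInv p B}

/-- A criterion for the scaling condition, by a central idempotent over the algebraic closure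
which is moved by the involution. -/
theorem genV_of_central {e : AlgebraicClosure (ZMod p) ⊗[ZMod p] B} (he : e * e = e)
    (hc : ∀ z, e * z = z * e) (hJe : jR J (AlgebraicClosure (ZMod p)) e = 1 - e) {v g : B}
    (hv : J.j v = -v) (hg : g * g = g) (hgv : g * v = v) (hvg : v * g = 0) : GenV J v := by
  obtain ⟨μ, ν, hμ0, hμ1, hν0, hν1, hμν⟩ := exists_scalars p
  let x : AlgebraicClosure (ZMod p) ⊗[ZMod p] B := 1 ⊗ₜ[ZMod p] g
  let y : AlgebraicClosure (ZMod p) ⊗[ZMod p] B := 1 ⊗ₜ[ZMod p] J.j g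
  let w : AlgebraicClosure (ZMod p) ⊗[ZMod p] B := 1 ⊗ₜ[ZMod p] v
  have hx : x * x = x := by
    change (1 ⊗ₜ[ZMod p] g) * (1 ⊗ₜ[ZMod p] g) = _
    rw [Algebra.TensorProduct.tmul_mul_tmul, one_mul, hg]
  have hy : y * y = y := by
    change (1 ⊗ₜ[ZMod p] J.j g) * (1 ⊗ₜ[ZMod p] J.j g) = _
    rw [Algebra.TensorProduct.tmul_mul_tmul, one_mul, ← J.mul, hg]
  have hxy : jR J (AlgebraicClosure (ZMod p)) x = y := rfl
  have hyx : jR J (AlgebraicClosure (ZMod p)) y = x := by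
    change (1 : AlgebraicClosure (ZMod p)) ⊗ₜ[ZMod p] J.j (J.j g) = _
    rw [J.inv]
  have hxw : x * w = w := by
    change (1 ⊗ₜ[ZMod p] g) * (1 ⊗ₜ[ZMod p] v) = _
    rw [Algebra.TensorProduct.tmul_mul_tmul, one_mul, hgv]
  have hwx : w * x = 0 := by
    change (1 ⊗ₜ[ZMod p] v) * (1 ⊗ₜ[ZMod p] g) = _
    rw [Algebra.TensorProduct.tmul_mul_tmul, one_mul, hvg, tmul_zero]
  have hwy : w * y = w := by
    have h1 := congrArg J.j hgv
    rw [J.mul, hv, neg_mul, neg_inj] at h1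
    change (1 ⊗ₜ[ZMod p] v) * (1 ⊗ₜ[ZMod p] J.j g) = _
    rw [Algebra.TensorProduct.tmul_mul_tmul, one_mul, h1]
  have hyw : y * w = 0 := by
    have h1 := congrArg J.j hvg
    rw [J.mul, hv, mul_neg, map_zero, neg_eq_zero] at h1
    change (1 ⊗ₜ[ZMod p] J.j g) * (1 ⊗ₜ[ZMod p] v) = _
    rw [Algebra.TensorProduct.tmul_mul_tmul, one_mul, h1, tmul_zero]
  have hji : ∀ (z : AlgebraicClosure (ZMod p) ⊗[ZMod p] B) (a b : AlgebraicClosure (ZMod p)),
      jR J (AlgebraicClosure (ZMod p)) (ei z a b) =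
        ei (jR J (AlgebraicClosure (ZMod p)) z) a b := by
    intro z a b
    rw [ei, ei, map_add, map_smul, map_smul, map_sub, jR_one]
  have hjp : ∀ X Y : AlgebraicClosure (ZMod p) ⊗[ZMod p] B,
      jR J (AlgebraicClosure (ZMod p)) (pr e X Y) =
        pr e (jR J (AlgebraicClosure (ZMod p)) Y) (jR J (AlgebraicClosure (ZMod p)) X) := by
    intro X Y
    rw [pr, pr, map_add, jR_mul, jR_mul, map_sub, jR_one, hJe, sub_sub_cancel, ← hc,
      mul_sub, sub_mul, mul_one, one_mul, ← hc]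
    abel
  let a : AlgebraicClosure (ZMod p) ⊗[ZMod p] B := pr e (ei x μ ν) (ei y μ⁻¹ ν⁻¹)
  let a' : AlgebraicClosure (ZMod p) ⊗[ZMod p] B := pr e (ei x μ⁻¹ ν⁻¹) (ei y μ ν)
  have haa : a * a' = 1 := by
    change pr e _ _ * pr e _ _ = 1
    rw [pr_mul he hc, ei_inv hx hμ0 hν0, ei_inv' hy hμ0 hν0, pr_self]
  have haa' : a' * a = 1 := by
    change pr e _ _ * pr e _ _ = 1
    rw [pr_mul he hc, ei_inv hy hμ0 hν0, ei_inv' hx hμ0 hν0, pr_self]
  refine ⟨hv, ⟨a, a', haa, haa'⟩, μ * ν⁻¹, ?_, ?_, ?_, ?_⟩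
  · rw [mem_UR]
    change jR J _ a * a = 1
    have h1 : jR J (AlgebraicClosure (ZMod p)) a = a' := by
      change jR J (AlgebraicClosure (ZMod p)) (pr e _ _) = _
      rw [hjp, hji, hji, hxy, hyx]
    rw [h1, haa']
  · change IsUnit (1 - a)
    have hμ' : 1 - μ ≠ 0 := sub_ne_zero.mpr (Ne.symm hμ1)
    have hν' : 1 - ν ≠ 0 := sub_ne_zero.mpr (Ne.symm hν1)
    have hμ'' : 1 - μ⁻¹ ≠ 0 := sub_ne_zero.mpr (Ne.symm (inv_ne_one.mpr hμ1))
    have hν'' : 1 - ν⁻¹ ≠ 0 := sub_ne_zero.mpr (Ne.symm (inv_ne_one.mpr hν1))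
    have h1 : 1 - a = pr e (ei x (1 - μ) (1 - ν)) (ei y (1 - μ⁻¹) (1 - ν⁻¹)) := by
      change 1 - pr e _ _ = _
      rw [← ei_sub, ← ei_sub, ← pr_sub, pr_self]
    rw [h1]
    refine ⟨⟨pr e (ei x (1 - μ) (1 - ν)) (ei y (1 - μ⁻¹) (1 - ν⁻¹)),
      pr e (ei x (1 - μ)⁻¹ (1 - ν)⁻¹) (ei y (1 - μ⁻¹)⁻¹ (1 - ν⁻¹)⁻¹), ?_, ?_⟩, rfl⟩
    · rw [pr_mul he hc, ei_inv hx hμ' hν', ei_inv hy hμ'' hν'', pr_self]
    · rw [pr_mul he hc, ei_inv' hx hμ' hν', ei_inv' hy hμ'' hν'', pr_self]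
  · intro h1
    rw [mul_inv_eq_one₀ hν0] at h1
    exact hμν h1
  · change a * w = (μ * ν⁻¹) • (w * a)
    have h1 : ∀ b c : AlgebraicClosure (ZMod p), ei x b c * w = b • w := fun b c => by
      rw [ei, add_mul, smul_mul_assoc, smul_mul_assoc, sub_mul, one_mul, hxw, sub_self, smul_zero,
        add_zero]
    have h2 : ∀ b c : AlgebraicClosure (ZMod p), w * ei x b c = c • w := fun b c => by
      rw [ei, mul_add, mul_smul_comm, mul_smul_comm, mul_sub, mul_one, hwx, smul_zero, zero_add,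
        sub_zero]
    have h3 : ∀ b c : AlgebraicClosure (ZMod p), ei y b c * w = c • w := fun b c => by
      rw [ei, add_mul, smul_mul_assoc, smul_mul_assoc, sub_mul, one_mul, hyw, smul_zero, zero_add,
        sub_zero]
    have h4 : ∀ b c : AlgebraicClosure (ZMod p), w * ei y b c = b • w := fun b c => by
      rw [ei, mul_add, mul_smul_comm, mul_smul_comm, mul_sub, mul_one, hwy, sub_self, smul_zero,
        add_zero]
    change pr e _ _ * w = (μ * ν⁻¹) • (w * pr e _ _)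
    rw [← pr_self e w, pr_mul he hc, pr_mul he hc, h1, h2, h3, h4]
    rw [pr, pr, smul_add, ← mul_smul_comm, ← mul_smul_comm, smul_smul, smul_smul]
    congr 3
    · rw [mul_assoc, inv_mul_cancel₀ hν0, mul_one]
    · rw [mul_comm μ, mul_assoc, mul_inv_cancel₀ hμ0, mul_one]

end

end MP7fM
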