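import Pool.Agent.Lib.MP_7f581e_ntM.Kron

/-!
Uniqueness of the data of the ring automorphisms of `Bool → Matrix`.
-/

set_option autoImplicit false
set_option linter.unusedSectionVars false

namespace MP7fM

open Matrix MP7fW MP7fY

variable {F : Type*} [Field F] {n : ℕ}

theorem cjR_smul_one (g : GL (Fin n) F) (σ : F ≃+* F) (c : F) :
    cjR g σ (c • (1 : Matrix (Fin n) (Fin n) F)) = σ c • 1 := by
  rw [cjR_apply]
  have h1 : (c • (1 : Matrix (Fin n) (Fin n) F)).map σ = σ c • 1 := by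
    ext i j
    rw [map_apply, Matrix.smul_apply, Matrix.smul_apply, smul_eq_mul, smul_eq_mul, map_mul,
      one_app_map]
  rw [h1, Matrix.mul_smul, Matrix.smul_mul, Matrix.mul_one, gl_mul_inv]

/-- Commuting with all matrices. -/
theorem scalar_of_cjR [NeZero n] {g g' : GL (Fin n) F} {σ : F ≃+* F}
    (h : ∀ M, cjR g σ M = cjR g' σ M) : ∃ k : F, g.1 = k • g'.1 := by
  have h1 : ∀ M : Matrix (Fin n) (Fin n) F, (g'⁻¹ * g).1 * M = M * (g'⁻¹ * g).1 := by
    intro M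
    obtain ⟨N, rfl⟩ : ∃ N : Matrix (Fin n) (Fin n) F, M = N.map σ :=
      ⟨M.map σ.symm, (map_map_symm σ M).symm⟩
    have h2 := h N
    rw [cjR_apply, cjR_apply] at h2
    change ((g'⁻¹).1 * g.1) * _ = _ * ((g'⁻¹).1 * g.1)
    calc ((g'⁻¹).1 * g.1) * N.map σ = (g'⁻¹).1 * (g.1 * N.map σ * (g⁻¹).1) * g.1 := by
          have h3 : (g⁻¹).1 * g.1 = 1 := gl_inv_mul g
          calc _ = (g'⁻¹).1 * (g.1 * N.map σ) * ((g⁻¹).1 * g.1) := by
                rw [h3, Matrix.mul_one, Matrix.mul_assoc]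
            _ = _ := by simp only [Matrix.mul_assoc]
      _ = ((g'⁻¹).1 * g'.1) * N.map σ * ((g'⁻¹).1 * g.1) := by
          rw [h2]
          simp only [Matrix.mul_assoc]
      _ = _ := by rw [gl_inv_mul, Matrix.one_mul]
  set L := (g'⁻¹ * g).1 with hL
  obtain ⟨k, hk⟩ : L ∈ Set.range (Matrix.scalar (Fin n)) := by
    apply Matrix.mem_range_scalar_of_commute_single
    intro i j _
    exact (h1 _).symm
  refine ⟨k, ?_⟩
  have h2 : g.1 = g'.1 * L := by
    change g.1 = (g' * (g'⁻¹ * g)).1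
    rw [mul_inv_cancel_left]
  rw [h2, ← hk, Matrix.scalar_apply, ← Matrix.smul_one_eq_diagonal, Matrix.mul_smul,
    Matrix.mul_one]

/-- Uniqueness of the data. -/
theorem aR_inj [NeZero n] {g g' : GL (Fin n) F} {σ σ' : F ≃+* F} {ε ε' : Bool}
    (h : aR g σ ε = aR g' σ' ε') : ε = ε' ∧ σ = σ' ∧ ∃ k : F, g.1 = k • g'.1 := by
  have h1 : ∀ z b, aR g σ ε z b = aR g' σ' ε' z b := fun z b => by rw [h]
  have hne : (1 : Matrix (Fin n) (Fin n) F) ≠ 0 := by
    intro h0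
    have := congrFun (congrFun h0 0) 0
    rw [one_apply_eq, Matrix.zero_apply] at this
    exact one_ne_zero this
  have hε : ε = ε' := by
    by_contra hcon
    have h2 := h1 (Pi.single ε 1) false
    rw [aR_apply, aR_apply, Bool.false_xor, Bool.false_xor, Pi.single_eq_same,
      Pi.single_eq_of_ne (Ne.symm hcon), map_one, map_zero] at h2
    exact hne h2
  subst hε
  have h2 : ∀ M, cjR g σ M = cjR g' σ' M := by
    intro M
    have h3 := h1 (fun _ => M) false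
    exact h3
  have hσ : σ = σ' := by
    ext c
    have h3 := h2 (c • 1)
    rw [cjR_smul_one, cjR_smul_one] at h3
    have h4 := congrFun (congrFun h3 0) 0
    rw [Matrix.smul_apply, Matrix.smul_apply, one_apply_eq, smul_eq_mul, smul_eq_mul, mul_one,
      mul_one] at h4
    exact h4
  subst hσ
  exact ⟨rfl, rfl, scalar_of_cjR h2⟩

theorem gI_smul {g h : GL (Fin n) F} {k : F} (hk : k ≠ 0) (hg : g.1 = k • h.1) :
    (gI g).1 = k⁻¹ • (gI h).1 := by
  change ((g⁻¹).1)ᵀ = k⁻¹ • ((h⁻¹).1)ᵀ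
  have h1 : (g⁻¹).1 = k⁻¹ • (h⁻¹).1 := by
    have h2 : g.1 * (k⁻¹ • (h⁻¹).1) = 1 := by
      rw [hg, Matrix.smul_mul, Matrix.mul_smul, smul_smul, mul_inv_cancel₀ hk, one_smul,
        gl_mul_inv]
    calc (g⁻¹).1 = (g⁻¹).1 * (g.1 * (k⁻¹ • (h⁻¹).1)) := by rw [h2, Matrix.mul_one]
      _ = ((g⁻¹).1 * g.1) * (k⁻¹ • (h⁻¹).1) := by rw [Matrix.mul_assoc]
      _ = _ := by rw [gl_inv_mul, Matrix.one_mul]
  rw [h1, transpose_smul]

theorem cjR_congr {g h : GL (Fin n) F} {k : F} (hk : k ≠ 0) (hg : g.1 = k • h.1)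
    (σ : F ≃+* F) : cjR g σ = cjR h σ := by
  ext1 M
  rw [cjR_apply, cjR_apply]
  have h1 : (g⁻¹).1 = k⁻¹ • (h⁻¹).1 := by
    have h2 : g.1 * (k⁻¹ • (h⁻¹).1) = 1 := by
      rw [hg, Matrix.smul_mul, Matrix.mul_smul, smul_smul, mul_inv_cancel₀ hk, one_smul,
        gl_mul_inv]
    calc (g⁻¹).1 = (g⁻¹).1 * (g.1 * (k⁻¹ • (h⁻¹).1)) := by rw [h2, Matrix.mul_one]
      _ = ((g⁻¹).1 * g.1) * (k⁻¹ • (h⁻¹).1) := by rw [Matrix.mul_assoc]
      _ = _ := by rw [gl_inv_mul, Matrix.one_mul]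
  rw [h1, hg, Matrix.smul_mul, Matrix.smul_mul, Matrix.mul_smul, smul_smul, mul_inv_cancel₀ hk,
    one_smul]

/-- Scalars do not matter. -/
theorem aR_congr {g h : GL (Fin n) F} {k : F} (hk : k ≠ 0) (hg : g.1 = k • h.1)
    (σ : F ≃+* F) (ε : Bool) : aR g σ ε = aR h σ ε := by
  ext1 z
  funext b
  rw [aR_apply, aR_apply]
  cases b
  · exact congrArg (fun R : RingAut _ => R _) (cjR_congr hk hg σ)
  · exact congrArg (fun R : RingAut _ => R _) (cjR_congr (inv_ne_zero hk) (gI_smul hk hg) σ)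

/-- Linear conjugations. -/
def Xh (n : ℕ) (F : Type*) [Field F] : GL (Fin n) F →* RingAut (Bool → Matrix (Fin n) (Fin n) F)
    where
  toFun g := aR g (RingEquiv.refl F) false
  map_one' := aR_one
  map_mul' g h := by
    rw [aR_mul]
    rfl

theorem Xh_apply (g : GL (Fin n) F) : Xh n F g = aR g (RingEquiv.refl F) false := rfl

theorem Xh_mul_aR (g h : GL (Fin n) F) (σ : F ≃+* F) (ε : Bool) :
    Xh n F g * aR h σ ε = aR (g * h) σ ε := by
  rw [Xh_apply, aR_mul]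
  cases ε <;> rfl

theorem aR_mul_Xh (g h : GL (Fin n) F) (σ : F ≃+* F) (ε : Bool) :
    aR g σ ε * Xh n F h = aR (g * glMap σ (gT ε h)) σ ε := by
  rw [Xh_apply, aR_mul]
  cases ε <;> rfl

/-- The inverse transpose as a homomorphism. -/
def gIh (n : ℕ) (F : Type*) [Field F] : GL (Fin n) F →* GL (Fin n) F where
  toFun := gI
  map_one' := gT_one true
  map_mul' := gI_mul

end MP7fM
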