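import Pool.Agent.Lib.MP_7f581e_ntG.SplitSLn

/-!
Kronecker products.
-/

set_option autoImplicit false
set_option linter.unusedSectionVars false

namespace MP7fM

open Matrix MP7fW MP7fY

open scoped Kronecker

variable {F : Type*} [Field F] {r s n : ℕ} (e : Fin r × Fin s ≃ Fin n)

/-- The left factor. -/
def kK : Matrix (Fin r) (Fin r) F →+* Matrix (Fin n) (Fin n) F where
  toFun A := reindex e e (A ⊗ₖ (1 : Matrix (Fin s) (Fin s) F))
  map_one' := by
    rw [one_kronecker_one]
    simp
  map_mul' A B := by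
    have h1 : (A * B) ⊗ₖ (1 : Matrix (Fin s) (Fin s) F) = (A ⊗ₖ 1) * (B ⊗ₖ 1) := by
      rw [← mul_kronecker_mul, mul_one]
    rw [h1]
    exact (reindexRingEquiv F e).map_mul _ _
  map_zero' := by
    rw [zero_kronecker]
    simp
  map_add' A B := by
    rw [add_kronecker]
    exact (reindexRingEquiv F e).map_add _ _

/-- The right factor. -/
def kL : Matrix (Fin s) (Fin s) F →+* Matrix (Fin n) (Fin n) F where
  toFun A := reindex e e ((1 : Matrix (Fin r) (Fin r) F) ⊗ₖ A)
  map_one' := by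
    rw [one_kronecker_one]
    simp
  map_mul' A B := by
    have h1 : (1 : Matrix (Fin r) (Fin r) F) ⊗ₖ (A * B) = (1 ⊗ₖ A) * (1 ⊗ₖ B) := by
      rw [← mul_kronecker_mul, mul_one]
    rw [h1]
    exact (reindexRingEquiv F e).map_mul _ _
  map_zero' := by
    rw [kronecker_zero]
    simp
  map_add' A B := by
    rw [kronecker_add]
    exact (reindexRingEquiv F e).map_add _ _

theorem kK_apply (A : Matrix (Fin r) (Fin r) F) (x y : Fin n) :
    kK e A x y = A (e.symm x).1 (e.symm y).1 *
      (1 : Matrix (Fin s) (Fin s) F) (e.symm x).2 (e.symm y).2 := rfl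

theorem kL_apply (A : Matrix (Fin s) (Fin s) F) (x y : Fin n) :
    kL e A x y = (1 : Matrix (Fin r) (Fin r) F) (e.symm x).1 (e.symm y).1 *
      A (e.symm x).2 (e.symm y).2 := rfl

theorem kK_kL_comm (A : Matrix (Fin r) (Fin r) F) (B : Matrix (Fin s) (Fin s) F) :
    kK e A * kL e B = kL e B * kK e A := by
  have h1 : (A ⊗ₖ (1 : Matrix (Fin s) (Fin s) F)) * ((1 : Matrix (Fin r) (Fin r) F) ⊗ₖ B) =
      ((1 : Matrix (Fin r) (Fin r) F) ⊗ₖ B) * (A ⊗ₖ 1) := by
    rw [← mul_kronecker_mul, ← mul_kronecker_mul, mul_one, mul_one, one_mul, one_mul]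
  have h2 := congrArg (reindexRingEquiv F e) h1
  rw [map_mul, map_mul] at h2
  exact h2

theorem det_kK (A : Matrix (Fin r) (Fin r) F) : (kK e A).det = A.det ^ s := by
  change (reindex e e _).det = _
  rw [det_reindex_self, det_kronecker, det_one, one_pow, mul_one, Fintype.card_fin]

theorem det_kL (B : Matrix (Fin s) (Fin s) F) : (kL e B).det = B.det ^ r := by
  change (reindex e e _).det = _
  rw [det_reindex_self, det_kronecker, det_one, one_pow, one_mul, Fintype.card_fin]

theorem kK_transpose (A : Matrix (Fin r) (Fin r) F) : kK e Aᵀ = (kK e A)ᵀ := by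
  ext x y
  rw [transpose_apply, kK_apply, kK_apply, transpose_apply]
  congr 1
  rw [one_apply, one_apply]
  simp only [eq_comm]

theorem kL_transpose (A : Matrix (Fin s) (Fin s) F) : kL e Aᵀ = (kL e A)ᵀ := by
  ext x y
  rw [transpose_apply, kL_apply, kL_apply, transpose_apply]
  congr 1
  rw [one_apply, one_apply]
  simp only [eq_comm]

theorem one_app_map {k : ℕ} (σ : F ≃+* F) (i j : Fin k) :
    σ ((1 : Matrix (Fin k) (Fin k) F) i j) = (1 : Matrix (Fin k) (Fin k) F) i j := by
  rw [one_apply]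
  split_ifs
  · exact map_one σ
  · exact map_zero σ

theorem kK_map (σ : F ≃+* F) (A : Matrix (Fin r) (Fin r) F) :
    kK e (A.map σ) = (kK e A).map σ := by
  ext x y
  rw [map_apply, kK_apply, kK_apply, map_mul, one_app_map, map_apply]

theorem kL_map (σ : F ≃+* F) (A : Matrix (Fin s) (Fin s) F) :
    kL e (A.map σ) = (kL e A).map σ := by
  ext x y
  rw [map_apply, kL_apply, kL_apply, map_mul, one_app_map, map_apply]

theorem kK_smul (c : F) (A : Matrix (Fin r) (Fin r) F) : kK e (c • A) = c • kK e A := by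
  ext x y
  rw [Matrix.smul_apply, kK_apply, kK_apply, Matrix.smul_apply, smul_eq_mul, smul_eq_mul, mul_assoc]

/-- The left factor, on invertible matrices. -/
def gK : GL (Fin r) F →* GL (Fin n) F := Units.map (kK e).toMonoidHom

/-- The right factor, on invertible matrices. -/
def gL : GL (Fin s) F →* GL (Fin n) F := Units.map (kL e).toMonoidHom

theorem gK_coe (g : GL (Fin r) F) : (gK e g).1 = kK e g.1 := rfl

theorem gL_coe (g : GL (Fin s) F) : (gL e g).1 = kL e g.1 := rfl

theorem gK_gL (g : GL (Fin r) F) (h : GL (Fin s) F) : gK e g * gL e h = gL e h * gK e g :=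
  Units.ext (kK_kL_comm e g.1 h.1)

theorem gK_gI (g : GL (Fin r) F) : gI (gK e g) = gK e (gI g) := by
  apply Units.ext
  change ((gK e g⁻¹).1)ᵀ = kK e ((g⁻¹).1)ᵀ
  rw [kK_transpose]
  rfl

theorem gL_gI (g : GL (Fin s) F) : gI (gL e g) = gL e (gI g) := by
  apply Units.ext
  change ((gL e g⁻¹).1)ᵀ = kL e ((g⁻¹).1)ᵀ
  rw [kL_transpose]
  rfl

theorem gK_map (σ : F ≃+* F) (g : GL (Fin r) F) : glMap σ (gK e g) = gK e (glMap σ g) := by
  apply Units.ext
  exact (kK_map e σ g.1).symm

theorem gL_map (σ : F ≃+* F) (g : GL (Fin s) F) : glMap σ (gL e g) = gL e (glMap σ g) := by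
  apply Units.ext
  exact (kL_map e σ g.1).symm

end MP7fM
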