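import Pool.Agent.Lib.MP_7f581e_ntL.Y2
import Pool.Agent.Lib.MP_7f581e_ntM.Kron
import Pool.Agent.Lib.MP_7f581e_ntM.Mon

/-!
The elements which generate the complement of the projective special unitary groups.
-/

set_option autoImplicit false
set_option linter.unusedSectionVars false

namespace MP7fM

open Matrix MP7fW MP7fY MP7fG

section num

/-- Powers congruent to one. -/
theorem pow_sub {b Q r c w : ℕ} (hb : b = 1 + Q * w) (hr : r ∣ Q) (hc : r ∣ c) :
    ∃ w', b ^ c = 1 + r * (Q * w') := by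
  obtain ⟨Q', rfl⟩ := hr
  obtain ⟨c', rfl⟩ := hc
  have h : ∀ j, ∃ v, b ^ j = 1 + r * Q' * (j * w + r * v) := by
    intro j
    induction j with
    | zero => exact ⟨0, by simp⟩
    | succ j ih =>
      obtain ⟨v, hv⟩ := ih
      refine ⟨v + Q' * w * (j * w + r * v), ?_⟩
      rw [pow_succ, hv, hb]
      ring
  obtain ⟨v, hv⟩ := h (r * c')
  refine ⟨c' * w + v, ?_⟩
  rw [hv]
  ring

theorem modEq_one {b M : ℕ} (h : b ≡ 1 [MOD M]) (hb : 0 < b) : ∃ w, b = 1 + M * w := by
  obtain ⟨w, hw⟩ := (Nat.modEq_iff_dvd' hb).mp h.symm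
  exact ⟨w, by omega⟩

/-- The exponent. -/
theorem exists_k {p m r Q : ℕ} (hp : 0 < p) (hm : 0 < m) (hQ : Q = p ^ m + 1) (hr : r ∣ Q)
    (hrm : r.Coprime m) : ∃ k : ℕ, 0 < k ∧ k ≡ p [MOD Q] ∧ k ^ (2 * m) ≡ 1 [MOD r * Q] := by
  have hQ0 : 0 < Q := by omega
  have hr0 : 0 < r := Nat.pos_of_dvd_of_pos hr hQ0
  have h1 : p ^ (2 * m) = 1 + Q * (p ^ m - 1) := by
    have h2 : 1 ≤ p ^ m := Nat.one_le_pow _ _ hp
    obtain ⟨x, hx⟩ : ∃ x, p ^ m = x + 1 := ⟨p ^ m - 1, by omega⟩
    rw [hQ, two_mul, pow_add, hx, Nat.add_sub_cancel]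
    ring
  have hmod : p ^ (2 * m) ≡ 1 [MOD Q] := by
    rw [h1]
    unfold Nat.ModEq
    rw [Nat.add_mul_mod_self_left]
  rcases Nat.even_or_odd m with hme | hmo
  · -- even case
    have hr2 : r.Coprime (2 * m) := by
      refine Nat.Coprime.mul_right ?_ hrm
      rw [Nat.coprime_comm, Nat.prime_two.coprime_iff_not_dvd]
      intro h2
      have := Nat.dvd_gcd h2 hme.two_dvd
      rw [hrm] at this
      omega
    obtain ⟨c, hc1, hc2⟩ := Nat.chineseRemainder hr2.symm 1 0
    have hrc : r ∣ c + 2 * m * r := ((Nat.modEq_zero_iff_dvd).mp hc2).add (Dvd.intro_left _ rfl)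
    set c' := c + 2 * m * r with hc'
    have hc'1 : c' ≡ 1 [MOD 2 * m] := by
      have h7 : c' ≡ c [MOD 2 * m] := by
        unfold Nat.ModEq
        rw [hc', Nat.add_mul_mod_self_left]
      exact h7.trans hc1
    have hc'0 : 0 < c' := by
      have : 0 < 2 * m * r := by positivity
      omega
    obtain ⟨j, hj⟩ := modEq_one hc'1 hc'0
    refine ⟨p ^ c', by positivity, ?_, ?_⟩
    · rw [hj, pow_add, pow_one, pow_mul]
      have h8 := (hmod.pow j).mul_left p
      rwa [one_pow, mul_one] at h8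
    · rw [← pow_mul, mul_comm c', pow_mul]
      obtain ⟨w, hw⟩ := pow_sub h1 hr hrc
      rw [hw, ← mul_assoc]
      unfold Nat.ModEq
      rw [Nat.add_mul_mod_self_left]
  · -- odd case
    obtain ⟨c, hc1, hc2⟩ := Nat.chineseRemainder hrm.symm 1 0
    have hrc : r ∣ c + m * r := ((Nat.modEq_zero_iff_dvd).mp hc2).add (Dvd.intro_left _ rfl)
    set c' := c + m * r with hc'
    have hc'1 : c' ≡ 1 [MOD m] := by
      have h7 : c' ≡ c [MOD m] := by
        unfold Nat.ModEq
        rw [hc', Nat.add_mul_mod_self_left]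
      exact h7.trans hc1
    have hc'0 : 0 < c' := by
      have : 0 < m * r := by positivity
      omega
    obtain ⟨j, hj⟩ := modEq_one hc'1 hc'0
    obtain ⟨i, hi⟩ := hmo
    set r1 := p ^ (2 * c') with hr1
    have h8 : r1 ≡ p ^ 2 [MOD Q] := by
      have h9 : r1 = p ^ 2 * (p ^ (2 * m)) ^ j := by
        rw [hr1, hj, ← pow_mul, ← pow_add]
        congr 1
        ring
      rw [h9]
      have h10 := (hmod.pow j).mul_left (p ^ 2)
      rwa [one_pow, mul_one] at h10
    have h9 : r1 ^ m ≡ 1 [MOD r * Q] := by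
      have h10 : r1 ^ m = (p ^ (2 * m)) ^ c' := by
        rw [hr1, ← pow_mul, ← pow_mul]
        congr 1
        ring
      obtain ⟨w, hw⟩ := pow_sub h1 hr hrc
      rw [h10, hw, ← mul_assoc]
      unfold Nat.ModEq
      rw [Nat.add_mul_mod_self_left]
    have hrQ : 2 ≤ r * Q := by
      have h11 : 1 ≤ p ^ m := Nat.one_le_pow _ _ hp
      have : 2 ≤ Q := by omega
      calc 2 ≤ 1 * Q := by omega
        _ ≤ r * Q := Nat.mul_le_mul_right _ hr0
    have hr1p : 0 < r1 := by positivity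
    refine ⟨(r * Q - 1) * r1 ^ (i + 1), Nat.mul_pos (by omega) (by positivity), ?_, ?_⟩
    · -- modulo Q
      have h11 : (r1 ^ (i + 1) + (r * Q - 1) * r1 ^ (i + 1)) ≡ 0 [MOD Q] := by
        rw [Nat.modEq_zero_iff_dvd]
        have h12 : r1 ^ (i + 1) + (r * Q - 1) * r1 ^ (i + 1) = Q * (r * r1 ^ (i + 1)) := by
          obtain ⟨x, hx⟩ : ∃ x, r * Q = x + 1 := ⟨r * Q - 1, by omega⟩
          have h13 : Q * (r * r1 ^ (i + 1)) = (r * Q) * r1 ^ (i + 1) := by ring
          rw [h13, hx, Nat.add_sub_cancel]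
          ring
        rw [h12]
        exact Dvd.intro _ rfl
      have h12 : r1 ^ (i + 1) + p ≡ 0 [MOD Q] := by
        have h13 : r1 ^ (i + 1) ≡ (p ^ 2) ^ (i + 1) [MOD Q] := h8.pow _
        have h14 : (p ^ 2) ^ (i + 1) + p = Q * p := by
          rw [hQ, hi]
          ring
        have h15 := h13.add_right p
        rw [h14] at h15
        exact h15.trans ((Nat.modEq_zero_iff_dvd).mpr (Dvd.intro _ rfl))
      exact Nat.ModEq.add_left_cancel' _ (h11.trans h12.symm)
    · rw [mul_pow, ← pow_mul]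
      have h11 : (r * Q - 1) ^ 2 ≡ 1 [MOD r * Q] := by
        obtain ⟨x, hx⟩ : ∃ x, r * Q = x + 2 := ⟨r * Q - 2, by omega⟩
        have h12 : (r * Q - 1) ^ 2 = 1 + (r * Q) * x := by
          rw [hx]
          have h13 : x + 2 - 1 = x + 1 := by omega
          rw [h13]
          ring
        rw [h12]
        unfold Nat.ModEq
        rw [Nat.add_mul_mod_self_left]
      have h12 : ((r * Q - 1) ^ (2 * m)) ≡ 1 [MOD r * Q] := by
        rw [pow_mul]
        have := h11.pow m
        rwa [one_pow] at this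
      have h13 : r1 ^ ((i + 1) * (2 * m)) ≡ 1 [MOD r * Q] := by
        have h14 : (i + 1) * (2 * m) = m * (2 * (i + 1)) := by ring
        rw [h14, pow_mul]
        have := h9.pow (2 * (i + 1))
        rwa [one_pow] at this
      have := h12.mul h13
      rwa [mul_one] at this

end num

section unitary

variable {F : Type*} [Field F] {s : F →+* F} {r : ℕ} [NeZero r] {ω : F}

/-- Families of monomials are unitary. -/
theorem unit_colM (hω : s ω * ω = 1) (f : Fin r → ℕ)
    (hf : ∀ i j, f i ≡ f j [MOD r] → i = j) :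
    ((colM fun i => mon r ω (f i)).map s)ᵀ * (colM fun i => mon r ω (f i)) = 1 := by
  ext i j
  rw [Matrix.mul_apply]
  change ∑ x, s (mon r ω (f i) x) * mon r ω (f j) x = _
  by_cases hij : i = j
  · subst hij
    rw [one_apply_eq, Finset.sum_eq_single (ix r (f i))]
    · unfold mon
      rw [Pi.single_eq_same, map_pow, ← mul_pow, hω, one_pow]
    · intro x _ hx
      unfold mon
      rw [Pi.single_eq_of_ne hx, mul_zero]
    · intro h
      exact absurd (Finset.mem_univ _) h
  · rw [one_apply_ne hij]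
    apply Finset.sum_eq_zero
    intro x _
    unfold mon
    by_cases h1 : x = ix r (f i)
    · subst h1
      rw [Pi.single_eq_of_ne (M := fun _ => F) (i := ix r (f j)), mul_zero]
      intro h2
      exact hij (hf i j (Fin.ext_iff.mp h2))
    · rw [Pi.single_eq_of_ne h1, map_zero, zero_mul]

theorem mulX_unit (hω : s ω * ω = 1) : ((mulX r ω).map s)ᵀ * mulX r ω = 1 := by
  apply unit_colM hω
  intro i j h
  have h1 := Nat.ModEq.add_right_cancel' 1 h
  exact Fin.ext (Nat.ModEq.eq_of_lt_of_lt h1 i.2 j.2)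

theorem powM_unit (hω : s ω * ω = 1) {k : ℕ} (hk : k.Coprime r) :
    ((powM r ω k).map s)ᵀ * powM r ω k = 1 := by
  apply unit_colM hω
  intro i j h
  have h1 : i.1 ≡ j.1 [MOD r] := Nat.ModEq.cancel_left_of_coprime (by
    rw [Nat.gcd_comm]
    exact hk) h
  exact Fin.ext (Nat.ModEq.eq_of_lt_of_lt h1 i.2 j.2)

end unitary

section kron

variable {F : Type*} [Field F] {s : F →+* F} {r t N : ℕ} (e : Fin r × Fin t ≃ Fin N)

theorem one_app_mapR {k : ℕ} (s : F →+* F) (i j : Fin k) :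
    s ((1 : Matrix (Fin k) (Fin k) F) i j) = (1 : Matrix (Fin k) (Fin k) F) i j := by
  rw [one_apply]
  split_ifs
  · exact map_one s
  · exact map_zero s

theorem gK_UG {g : GL (Fin r) F} (hg : g ∈ UG s (1 : Matrix (Fin r) (Fin r) F)) :
    gK e g ∈ UG s (1 : Matrix (Fin N) (Fin N) F) := by
  rw [mem_UG, Matrix.mul_one] at hg ⊢
  have h1 : (gK e g).1.map s = kK e (g.1.map s) := by
    ext x y
    rw [map_apply, gK_coe, kK_apply, kK_apply, map_mul, one_app_mapR, map_apply]
  rw [h1, ← kK_transpose, gK_coe, ← map_mul, hg, map_one]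

theorem gL_UG {g : GL (Fin t) F} (hg : g ∈ UG s (1 : Matrix (Fin t) (Fin t) F)) :
    gL e g ∈ UG s (1 : Matrix (Fin N) (Fin N) F) := by
  rw [mem_UG, Matrix.mul_one] at hg ⊢
  have h1 : (gL e g).1.map s = kL e (g.1.map s) := by
    ext x y
    rw [map_apply, gL_coe, kL_apply, kL_apply, map_mul, one_app_mapR, map_apply]
  rw [h1, ← kL_transpose, gL_coe, ← map_mul, hg, map_one]

theorem dgl_UG [NeZero t] {a : Fˣ} (ha : a ∈ MU s) :
    dgl t F a ∈ UG s (1 : Matrix (Fin t) (Fin t) F) := by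
  rw [mem_UG, Matrix.mul_one, dgl_coe, diagonal_map (map_zero s), diagonal_transpose,
    diagonal_mul_diagonal, ← diagonal_one]
  congr 1
  funext i
  unfold dvec
  split_ifs
  · exact ha
  · rw [map_one, one_mul]

theorem det_UG {n : ℕ} {g : GL (Fin n) F} (hg : g ∈ UG s (1 : Matrix (Fin n) (Fin n) F)) :
    GeneralLinearGroup.det g ∈ MU s := by
  rw [mem_UG, Matrix.mul_one] at hg
  have h1 := congrArg Matrix.det hg
  rw [det_mul, det_transpose, det_one] at h1
  have h2 : (g.1.map s).det = s g.1.det := (s.map_det g.1).symm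
  rw [h2] at h1
  exact h1

end kron

end MP7fM
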