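import Pool.Agent.Lib.MP_7f581e_ntM.Cmpl
import Pool.Agent.Lib.MP_7f581e_ntG.SplitSU
import Pool.Agent.Lib.MP_7f581e_ntM.UElts

/-!
The complement of `PSU(N, F)` in its automorphism group.
-/

set_option autoImplicit false
set_option linter.unusedSectionVars false

namespace MP7fM

open Matrix MP7fW MP7fY MP7fG

section conj

variable {F : Type*} [Field F] {N : ℕ}

/-- Linear conjugations. -/
def Xu (N : ℕ) (F : Type*) [Field F] : GL (Fin N) F →* RingAut (Matrix (Fin N) (Fin N) F) where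
  toFun g := cjR g (RingEquiv.refl F)
  map_one' := cjR_one
  map_mul' g h := by
    rw [cjR_mul]
    rfl

theorem Xu_apply (g : GL (Fin N) F) : Xu N F g = cjR g (RingEquiv.refl F) := rfl

theorem Xu_mul_cjR (g h : GL (Fin N) F) (σ : F ≃+* F) : Xu N F g * cjR h σ = cjR (g * h) σ := by
  rw [Xu_apply, cjR_mul]
  rfl

theorem cjR_mul_Xu (g h : GL (Fin N) F) (σ : F ≃+* F) :
    cjR g σ * Xu N F h = cjR (g * glMap σ h) σ := by
  rw [Xu_apply, cjR_mul]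
  rfl

/-- Uniqueness of the data. -/
theorem cjR_inj [NeZero N] {g g' : GL (Fin N) F} {σ σ' : F ≃+* F}
    (h : cjR g σ = cjR g' σ') : σ = σ' ∧ ∃ k : F, g.1 = k • g'.1 := by
  have h2 : ∀ M, cjR g σ M = cjR g' σ' M := fun M => by rw [h]
  have hσ : σ = σ' := by
    ext c
    have h3 := h2 (c • 1)
    rw [cjR_smul_one, cjR_smul_one] at h3
    have h4 := congrFun (congrFun h3 0) 0
    rw [Matrix.smul_apply, Matrix.smul_apply, one_apply_eq, smul_eq_mul, smul_eq_mul, mul_one,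
      mul_one] at h4
    exact h4
  subst hσ
  exact ⟨rfl, scalar_of_cjR h2⟩

end conj

section elts

variable {F : Type*} [Field F] [Finite F] {p : ℕ} [hp : Fact p.Prime] [CharP F p] {m : ℕ}
  (hcard : Nat.card F = p ^ (2 * m)) {r t N : ℕ} [NeZero r] [NeZero t]
  (e : Fin r × Fin t ≃ Fin N) (ω : Fˣ) {k Q : ℕ} (hωQ : ω ^ Q = 1) (hkp : k ≡ p [MOD Q])
  (hk0 : 0 < k) (hk : k ^ (2 * m) ≡ 1 [MOD r * Q]) (hm : 0 < m)

include hωQ hkp in
theorem fr_omega : ((fr F p : F ≃+* F) : F →+* F) (ω : F) = (ω : F) ^ k := by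
  rw [fr_ring, ← Units.val_pow_eq_pow_val, ← Units.val_pow_eq_pow_val]
  congr 1
  rw [pow_eq_pow_iff_modEq]
  have h1 : orderOf ω ∣ Q := orderOf_dvd_of_pow_eq_one hωQ
  exact (hkp.of_dvd h1).symm

include hωQ hk hk0 in
theorem powM_k : powM r (ω : F) (k ^ (2 * m)) = 1 := by
  obtain ⟨w, hw⟩ := modEq_one hk (by positivity)
  refine powM_eq_one (t := Q * w) (by rw [hw, mul_assoc]) ?_
  rw [pow_mul, ← Units.val_pow_eq_pow_val, hωQ, Units.val_one, one_pow]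

include hωQ hkp hk hk0 hm in
theorem det_powMk_ne : (powM r (ω : F) k).det ≠ 0 := by
  intro h0
  have h1 := powM_mul (r := r) (ω := (ω : F)) (σ := ((fr F p : F ≃+* F) : F →+* F)) (Q := k)
    (fr_omega ω hωQ hkp) (k ^ (2 * m - 1))
  have h2 : k * k ^ (2 * m - 1) = k ^ (2 * m) := by
    rw [← pow_succ']
    congr 1
    omega
  rw [h2, powM_k ω hωQ hk0 hk] at h1
  have h3 := congrArg Matrix.det h1
  rw [det_mul, h0, zero_mul, det_one] at h3
  exact zero_ne_one h3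

/-- The matrix of `X ↦ X ^ k`. -/
noncomputable def psG : GL (Fin r) F :=
  GeneralLinearGroup.mkOfDetNeZero (powM r (ω : F) k) (det_powMk_ne ω hωQ hkp hk0 hk hm)

/-- The semilinear element. -/
noncomputable def PsR : RingAut (Matrix (Fin N) (Fin N) F) :=
  cjR (gK e (psG (p := p) (r := r) ω hωQ hkp hk0 hk hm)) (fr F p)

theorem Ps_pow (j : ℕ) : ∃ P : GL (Fin r) F, P.1 = powM r (ω : F) (k ^ j) ∧
    PsR (p := p) e ω hωQ hkp hk0 hk hm ^ j = cjR (gK e P) (fr F p ^ j : RingAut F) := by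
  induction j with
  | zero =>
    refine ⟨1, ?_, ?_⟩
    · rw [pow_zero]
      exact (powM_eq_one (t := 0) (by rw [mul_zero, add_zero]) (pow_zero _)).symm
    · rw [pow_zero, pow_zero, map_one]
      exact cjR_one.symm
  | succ j ih =>
    obtain ⟨P, hP, h⟩ := ih
    refine ⟨psG (p := p) (r := r) ω hωQ hkp hk0 hk hm * glMap (fr F p) P, ?_, ?_⟩
    · change powM r (ω : F) k * (P.1).map ((fr F p : F ≃+* F) : F →+* F) = _
      rw [hP, powM_mul (fr_omega ω hωQ hkp), pow_succ']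
    · rw [pow_succ', h, PsR, cjR_mul, gK_map, ← map_mul, pow_succ']
      rfl

include hcard in
/-- The order of the semilinear element. -/
theorem Ps_pow_eq_one : PsR (p := p) e ω hωQ hkp hk0 hk hm ^ (2 * m) = 1 := by
  obtain ⟨P, hP, h⟩ := Ps_pow (p := p) e ω hωQ hkp hk0 hk hm (2 * m)
  have hP1 : P = 1 := Units.ext (by rw [hP, powM_k ω hωQ hk0 hk]; rfl)
  rw [h, hP1, map_one, fr_pow_m hcard]
  exact cjR_one

theorem ps_mul_G : psG (p := p) (r := r) ω hωQ hkp hk0 hk hm * glMap (fr F p) (mulG r ω) =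
    mulG r ω ^ k * psG (p := p) (r := r) ω hωQ hkp hk0 hk hm := by
  apply Units.ext
  change powM r (ω : F) k * (mulX r (ω : F)).map ((fr F p : F ≃+* F) : F →+* F) =
    ((mulG r ω) ^ k).1 * powM r (ω : F) k
  rw [powM_mulX (fr_omega ω hωQ hkp), Units.val_pow_eq_pow_val]
  rfl

variable (s : F →+* F)

/-- The group of diagonal automorphisms. -/
noncomputable def TU : Subgroup (GL (Fin N) F) where
  carrier := {g | ∃ (a : ℤ) (ζ : Fˣ), ζ ∈ MU s ∧ ζ ^ (Nat.gcd t (Nat.card (MU s))) = 1 ∧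
    g = gK e (mulG r ω) ^ a * gL e (dgl t F ζ)}
  one_mem' := ⟨0, 1, one_mem _, one_pow _, by
    rw [_root_.zpow_zero, map_one, map_one, mul_one]⟩
  mul_mem' := by
    rintro _ _ ⟨a, ζ, hζM, hζ, rfl⟩ ⟨b, ξ, hξM, hξ, rfl⟩
    refine ⟨a + b, ζ * ξ, mul_mem hζM hξM, by rw [mul_pow, hζ, hξ, one_mul], ?_⟩
    rw [map_mul, map_mul, _root_.zpow_add, mul_assoc, mul_assoc]
    congr 1
    rw [← mul_assoc, ← mul_assoc]
    congr 1
    exact ((show Commute (gK e (mulG r ω)) (gL e (dgl t F ζ)) from gK_gL e _ _).zpow_left b).symm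
  inv_mem' := by
    rintro _ ⟨a, ζ, hζM, hζ, rfl⟩
    refine ⟨-a, ζ⁻¹, inv_mem hζM, by rw [inv_pow, hζ, inv_one], ?_⟩
    rw [_root_.mul_inv_rev, map_inv, map_inv, _root_.zpow_neg]
    exact (((show Commute (gK e (mulG r ω)) (gL e (dgl t F ζ)) from
      gK_gL e _ _).zpow_left a).inv_inv).symm

variable {s} in
theorem Ps_norm (hs : ∀ (σ : F ≃+* F) x, σ (s x) = s (σ x)) :
    ∀ d ∈ (TU e ω s).map (Xu N F), ∃ d' ∈ (TU e ω s).map (Xu N F),
      PsR (p := p) e ω hωQ hkp hk0 hk hm * d = d' * PsR (p := p) e ω hωQ hkp hk0 hk hm := by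
  rintro _ ⟨_, ⟨a, ζ, hζM, hζ, rfl⟩, rfl⟩
  refine ⟨_, ⟨_, ⟨(k : ℤ) * a, Units.map ((fr F p : F ≃+* F) : F →* F) ζ, ?_, ?_, rfl⟩, rfl⟩, ?_⟩
  · rw [mem_MU] at hζM ⊢
    change s ((fr F p : F ≃+* F) (ζ : F)) * (fr F p : F ≃+* F) (ζ : F) = 1
    rw [← hs, ← map_mul, hζM, map_one]
  · rw [← map_pow, hζ, map_one]
  · rw [PsR, cjR_mul_Xu, Xu_mul_cjR]
    congr 1
    rw [map_mul, map_zpow, gK_map, gL_map, glMap_dgl, ← mul_assoc]
    have h1 : SemiconjBy (gK e (psG (p := p) (r := r) ω hωQ hkp hk0 hk hm))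
        (gK e (glMap (fr F p) (mulG r ω))) (gK e (mulG r ω) ^ k) := by
      change _ * _ = _ * _
      rw [← map_mul, ps_mul_G, map_mul, map_pow]
    have h2 := (h1.zpow_right a).eq
    rw [h2, ← zpow_natCast, ← _root_.zpow_mul, mul_assoc, mul_assoc, gK_gL]

end elts

section cpl

variable {F : Type*} [Field F] [Finite F] {p : ℕ} [hp : Fact p.Prime] [CharP F p] {m : ℕ}
  (hcard : Nat.card F = p ^ (2 * m)) {r t N : ℕ} [NeZero r] [NeZero t]
  (e : Fin r × Fin t ≃ Fin N) (ω : Fˣ) {k : ℕ} {s : F →+* F}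
  (hs : ∀ (σ : F ≃+* F) x, σ (s x) = s (σ x)) (hωM : ω ∈ MU s)
  (hωQ : ω ^ (Nat.card (MU s)) = 1) (hkp : k ≡ p [MOD (Nat.card (MU s))])
  (hk0 : 0 < k) (hk : k ^ (2 * m) ≡ 1 [MOD r * (Nat.card (MU s))]) (hm : 0 < m)

/-- The complement. -/
noncomputable def AXU : Subgroup (RingAut (Matrix (Fin N) (Fin N) F)) :=
  wrS (D := (TU e ω s).map (Xu N F)) (u := PsR (p := p) e ω hωQ hkp hk0 hk hm) (v := 1)
    (m := 2 * m) (m' := 1) (Ps_pow_eq_one hcard e ω hωQ hkp hk0 hk hm) (one_pow 1) (by omega)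
    one_pos (by rw [mul_one, one_mul]) (Ps_norm e ω hωQ hkp hk0 hk hm hs)
    (fun d hd => ⟨d, hd, by rw [one_mul, mul_one]⟩)

theorem mem_AXU {x : RingAut (Matrix (Fin N) (Fin N) F)} :
    x ∈ AXU hcard e ω hs hωQ hkp hk0 hk hm ↔ ∃ d ∈ (TU e ω s).map (Xu N F), ∃ j l : ℕ,
      x = d * PsR (p := p) e ω hωQ hkp hk0 hk hm ^ j * 1 ^ l := Iff.rfl

include hωM in
theorem mulG_UG : mulG r ω ∈ UG s (1 : Matrix (Fin r) (Fin r) F) := by
  rw [mem_UG, Matrix.mul_one]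
  exact mulX_unit hωM

include hωM in
theorem TU_le {g : GL (Fin N) F} (hg : g ∈ TU e ω s) :
    g ∈ UG s (1 : Matrix (Fin N) (Fin N) F) := by
  obtain ⟨a, ζ, hζM, -, rfl⟩ := hg
  exact mul_mem (zpow_mem (gK_UG e (mulG_UG ω hωM)) a) (gL_UG e (dgl_UG hζM))

include hk hm in
theorem k_coprime : k.Coprime r := by
  have h1 : k ^ (2 * m) ≡ 1 [MOD r] := hk.of_mul_right _
  have h2 : (k ^ (2 * m)).Coprime r := by
    have h3 := h1.gcd_eq
    rw [Nat.gcd_one_left] at h3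
    exact h3
  exact Nat.Coprime.coprime_dvd_left (dvd_pow_self k (by omega)) h2

include hωM in
theorem psG_UG : psG (p := p) (r := r) ω hωQ hkp hk0 hk hm ∈
    UG s (1 : Matrix (Fin r) (Fin r) F) := by
  rw [mem_UG, Matrix.mul_one]
  exact powM_unit hωM (k_coprime hk hm)

include hωM in
theorem AXU_le : AXU hcard e ω hs hωQ hkp hk0 hk hm ≤ AW hs := by
  rintro _ ⟨_, ⟨g, hg, rfl⟩, j, l, rfl⟩
  have h1 : Xu N F g ∈ AW (s := s) (N := N) hs := ⟨g, TU_le e ω hωM hg, _, rfl⟩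
  have h2 : PsR (p := p) e ω hωQ hkp hk0 hk hm ∈ AW (s := s) (N := N) hs :=
    ⟨_, gK_UG e (psG_UG ω hωM hωQ hkp hk0 hk hm), _, rfl⟩
  rw [one_pow, mul_one]
  exact mul_mem h1 (pow_mem h2 _)

include hωM in
theorem hexXU (x : AXU hcard e ω hs hωQ hkp hk0 hk hm)
    (h : SG s (1 : Matrix (Fin N) (Fin N) F)) :
    ∃ h', incW s N h' = (AXU hcard e ω hs hωQ hkp hk0 hk hm).subtype x (incW s N h) :=
  hexW hs ⟨x.1, AXU_le hcard e ω hs hωM hωQ hkp hk0 hk hm x.2⟩ h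

/-- The action on `PSU(N,F)`. -/
noncomputable abbrev cXU : AXU hcard e ω hs hωQ hkp hk0 hk hm →*
    MulAut (PSG s (1 : Matrix (Fin N) (Fin N) F)) :=
  cQ (incW s N) incW_inj (AXU hcard e ω hs hωQ hkp hk0 hk hm).subtype
    (hexXU hcard e ω hs hωM hωQ hkp hk0 hk hm)

theorem cXU_eq (x : AXU hcard e ω hs hωQ hkp hk0 hk hm)
    (y : PSG s (1 : Matrix (Fin N) (Fin N) F)) :
    cXU hcard e ω hs hωM hωQ hkp hk0 hk hm x y =
      cW hs ⟨x.1, AXU_le hcard e ω hs hωM hωQ hkp hk0 hk hm x.2⟩ y := by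
  obtain ⟨h, rfl⟩ := mk_surj s 1 y
  obtain ⟨h', hh'⟩ := hexXU hcard e ω hs hωM hωQ hkp hk0 hk hm x h
  have h1 : cXU hcard e ω hs hωM hωQ hkp hk0 hk hm x (mk s 1 h) = mk s 1 h' :=
    cQ_mk' _ _ _ _ _ hh'
  have h2 : cW hs ⟨x.1, AXU_le hcard e ω hs hωM hωQ hkp hk0 hk hm x.2⟩ (mk s 1 h) = mk s 1 h' :=
    cQ_mk' _ _ _ _ _ hh'
  rw [h1, h2]

theorem cW_inner (h : SG s (1 : Matrix (Fin N) (Fin N) F))
    (hX : Xu N F h.1 ∈ AW (s := s) (N := N) hs) (y : PSG s (1 : Matrix (Fin N) (Fin N) F)) :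
    cW hs ⟨Xu N F h.1, hX⟩ y = mk s 1 h * y * (mk s 1 h)⁻¹ := by
  obtain ⟨A, rfl⟩ := mk_surj s 1 y
  rw [← map_inv, ← map_mul, ← map_mul]
  exact cW_mk hs h.1 h.2.1 (RingEquiv.refl F) A (h * A * h⁻¹) rfl

theorem Xu_gK_pow : Xu N F (gK e (mulG r ω) ^ r) = 1 := by
  rw [← map_pow, Xu_apply]
  have h1 : (gK e (mulG r ω ^ r)).1 = (ω : F) • (1 : GL (Fin N) F).1 := by
    rw [gK_coe, mulG_pow, kK_smul, map_one]
    rfl
  rw [cjR_congr ω.ne_zero h1]
  exact cjR_one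

theorem det_TU (a : ℤ) (ζ : Fˣ) :
    GeneralLinearGroup.det (gK e (mulG r ω) ^ a * gL e (dgl t F ζ)) =
      (mulD r ω ^ t) ^ a * ζ ^ r := by
  have h1 : ∀ g : GL (Fin N) F, g.1.det = (GeneralLinearGroup.det g : F) := fun g => rfl
  have h2 : GeneralLinearGroup.det (gK e (mulG r ω)) = mulD r ω ^ t := by
    apply Units.ext
    rw [← h1, gK_coe, det_kK, mulG_det, Units.val_pow_eq_pow_val]
  have h3 : GeneralLinearGroup.det (gL e (dgl t F ζ)) = ζ ^ r := by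
    apply Units.ext
    rw [← h1, gL_coe, det_kL, dgl_det, Units.val_pow_eq_pow_val]
  rw [map_mul, map_zpow, h2, h3]

theorem mulD_MU (hωM : ω ∈ MU s) : mulD r ω ∈ MU s := by
  have h1 := det_UG (mulG_UG (r := r) ω hωM)
  have h2 : GeneralLinearGroup.det (mulG r ω) = mulD r ω := Units.ext rfl
  rwa [h2] at h1

variable (hr : r ∣ Nat.card (MU s))
  (hgen : ∀ x : MU s, x ∈ Subgroup.zpowers (⟨ω, hωM⟩ : MU s))
  (hl : ∀ l, l.Prime → l ∣ r → l ∣ Nat.card (MU s) / r) (hrt : r.Coprime t)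
  (hd : DiagCond t (Nat.card (MU s))) (hN : 0 < N)
  (hA : AutP s (1 : Matrix (Fin N) (Fin N) F)) (hR : RigP s (1 : Matrix (Fin N) (Fin N) F))

include hr hgen hl hrt hd hN hA hR in
/-- **The complement property.** -/
theorem cpl_AXU : Cpl (cXU hcard e ω hs hωM hωQ hkp hk0 hk hm) := by
  have hNZ : NeZero N := ⟨hN.ne'⟩
  have hn := n_eq e
  have hD : (⟨mulD r ω, mulD_MU ω hωM⟩ : MU s) ^ r = (⟨ω, hωM⟩ : MU s) ^ r :=
    Subtype.ext mulD_pow
  refine ⟨?_, ?_⟩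
  · intro x s' hx'
    obtain ⟨h, rfl⟩ := mk_surj s 1 s'
    have hXm : Xu N F h.1 ∈ AW (s := s) (N := N) hs := ⟨_, h.2.1, _, rfl⟩
    have h1 : (⟨x.1, AXU_le hcard e ω hs hωM hωQ hkp hk0 hk hm x.2⟩ : AW (s := s) (N := N) hs) =
        ⟨Xu N F h.1, hXm⟩ := by
      apply cQ_injective (fixW hs hR)
      intro y
      have h2 := hx' y
      rw [cXU_eq] at h2
      exact h2.trans (cW_inner hs h hXm y).symm
    have h2 : x.1 = cjR h.1 (RingEquiv.refl F) := congrArg Subtype.val h1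
    obtain ⟨_, ⟨g, hg, rfl⟩, j, l, hx⟩ := (mem_AXU hcard e ω hs hωQ hkp hk0 hk hm).mp x.2
    obtain ⟨P, -, hP⟩ := Ps_pow (p := p) e ω hωQ hkp hk0 hk hm j
    rw [one_pow, mul_one, hP, Xu_mul_cjR] at hx
    obtain ⟨hσ, -⟩ := cjR_inj (hx.symm.trans h2)
    have hσ' : fr F p ^ j = 1 := hσ
    obtain ⟨j', rfl⟩ := fr_dvd hcard hσ'
    rw [← Xu_mul_cjR, ← hP, pow_mul, Ps_pow_eq_one hcard, one_pow, mul_one] at hx
    obtain ⟨-, κ, hκ⟩ := cjR_inj (hx.symm.trans h2)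
    have hgU := TU_le e ω hωM hg
    obtain ⟨a, ζ, hζM, hζ, rfl⟩ := hg
    have hκ0 : κ ≠ 0 := by
      rintro rfl
      have h6 := congrArg Matrix.det hκ
      haveI : Nonempty (Fin N) := ⟨0⟩
      rw [zero_smul, det_zero] at h6
      exact Units.ne_zero (GeneralLinearGroup.det
        (gK e (mulG r ω) ^ a * gL e (dgl t F ζ))) h6
    have hκM : Units.mk0 κ hκ0 ∈ MU s := by
      rw [mem_MU, Units.val_mk0]
      rw [mem_UG, Matrix.mul_one] at hgU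
      have h3 := h.2.1
      rw [mem_UG, Matrix.mul_one] at h3
      have h4 : (κ • h.1.1).map s = s κ • h.1.1.map s := by
        ext i j
        exact map_mul s _ _
      rw [hκ, h4, transpose_smul, Matrix.smul_mul, Matrix.mul_smul, h3, smul_smul] at hgU
      have h5 := congrFun (congrFun hgU 0) 0
      rw [Matrix.smul_apply, Matrix.one_apply_eq, smul_eq_mul, mul_one] at h5
      exact h5
    have h8 : (mulD r ω ^ t) ^ a * ζ ^ r = (Units.mk0 κ hκ0) ^ (r * t) := by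
      rw [← det_TU e]
      apply Units.ext
      have h6 := congrArg Matrix.det hκ
      rw [det_smul, Fintype.card_fin, h.2.2, mul_one] at h6
      rw [Units.val_pow_eq_pow_val, Units.val_mk0, ← hn]
      exact h6
    obtain ⟨⟨a', rfl⟩, hζ1⟩ := arith_unique (δ := (⟨mulD r ω, mulD_MU ω hωM⟩ : MU s)) hgen hl hr
      hrt hd hD (a := a) (ζ := (⟨ζ, hζM⟩ : MU s)) (c := ⟨Units.mk0 κ hκ0, hκM⟩)
      (Subtype.ext hζ) (Subtype.ext h8)
    have hζ2 : ζ = 1 := congrArg Subtype.val hζ1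
    apply Subtype.ext
    rw [hx, hζ2, map_mul, map_one, map_one, map_one, mul_one, _root_.zpow_mul, map_zpow,
      zpow_natCast, Xu_gK_pow, _root_.one_zpow]
    rfl
  · intro φ
    obtain ⟨⟨_, g, hg, τ, rfl⟩, hy⟩ := surW hs hA φ
    obtain ⟨j, rfl⟩ := exists_fr (p := p) τ
    obtain ⟨P, hPk, hP⟩ := Ps_pow (p := p) e ω hωQ hkp hk0 hk hm j
    have hPU : gK e P ∈ UG s (1 : Matrix (Fin N) (Fin N) F) := by
      apply gK_UG
      rw [mem_UG, Matrix.mul_one, hPk]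
      exact powM_unit hωM ((k_coprime hk hm).pow_left j)
    obtain ⟨a, ζ, b, hζ, hb⟩ := arith_exists (δ := (⟨mulD r ω, mulD_MU ω hωM⟩ : MU s)) hgen hl hr
      hrt hd hD ⟨GeneralLinearGroup.det (g * (gK e P)⁻¹), det_UG (mul_mem hg (inv_mem hPU))⟩
    have hb' : GeneralLinearGroup.det (g * (gK e P)⁻¹) =
        (mulD r ω ^ t) ^ a * (ζ : Fˣ) ^ r * (b : Fˣ) ^ (r * t) := congrArg Subtype.val hb
    set y := gK e (mulG r ω) ^ a * gL e (dgl t F (ζ : Fˣ)) with hy'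
    have hyT : y ∈ TU e ω s := ⟨a, ζ, ζ.2, congrArg Subtype.val hζ, rfl⟩
    have hdet : GeneralLinearGroup.det (g * (gK e P)⁻¹ * y⁻¹) = (b : Fˣ) ^ N := by
      rw [map_mul, map_inv, det_TU, hb', hn, mul_right_comm, mul_inv_cancel, one_mul]
    have hbM : s ((b : Fˣ) : F) * ((b : Fˣ) : F) = 1 := b.2
    let β : GL (Fin N) F := ⟨((b : Fˣ) : F) • 1, ((b : Fˣ) : F)⁻¹ • 1, by
      rw [Matrix.smul_mul, Matrix.mul_smul, smul_smul, mul_inv_cancel₀ (b : Fˣ).ne_zero, one_smul,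
        Matrix.mul_one], by
      rw [Matrix.smul_mul, Matrix.mul_smul, smul_smul, inv_mul_cancel₀ (b : Fˣ).ne_zero, one_smul,
        Matrix.mul_one]⟩
    have hβ : β ∈ UG s (1 : Matrix (Fin N) (Fin N) F) := by
      rw [mem_UG, Matrix.mul_one]
      change ((((b : Fˣ) : F) • (1 : Matrix (Fin N) (Fin N) F)).map s)ᵀ *
        (((b : Fˣ) : F) • 1) = 1
      have h1 : (((b : Fˣ) : F) • (1 : Matrix (Fin N) (Fin N) F)).map s =
          s ((b : Fˣ) : F) • 1 := by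
        ext i j
        rw [Matrix.map_apply, Matrix.smul_apply, Matrix.smul_apply, smul_eq_mul, smul_eq_mul,
          map_mul, one_app_mapR]
      rw [h1, transpose_smul, transpose_one, Matrix.smul_mul, Matrix.one_mul, smul_smul, hbM,
        one_smul]
    have hβd : GeneralLinearGroup.det β = (b : Fˣ) ^ N := by
      apply Units.ext
      change (((b : Fˣ) : F) • (1 : Matrix (Fin N) (Fin N) F)).det = _
      rw [det_smul, det_one, mul_one, Fintype.card_fin, Units.val_pow_eq_pow_val]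
    have hhm : β⁻¹ * (g * (gK e P)⁻¹ * y⁻¹) ∈ SG s (1 : Matrix (Fin N) (Fin N) F) := by
      refine ⟨mul_mem (inv_mem hβ) (mul_mem (mul_mem hg (inv_mem hPU))
        (inv_mem (TU_le e ω hωM hyT))), ?_⟩
      have h1 : GeneralLinearGroup.det (β⁻¹ * (g * (gK e P)⁻¹ * y⁻¹)) = 1 := by
        rw [map_mul, map_inv, hβd, hdet, inv_mul_cancel]
      exact congrArg Units.val h1
    let h : SG s (1 : Matrix (Fin N) (Fin N) F) := ⟨_, hhm⟩
    have hX : Xu N F (g * (gK e P)⁻¹ * y⁻¹) = Xu N F h.1 := by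
      apply cjR_congr (b : Fˣ).ne_zero
      change (g * (gK e P)⁻¹ * y⁻¹).1 = ((b : Fˣ) : F) • (β⁻¹ * (g * (gK e P)⁻¹ * y⁻¹)).1
      have h1 : (β⁻¹ * (g * (gK e P)⁻¹ * y⁻¹)).1 =
          ((b : Fˣ) : F)⁻¹ • (g * (gK e P)⁻¹ * y⁻¹).1 := by
        change (((b : Fˣ) : F)⁻¹ • (1 : Matrix (Fin N) (Fin N) F)) * _ = _
        rw [Matrix.smul_mul, Matrix.one_mul]
      rw [h1, smul_smul, mul_inv_cancel₀ (b : Fˣ).ne_zero, one_smul]
    have hXm : Xu N F h.1 ∈ AW (s := s) (N := N) hs := ⟨_, h.2.1, _, rfl⟩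
    let x : AXU hcard e ω hs hωQ hkp hk0 hk hm :=
      ⟨Xu N F y * PsR (p := p) e ω hωQ hkp hk0 hk hm ^ j,
      ⟨_, ⟨y, hyT, rfl⟩, j, 0, by rw [pow_zero, mul_one]⟩⟩
    have hyx : cjR g (fr F p ^ j : RingAut F) = Xu N F h.1 * x.1 := by
      change _ = _ * (Xu N F y * _)
      rw [hP, ← hX, ← mul_assoc, ← map_mul, inv_mul_cancel_right, Xu_mul_cjR,
        inv_mul_cancel_right]
    refine ⟨mk s 1 h, x, ?_⟩
    intro t'
    rw [hy, cXU_eq hcard e ω hs hωM, ← cW_inner hs h hXm, ← MulAut.mul_apply, ← map_mul]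
    congr 2
    exact Subtype.ext hyx

end cpl

end MP7fM
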